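import Pool.Agent.ZFQ.Defs

/-! First order definable classes over a set-theoretic structure and the axioms of ZF. -/

namespace Pool.Agent.ZFQ

universe u

/-- A model of ZF, as a class (only used inside the proofs). -/
class ZFModel (M : Type u) where
  E : M → M → Prop
  ax : IsZF E

/-! ### Contexts and definability -/

theorem Dfn.rename {M : Type u} {E : M → M → Prop} {m : ℕ} {P : (Fin m → M) → Prop}
    (h : Dfn E m P) : ∀ {n : ℕ} (s : Fin m → Fin n), Dfn E n (fun v => P (fun i => v (s i))) := by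
  induction h with
  | mem i j => intro n s; exact Dfn.mem (s i) (s j)
  | eq i j => intro n s; exact Dfn.eq (s i) (s j)
  | neg _ ih => intro n s; exact Dfn.neg (ih s)
  | and _ _ ih1 ih2 => intro n s; exact Dfn.and (ih1 s) (ih2 s)
  | @ex k P _ ih =>
    intro n s
    have h1 := Dfn.ex (ih (Fin.cases (0 : Fin (n + 1)) (fun i => (s i).succ)))
    have h2 : (fun v : Fin n → M => ∃ x, P (Fin.cons x (fun i => v (s i)))) =
        (fun v => ∃ x, P (fun i => (Fin.cons x v : Fin (n + 1) → M)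
          ((Fin.cases (0 : Fin (n + 1)) (fun i => (s i).succ) : Fin (k + 1) → Fin (n + 1)) i))) := by
      funext v
      refine propext (exists_congr fun x => ?_)
      have : (Fin.cons x (fun i => v (s i)) : Fin (k + 1) → M) =
          (fun i => (Fin.cons x v : Fin (n + 1) → M)
          ((Fin.cases (0 : Fin (n + 1)) (fun i => (s i).succ) : Fin (k + 1) → Fin (n + 1)) i)) := by
        funext i
        refine Fin.cases ?_ ?_ i
        · rfl
        · intro j; rfl
      rw [this]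
    rw [h2]; exact h1
  | @par k P a _ ih =>
    intro n s
    have h1 := Dfn.par a (ih (Fin.cases (0 : Fin (n + 1)) (fun i => (s i).succ)))
    have h2 : (fun v : Fin n → M => P (Fin.cons a (fun i => v (s i)))) =
        (fun v => P (fun i => (Fin.cons a v : Fin (n + 1) → M)
          ((Fin.cases (0 : Fin (n + 1)) (fun i => (s i).succ) : Fin (k + 1) → Fin (n + 1)) i))) := by
      funext v
      have : (Fin.cons a (fun i => v (s i)) : Fin (k + 1) → M) =
          (fun i => (Fin.cons a v : Fin (n + 1) → M)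
          ((Fin.cases (0 : Fin (n + 1)) (fun i => (s i).succ) : Fin (k + 1) → Fin (n + 1)) i)) := by
        funext i
        refine Fin.cases ?_ ?_ i
        · rfl
        · intro j; rfl
      rw [this]
    rw [h2]; exact h1

/-- A context: a type whose elements code finite tuples of elements of `M`. -/
class Ctx (M : Type u) (Γ : Type u) where
  n : ℕ
  dec : (Fin n → M) → Γ
  enc : Γ → (Fin n → M)
  dec_enc : ∀ γ, dec (enc γ) = γ

instance ctxUnit (M : Type u) : Ctx M PUnit.{u+1} where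
  n := 0
  dec := fun _ => PUnit.unit
  enc := fun _ => Fin.elim0
  dec_enc := fun _ => rfl

instance ctxProd (M : Type u) (Γ : Type u) [c : Ctx M Γ] : Ctx M (Γ × M) where
  n := c.n + 1
  dec := fun v => (c.dec (fun i => v i.succ), v 0)
  enc := fun p => Fin.cons p.2 (c.enc p.1)
  dec_enc := fun p => by
    have : c.dec (fun i : Fin c.n => (Fin.cons p.2 (c.enc p.1) : Fin (c.n + 1) → M) i.succ) = p.1 := by
      simp only [Fin.cons_succ]; exact c.dec_enc p.1
    exact Prod.ext this rfl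

set_option linter.unusedSectionVars false
set_option linter.unusedVariables false

variable {M : Type u} [Z : ZFModel M]

open ZFModel

/-- Definable predicate in a context. -/
def D {Γ : Type u} [c : Ctx M Γ] (P : Γ → Prop) : Prop :=
  Dfn (Z.E) c.n (fun v => P (c.dec v))

section
variable {Γ : Type u} [c : Ctx M Γ] {Δ : Type u} [c' : Ctx M Δ]

theorem D.congr {P Q : Γ → Prop} (h : D (M := M) P) (e : ∀ γ, P γ ↔ Q γ) : D (M := M) Q := by
  have : P = Q := funext fun γ => propext (e γ)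
  rw [← this]; exact h

theorem D.not {P : Γ → Prop} (h : D (M := M) P) : D (M := M) (fun γ => ¬ P γ) := Dfn.neg h

theorem D.and {P Q : Γ → Prop} (h : D (M := M) P) (h' : D (M := M) Q) :
    D (M := M) (fun γ => P γ ∧ Q γ) := Dfn.and h h'

theorem D.or {P Q : Γ → Prop} (h : D (M := M) P) (h' : D (M := M) Q) :
    D (M := M) (fun γ => P γ ∨ Q γ) :=
  (D.not (D.and (D.not h) (D.not h'))).congr (fun γ => by tauto)

theorem D.imp {P Q : Γ → Prop} (h : D (M := M) P) (h' : D (M := M) Q) :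
    D (M := M) (fun γ => P γ → Q γ) :=
  (D.or (D.not h) h').congr (fun γ => by tauto)

theorem D.iff {P Q : Γ → Prop} (h : D (M := M) P) (h' : D (M := M) Q) :
    D (M := M) (fun γ => P γ ↔ Q γ) :=
  (D.and (D.imp h h') (D.imp h' h)).congr (fun γ => by tauto)

theorem D.ex {P : Γ → M → Prop} (h : D (M := M) (fun p : Γ × M => P p.1 p.2)) :
    D (M := M) (fun γ => ∃ x, P γ x) := Dfn.ex h

theorem D.par {P : Γ → M → Prop} (h : D (M := M) (fun p : Γ × M => P p.1 p.2)) (a : M) :
    D (M := M) (fun γ => P γ a) := Dfn.par a h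

theorem D.all {P : Γ → M → Prop} (h : D (M := M) (fun p : Γ × M => P p.1 p.2)) :
    D (M := M) (fun γ => ∀ x, P γ x) :=
  (D.not (D.ex (P := fun γ x => ¬ P γ x) (D.not h))).congr (fun γ => by
    constructor
    · intro h x; by_contra hx; exact h ⟨x, hx⟩
    · rintro h ⟨x, hx⟩; exact hx (h x))

/-- renamings of contexts -/
def Ren (M : Type u) {Γ : Type u} [c : Ctx M Γ] {Δ : Type u} [c' : Ctx M Δ] (ρ : Δ → Γ) : Prop :=
  ∃ s : Fin c.n → Fin c'.n, ∀ v : Fin c'.n → M, ρ (c'.dec v) = c.dec (fun i => v (s i))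

theorem D.ren {ρ : Δ → Γ} (hρ : Ren M ρ) {P : Γ → Prop} (h : D (M := M) P) :
    D (M := M) (fun δ => P (ρ δ)) := by
  obtain ⟨s, hs⟩ := hρ
  have h1 := Dfn.rename h s
  have : (fun v : Fin c'.n → M => P (ρ (c'.dec v))) = (fun v => P (c.dec (fun i => v (s i)))) := by
    funext v; rw [hs]
  show Dfn _ _ _
  rw [this]; exact h1

theorem Ren.fst : Ren M (fun p : Γ × M => p.1) := ⟨fun i => i.succ, fun v => rfl⟩

theorem Ren.lift {ρ : Δ → Γ} (hρ : Ren M ρ) : Ren M (fun p : Δ × M => ((ρ p.1, p.2) : Γ × M)) := by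
  obtain ⟨s, hs⟩ := hρ
  refine ⟨Fin.cases (0 : Fin (c'.n + 1)) (fun i => (s i).succ), fun v => ?_⟩
  refine Prod.ext ?_ rfl
  exact hs (fun i => v i.succ)

/-- Definable term in a context. -/
def T {Γ : Type u} [Ctx M Γ] (f : Γ → M) : Prop := D (M := M) (fun p : Γ × M => p.2 = f p.1)

theorem T.wk1 {f : Γ → M} (h : T f) : T (fun p : Γ × M => f p.1) :=
  D.ren (ρ := fun p : (Γ × M) × M => ((p.1.1, p.2) : Γ × M)) (Ren.lift Ren.fst) h

theorem T.wk2 {f : Γ → M} (h : T f) : T (fun p : (Γ × M) × M => f p.1.1) := T.wk1 (T.wk1 h)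
theorem T.wk3 {f : Γ → M} (h : T f) : T (fun p : ((Γ × M) × M) × M => f p.1.1.1) :=
  T.wk1 (T.wk2 h)
theorem T.wk4 {f : Γ → M} (h : T f) : T (fun p : (((Γ × M) × M) × M) × M => f p.1.1.1.1) :=
  T.wk1 (T.wk3 h)
theorem T.wk5 {f : Γ → M} (h : T f) :
    T (fun p : ((((Γ × M) × M) × M) × M) × M => f p.1.1.1.1.1) := T.wk1 (T.wk4 h)
theorem T.wk6 {f : Γ → M} (h : T f) :
    T (fun p : (((((Γ × M) × M) × M) × M) × M) × M => f p.1.1.1.1.1.1) := T.wk1 (T.wk5 h)
theorem T.wk7 {f : Γ → M} (h : T f) :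
    T (fun p : ((((((Γ × M) × M) × M) × M) × M) × M) × M => f p.1.1.1.1.1.1.1) := T.wk1 (T.wk6 h)
theorem T.wk8 {f : Γ → M} (h : T f) :
    T (fun p : (((((((Γ × M) × M) × M) × M) × M) × M) × M) × M => f p.1.1.1.1.1.1.1.1) :=
  T.wk1 (T.wk7 h)

/-- atomic formulas on variables -/
theorem D.memVar : D (M := M) (fun p : (Γ × M) × M => E p.1.2 p.2) :=
  Dfn.mem (1 : Fin (c.n + 2)) (0 : Fin (c.n + 2))

theorem D.eqVar : D (M := M) (fun p : (Γ × M) × M => p.2 = p.1.2) :=
  Dfn.eq (0 : Fin (c.n + 2)) (1 : Fin (c.n + 2))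

theorem T.var0 : T (fun p : Γ × M => p.2) := D.eqVar
theorem T.var1 : T (fun p : (Γ × M) × M => p.1.2) := T.wk1 T.var0
theorem T.var2 : T (fun p : ((Γ × M) × M) × M => p.1.1.2) := T.wk2 T.var0
theorem T.var3 : T (fun p : (((Γ × M) × M) × M) × M => p.1.1.1.2) := T.wk3 T.var0
theorem T.var4 : T (fun p : ((((Γ × M) × M) × M) × M) × M => p.1.1.1.1.2) := T.wk4 T.var0
theorem T.var5 : T (fun p : (((((Γ × M) × M) × M) × M) × M) × M => p.1.1.1.1.1.2) := T.wk5 T.var0
theorem T.var6 : T (fun p : ((((((Γ × M) × M) × M) × M) × M) × M) × M => p.1.1.1.1.1.1.2) :=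
  T.wk6 T.var0
theorem T.var7 : T (fun p : (((((((Γ × M) × M) × M) × M) × M) × M) × M) × M =>
    p.1.1.1.1.1.1.1.2) := T.wk7 T.var0
theorem T.var8 : T (fun p : ((((((((Γ × M) × M) × M) × M) × M) × M) × M) × M) × M =>
    p.1.1.1.1.1.1.1.1.2) := T.wk8 T.var0

theorem D.eqVar' : D (M := M) (fun p : Γ × M => p.2 = p.2) :=
  Dfn.eq (0 : Fin (c.n + 1)) (0 : Fin (c.n + 1))

theorem T.const (a : M) : T (fun _ : Γ => a) := by
  have h := D.par (Γ := Γ × M) (P := fun p x => p.2 = x)
    ((D.eqVar (Γ := Γ)).congr (fun p => eq_comm)) a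
  exact h

theorem D.const (p : Prop) : D (M := M) (fun _ : Γ => p) := by
  by_cases hp : p
  · have h : D (M := M) (fun _ : Γ => ∀ x : M, x = x) := D.all (P := fun _ x => x = x) D.eqVar'
    exact h.congr (fun γ => by simp [hp])
  · have h : D (M := M) (fun _ : Γ => ¬ ∀ x : M, x = x) :=
      D.not (D.all (P := fun _ x => x = x) D.eqVar')
    exact h.congr (fun γ => by simp [hp])

theorem D.mem {f g : Γ → M} (hf : T f) (hg : T g) : D (M := M) (fun γ => E (f γ) (g γ)) := by
  have h1 : D (M := M) (fun p : (Γ × M) × M => p.1.2 = f p.1.1) :=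
    D.ren (ρ := fun p : (Γ × M) × M => p.1) Ren.fst hf
  have h2 : D (M := M) (fun p : (Γ × M) × M => p.2 = g p.1.1) := T.wk1 hg
  have h3 : D (M := M) (fun γ => ∃ x, ∃ y, (x = f γ ∧ y = g γ) ∧ E x y) :=
    D.ex (P := fun γ x => ∃ y, (x = f γ ∧ y = g γ) ∧ E x y)
      (D.ex (P := fun (p : Γ × M) y => (p.2 = f p.1 ∧ y = g p.1) ∧ E p.2 y)
        (D.and (D.and h1 h2) D.memVar))
  refine h3.congr (fun γ => ?_)
  constructor
  · rintro ⟨x, y, ⟨rfl, rfl⟩, h⟩; exact h
  · intro h; exact ⟨_, _, ⟨rfl, rfl⟩, h⟩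

theorem D.eq {f g : Γ → M} (hf : T f) (hg : T g) : D (M := M) (fun γ => f γ = g γ) := by
  have h1 : D (M := M) (fun γ => ∃ x, x = f γ ∧ x = g γ) :=
    D.ex (P := fun γ x => x = f γ ∧ x = g γ) (D.and hf hg)
  refine h1.congr (fun γ => ?_)
  constructor
  · rintro ⟨x, h, h'⟩; rw [← h, ← h']
  · intro h; exact ⟨_, rfl, h⟩

/-- the fibres of a definable predicate are definable classes -/
theorem Dfn.inst {M : Type u} {E : M → M → Prop} : ∀ (n : ℕ) (Q : (Fin (n + 1) → M) → Prop),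
    Dfn E (n + 1) Q → ∀ v : Fin n → M, Dfn E 1 (fun w => Q (Fin.snoc v (w 0)))
  | 0, Q, h, v => by
    have : (fun w : Fin 1 → M => Q (Fin.snoc v (w 0))) = Q := by
      funext w
      have : (Fin.snoc v (w 0) : Fin 1 → M) = w := by
        funext i
        have hi : i = 0 := Fin.ext (by omega)
        subst hi
        rfl
      rw [this]
    rw [this]; exact h
  | n + 1, Q, h, v => by
    have h1 := Dfn.inst n _ (Dfn.par (v 0) h) (fun i => v i.succ)
    have : (fun w : Fin 1 → M => Q (Fin.snoc v (w 0))) =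
        (fun w => Q (Fin.cons (v 0) (Fin.snoc (fun i => v i.succ) (w 0)))) := by
      funext w
      have : (Fin.snoc v (w 0) : Fin (n + 2) → M) =
          Fin.cons (v 0) (Fin.snoc (fun i => v i.succ) (w 0)) := by
        rw [Fin.cons_snoc_eq_snoc_cons]
        congr 1
        exact (Fin.cons_self_tail v).symm
      rw [this]
    rw [this]; exact h1

theorem D.fibre {P : Γ → M → Prop} (h : D (M := M) (fun p : Γ × M => P p.1 p.2)) (γ : Γ) :
    D (M := M) (fun p : PUnit.{u+1} × M => P γ p.2) := by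
  have h1 : Dfn (Z.E) (c.n + 1) (fun v => P (c.dec (fun i => v i.succ)) (v 0)) := h
  have h2 := Dfn.rename h1 (n := c.n + 1) (Fin.cases (Fin.last c.n) (fun i => i.castSucc))
  have h3 := Dfn.inst _ _ h2 (c.enc γ)
  have : (fun w : Fin 1 → M => P (c.dec (fun i : Fin c.n =>
      (Fin.snoc (c.enc γ) (w 0) : Fin (c.n + 1) → M)
        ((Fin.cases (Fin.last c.n) (fun i => i.castSucc) : Fin (c.n + 1) → Fin (c.n + 1)) i.succ)))
      ((Fin.snoc (c.enc γ) (w 0) : Fin (c.n + 1) → M)
        ((Fin.cases (Fin.last c.n) (fun i => i.castSucc) : Fin (c.n + 1) → Fin (c.n + 1)) 0))) =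
      (fun w : Fin 1 → M => P γ (w 0)) := by
    funext w
    simp only [Fin.cases_succ, Fin.cases_zero, Fin.snoc_castSucc, Fin.snoc_last]
    rw [c.dec_enc]
  show Dfn (Z.E) 1 (fun w : Fin 1 → M => P γ (w 0))
  rw [← this]
  exact h3

end

end Pool.Agent.ZFQ
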