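import Mathlib

/-!
# Quasi-metrizable products in models of ZF: the definitions

A model of ZF is a type `M` with a binary relation `E` (read `E x y` as `x ∈ y`) satisfying the
axioms of ZF, the two schemas being stated for all relations which are first order definable
with parameters from `E`.  Everything below is formulated inside such a model.
-/

namespace Pool.Agent.ZFQ

universe u

/-- `Dfn E n P`: the `n`-ary relation `P` on `M` is first order definable, with parameters,
from the binary relation `E`. -/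
inductive Dfn {M : Type u} (E : M → M → Prop) : (n : ℕ) → ((Fin n → M) → Prop) → Prop
  | mem {n : ℕ} (i j : Fin n) : Dfn E n (fun v => E (v i) (v j))
  | eq {n : ℕ} (i j : Fin n) : Dfn E n (fun v => v i = v j)
  | neg {n : ℕ} {P : (Fin n → M) → Prop} : Dfn E n P → Dfn E n (fun v => ¬ P v)
  | and {n : ℕ} {P Q : (Fin n → M) → Prop} :
      Dfn E n P → Dfn E n Q → Dfn E n (fun v => P v ∧ Q v)
  | ex {n : ℕ} {P : (Fin (n + 1) → M) → Prop} :
      Dfn E (n + 1) P → Dfn E n (fun v => ∃ x, P (Fin.cons x v))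
  | par {n : ℕ} {P : (Fin (n + 1) → M) → Prop} (a : M) :
      Dfn E (n + 1) P → Dfn E n (fun v => P (Fin.cons a v))

/-- The axioms of ZF for the structure `(M, E)`, where `E x y` is read `x ∈ y`. -/
structure IsZF {M : Type u} (E : M → M → Prop) : Prop where
  ext : ∀ a b, (∀ x, E x a ↔ E x b) → a = b
  foundation : ∀ a, (∃ x, E x a) → ∃ x, E x a ∧ ∀ y, E y a → ¬ E y x
  pairing : ∀ a b, ∃ c, ∀ x, E x c ↔ (x = a ∨ x = b)
  union : ∀ a, ∃ c, ∀ x, E x c ↔ ∃ y, E y a ∧ E x y
  power : ∀ a, ∃ c, ∀ x, E x c ↔ ∀ z, E z x → E z a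
  infinity : ∃ w, (∃ e, E e w ∧ ∀ x, ¬ E x e) ∧
    ∀ x, E x w → ∃ y, E y w ∧ ∀ z, E z y ↔ (E z x ∨ z = x)
  separation : ∀ P : (Fin 1 → M) → Prop, Dfn E 1 P →
    ∀ a, ∃ c, ∀ x, E x c ↔ (E x a ∧ P ![x])
  replacement : ∀ P : (Fin 2 → M) → Prop, Dfn E 2 P →
    ∀ a, (∀ x, E x a → ∃! y, P ![x, y]) → ∃ c, ∀ y, E y c ↔ ∃ x, E x a ∧ P ![x, y]

section

variable {M : Type u} (E : M → M → Prop)

/-- The type of the elements (in the sense of the model) of the set `a`. -/
abbrev El (a : M) : Type u := {x : M // E x a}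

/-- `p` is the Kuratowski pair `(x, y) = {{x}, {x, y}}`. -/
def IsPair (p x y : M) : Prop :=
  ∀ z, E z p ↔ ((∀ t, E t z ↔ t = x) ∨ (∀ t, E t z ↔ (t = x ∨ t = y)))

/-- `(x, y) ∈ f`. -/
def Rel (f x y : M) : Prop := ∃ p, IsPair E p x y ∧ E p f

/-- `((x, y), z) ∈ f`. -/
def Rel2 (f x y z : M) : Prop := ∃ p, IsPair E p x y ∧ Rel E f p z

/-- `w` contains the empty set and is closed under `x ↦ x ∪ {x}`. -/
def IsInductive (w : M) : Prop :=
  (∃ e, E e w ∧ ∀ x, ¬ E x e) ∧ ∀ x, E x w → ∃ y, E y w ∧ ∀ z, E z y ↔ (E z x ∨ z = x)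

/-- `w` is the set `ω` of natural numbers: the least inductive set. -/
def IsOmega (w : M) : Prop :=
  IsInductive E w ∧ ∀ v, IsInductive E v → ∀ x, E x w → E x v

/-- A function between two sets of the model is internal if its graph is an element of the
model; here this is stated for functions from `a` to the universe. -/
def IsFamily {a : M} (F : El E a → M) : Prop := ∃ g, ∀ (x : El E a) (y : M), Rel E g x y ↔ F x = y

/-- `J` is countable: there is an (internal) injection of `J` into `ω`. -/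
def IsCountable (J : M) : Prop :=
  ∃ w, IsOmega E w ∧ ∃ e : El E J → El E w, Function.Injective e ∧ IsFamily E (fun j => (e j : M))

/-- A real line of the model: a set `R` of the model, which carries the structure of an ordered
field whose addition, multiplication and order are elements of the model, and in which every
nonempty bounded set of the model has a least upper bound. -/
structure RealLine where
  R : M
  field : Field (El E R)
  order : LinearOrder (El E R)
  ordered : IsStrictOrderedRing (El E R)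
  add_mem : ∃ g, ∀ x y z : El E R, Rel2 E g x y z ↔ x + y = z
  mul_mem : ∃ g, ∀ x y z : El E R, Rel2 E g x y z ↔ x * y = z
  le_mem : ∃ g, ∀ x y : El E R, Rel E g x y ↔ x ≤ y
  complete : ∀ s, (∀ x, E x s → E x R) → (∃ x, E x s) →
    (∃ b : El E R, ∀ x : El E R, E x s → x ≤ b) → ∃ b, IsLUB {x : El E R | E x s} b

attribute [instance] RealLine.field RealLine.order RealLine.ordered

/-- `T` is a topology on the set `X` of the model. -/
def IsTopology (X T : M) : Prop :=
  (∀ G, E G T → ∀ x, E x G → E x X) ∧ E X T ∧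
  (∀ A, (∀ G, E G A → E G T) → ∃ U, E U T ∧ ∀ x, E x U ↔ ∃ G, E G A ∧ E x G) ∧
  (∀ G H, E G T → E H T → ∃ I, E I T ∧ ∀ x, E x I ↔ (E x G ∧ E x H))

/-- `P` is the Cartesian product of the family `X`: the set of all functions `f` with domain
`J` and `f(j) ∈ X j` for all `j ∈ J`. -/
def IsProduct {J : M} (X : El E J → M) (P : M) : Prop :=
  ∀ f, E f P ↔ ((∀ p, E p f → ∃ (j : El E J) (x : M), IsPair E p j x ∧ E x (X j)) ∧
    ∀ j : El E J, ∃! x, Rel E f j x)

/-- `T` contains the sets `{f ∈ P : f(j) ∈ U}`, for `j ∈ J` and `U ∈ τ j`. -/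
def HasSubbasis {J : M} (τ : El E J → M) (P T : M) : Prop :=
  ∀ (j : El E J) (U : M), E U (τ j) →
    ∃ G, E G T ∧ ∀ f, E f G ↔ (E f P ∧ ∃ x, Rel E f j x ∧ E x U)

/-- `T` is the Tychonoff product topology on `P`: the smallest topology on `P` which contains
the sets `{f ∈ P : f(j) ∈ U}`, for `j ∈ J` and `U ∈ τ j`. -/
def IsProductTopology {J : M} (τ : El E J → M) (P T : M) : Prop :=
  IsTopology E P T ∧ HasSubbasis E τ P T ∧
    ∀ T', IsTopology E P T' → HasSubbasis E τ P T' → ∀ G, E G T → E G T'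

end

section

variable {M : Type u} {E : M → M → Prop} (𝓡 : RealLine E)

/-- A quasi-metric of the model on the set `X`: a function `d : X × X → [0, ∞)` which is an
element of the model, with `d(x,x) = 0`, `d(x,y) ≤ d(x,z) + d(z,y)` and
`d(x,y) = 0 → x = y`. -/
structure QuasiMetric (X : M) where
  d : El E X → El E X → El E 𝓡.R
  internal : ∃ g, ∀ (x y : El E X) (r : El E 𝓡.R), Rel2 E g x y r ↔ d x y = r
  nonneg : ∀ x y, 0 ≤ d x y
  self : ∀ x, d x x = 0
  triangle : ∀ x y z, d x y ≤ d x z + d z y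
  separated : ∀ x y, d x y = 0 → x = y

/-- `τ` is the topology induced by `d`: the set of all `V ⊆ X` such that every `x ∈ V` has
some `ε > 0` with `{y : d(x,y) < ε} ⊆ V`. -/
def Induces {X : M} (d : El E X → El E X → El E 𝓡.R) (τ : M) : Prop :=
  ∀ V, E V τ ↔ ((∀ x, E x V → E x X) ∧
    ∀ x : El E X, E x V → ∃ ε : El E 𝓡.R, 0 < ε ∧ ∀ y : El E X, d x y < ε → E y V)

/-- The topological space `(X, τ)` is quasi-metrizable (in the model). -/
def QuasiMetrizable (X τ : M) : Prop := ∃ ρ : QuasiMetric 𝓡 X, Induces 𝓡 ρ.d τ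

/-- The bitopological space `(X, τ₁, τ₂)` is quasi-metrizable (in the model): `τ₁` is induced
by a quasi-metric `d` and `τ₂` by its conjugate `(x, y) ↦ d(y, x)`. -/
def BiQuasiMetrizable (X τ₁ τ₂ : M) : Prop :=
  ∃ ρ : QuasiMetric 𝓡 X, Induces 𝓡 ρ.d τ₁ ∧ Induces 𝓡 (fun x y => ρ.d y x) τ₂

/-- `CPQM` in the model: countable Tychonoff products of quasi-metrizable spaces are
quasi-metrizable. -/
def CPQM : Prop :=
  ∀ J : M, IsCountable E J → ∀ X τ : El E J → M, IsFamily E X → IsFamily E τ →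
    (∀ j, QuasiMetrizable 𝓡 (X j) (τ j)) →
    ∀ P T, IsProduct E X P → IsProductTopology E τ P T → QuasiMetrizable 𝓡 P T

/-- `CPQMBi` in the model: countable products of quasi-metrizable bitopological spaces are
quasi-metrizable. -/
def CPQMBi : Prop :=
  ∀ J : M, IsCountable E J → ∀ X τ₁ τ₂ : El E J → M,
    IsFamily E X → IsFamily E τ₁ → IsFamily E τ₂ →
    (∀ j, BiQuasiMetrizable 𝓡 (X j) (τ₁ j) (τ₂ j)) →
    ∀ P T₁ T₂, IsProduct E X P → IsProductTopology E τ₁ P T₁ → IsProductTopology E τ₂ P T₂ →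
      BiQuasiMetrizable 𝓡 P T₁ T₂

end

end Pool.Agent.ZFQ
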