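import Pool.Agent.ZFQ.Prod

/-! Extraction of canonical neighbourhoods of the diagonal from `CPQM`. -/

set_option linter.unusedSectionVars false
set_option linter.unusedVariables false
set_option linter.unusedTactic false
set_option linter.unreachableTactic false

namespace Pool.Agent.ZFQ

universe u

variable {M : Type u} [Z : ZFModel M]

open ZFModel

abbrev Def5 (P : M → M → M → M → M → Prop) : Prop :=
  ∀ (Γ : Type u) [Ctx M Γ] (f g h k l : Γ → M), T f → T g → T h → T k → T l →
    D (M := M) (fun γ => P (f γ) (g γ) (h γ) (k γ) (l γ))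

/-- the extracted relations -/
def Mr (J w j k z u v : M) : Prop :=
  u = v ∨ ∀ m, E m (om M) → nle m k →
    rv w k (iota J (pS M) j (pQ z m)) (iota J (pS M) j (pR u v m))

theorem dMr (J w : M) : Def5 (Mr J w) := by
  intro Γ _ f g h k l hf hg hh hk hl
  unfold Mr
  (repeat' with_reducible first
    | exact T.const _ | exact T.var0 | exact T.var1 | exact T.var2 | exact T.var3
    | exact T.var4 | exact T.var5 | exact T.var6 | exact T.var7 | exact T.var8 | assumption
    | exact D.const _ | apply D.and | apply D.or | apply D.not | apply D.iff | apply D.imp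
    | apply D.ex | apply D.all | apply D.mem | apply D.eq | apply tUpair | apply tPair
    | apply tSUnion | apply dSub | apply tPow | apply tCup | apply tProd | apply tApp
    | apply tSc | apply dInd | apply dNle | apply tVal | apply tAddK | apply tHalfK
    | apply dLeK | apply dLtK | apply dEqK | apply dExK | apply dAllK | apply tHK | apply tCC
    | apply dRv | apply dTopology | apply tpQ | apply tpR | apply tpP | apply dAdm | apply dInY
    | apply tYY | apply dOpenY | apply tSig | apply dGood | apply dInProd | apply dHSub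
    | apply tIota | apply T.wk1 | apply T.wk2 | apply T.wk3 | apply T.wk4 | apply T.wk5
    | apply T.wk6 | apply T.wk7 | apply T.wk8)

theorem VY_pP {v X k x U H u w m : M} (h : VY v X k (pP x U H) (pR u w m))
    (hu : E (pair m u) H) : E w U := by
  rcases h with e | ⟨_, _, _, _, e, _⟩ | ⟨x', U', H', n, e, hn, hg, ⟨_, _, _, _, _, _, e'⟩ |
    ⟨u', w', m', _, _, _, _, _, _, hH, e'⟩⟩
  · exact (pR_ne_pP e.symm).elim
  · exact (pQ_ne_pP e.symm).elim
  · exact (pQ_ne_pR e'.symm).elim
  · obtain ⟨rfl, rfl, rfl⟩ := pP_inj e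
    obtain ⟨rfl, rfl, rfl⟩ := pR_inj e'
    exact hH hu

variable (𝓡 : RealLine Z.E)

/-- the bitopological space `(X, τ₁, τ₂)` is given by a normal sequence -/
def BiData (X τ₁ τ₂ : M) : Prop :=
  ∃ v : M, NormalSet X v ∧ GenTop X (rv v) τ₁ ∧ GenTop X (fun k x y => rv v k y x) τ₂

theorem bqm_data {X τ₁ τ₂ : M} (h : BiQuasiMetrizable 𝓡 X τ₁ τ₂) : BiData X τ₁ τ₂ := by
  obtain ⟨ρ, h1, h2⟩ := h
  obtain ⟨v, hv, e1, e2⟩ := exists_normal 𝓡 ρ
  exact ⟨v, hv, e1 _ h1, e2 _ h2⟩

theorem BiData.conj {X τ₁ τ₂ : M} (h : BiData X τ₁ τ₂) : BiData X τ₂ τ₁ := by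
  obtain ⟨v, hv, h1, h2⟩ := h
  have hset : IsSet (fun p => ∃ k x y, p = pair k (pair x y) ∧ rv v k y x) := by
    refine isSet_sub (prod (om M) (prod X X)) ?_ ?_
    · (repeat' with_reducible first
      | exact T.const _ | exact T.var0 | exact T.var1 | exact T.var2 | exact T.var3
      | exact T.var4 | exact T.var5 | exact T.var6 | exact T.var7 | exact T.var8 | assumption
      | exact D.const _ | apply D.and | apply D.or | apply D.not | apply D.iff | apply D.imp
      | apply D.ex | apply D.all | apply D.mem | apply D.eq | apply tUpair | apply tPair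
      | apply tSUnion | apply dSub | apply tPow | apply tCup | apply tProd | apply tApp
      | apply tSc | apply dInd | apply dNle | apply tVal | apply tAddK | apply tHalfK
      | apply dLeK | apply dLtK | apply dEqK | apply dExK | apply dAllK | apply tHK | apply tCC
      | apply dRv | apply dTopology | apply tpQ | apply tpR | apply tpP | apply dAdm
      | apply dInY | apply tYY | apply dOpenY | apply tSig | apply dGood | apply dInProd
      | apply dHSub | apply tIota | apply T.wk1 | apply T.wk2 | apply T.wk3 | apply T.wk4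
      | apply T.wk5 | apply T.wk6 | apply T.wk7 | apply T.wk8)
    · rintro p ⟨k, x, y, rfl, h⟩
      obtain ⟨hk, hy, hx⟩ := hv.sub _ _ _ h
      exact pair_mem_prod.2 ⟨hk, pair_mem_prod.2 ⟨hx, hy⟩⟩
  obtain ⟨v', hv'⟩ := hset
  have key : ∀ k x y, rv v' k x y ↔ rv v k y x := by
    intro k x y
    unfold rv at *
    rw [hv']
    constructor
    · rintro ⟨k', x', y', e, h⟩
      obtain ⟨rfl, e2⟩ := pair_inj.1 e
      obtain ⟨rfl, rfl⟩ := pair_inj.1 e2
      exact h
    · intro h; exact ⟨k, x, y, rfl, h⟩
  refine ⟨v', ⟨?_, ?_, ?_, ?_⟩, ?_, ?_⟩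
  · intro k x y h
    obtain ⟨hk, hy, hx⟩ := hv.sub _ _ _ ((key _ _ _).1 h)
    exact ⟨hk, hx, hy⟩
  · intro k x hk hx
    exact (key _ _ _).2 (hv.refl k x hk hx)
  · intro k x y z hk e1 e2
    exact (key _ _ _).2 (hv.comp k z y x hk ((key _ _ _).1 e2) ((key _ _ _).1 e1))
  · intro x y hx hy h
    exact (hv.sep y x hy hx (fun k hk => (key _ _ _).1 (h k hk))).symm
  · have e : rv v' = fun k x y => rv v k y x := by
      funext k x y; exact propext (key k x y)
    rw [e]; exact h2
  · have e : (fun k x y => rv v' k y x) = rv v := by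
      funext k x y; exact propext (key k y x)
    rw [e]; exact h1

/-- the conclusions of the extraction, for one ordering of the two topologies -/
structure OneSide (J gX g1 g2 : M) (A : M → M → M → M → M → Prop) : Prop where
  dfn : Def5 A
  nb : ∀ j z k, E j J → E z (app gX j) → E k (om M) → ∃ O G, E O (app g2 j) ∧ E G (app g1 j) ∧
    E z O ∧ E z G ∧ ∀ u v, E u O → E v G → A j k z u v
  anti : ∀ j k l z u v, E j J → E k (om M) → nle l k → E l (om M) → E z (app gX j) →
    E u (app gX j) → E v (app gX j) → A j k z u v → A j l z u v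
  conv : ∀ j x U, E j J → E U (app g1 j) → E x U → ∃ K, E K (om M) ∧
    ∀ z u v, E z (app gX j) → E u (app gX j) → E v (app gX j) → A j K x x u → A j K z u v →
      E v U

theorem one_side (hC : CPQM 𝓡) {J : M} (hJ : IsCountable Z.E J) (gX g1 g2 : M)
    (hb : ∀ j, E j J → BiData (app gX j) (app g1 j) (app g2 j)) :
    ∃ A, OneSide J gX g1 g2 A := by
  set gY : M := lam J (fun j => YY (app gX j) (app g1 j)) with hgY
  set gs : M := lam J (fun j => sig (app gX j) (app g1 j) (app g2 j)) with hgs
  have eY : ∀ j, E j J → app gY j = YY (app gX j) (app g1 j) := by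
    intro j hj
    exact app_lam (by (repeat' with_reducible first
      | exact T.const _ | exact T.var0 | exact T.var1 | exact T.var2 | exact T.var3
      | exact T.var4 | exact T.var5 | exact T.var6 | exact T.var7 | exact T.var8 | assumption
      | exact D.const _ | apply D.and | apply D.or | apply D.not | apply D.iff | apply D.imp
      | apply D.ex | apply D.all | apply D.mem | apply D.eq | apply tUpair | apply tPair
      | apply tSUnion | apply dSub | apply tPow | apply tCup | apply tProd | apply tApp
      | apply tSc | apply dInd | apply dNle | apply tVal | apply tAddK | apply tHalfK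
      | apply dLeK | apply dLtK | apply dEqK | apply dExK | apply dAllK | apply tHK | apply tCC
      | apply dRv | apply dTopology | apply tpQ | apply tpR | apply tpP | apply dAdm
      | apply dInY | apply tYY | apply dOpenY | apply tSig | apply dGood | apply dInProd
      | apply dHSub | apply tIota | apply T.wk1 | apply T.wk2 | apply T.wk3 | apply T.wk4
      | apply T.wk5 | apply T.wk6 | apply T.wk7 | apply T.wk8)) hj
  have es : ∀ j, E j J → app gs j = sig (app gX j) (app g1 j) (app g2 j) := by
    intro j hj
    exact app_lam (by (repeat' with_reducible first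
      | exact T.const _ | exact T.var0 | exact T.var1 | exact T.var2 | exact T.var3
      | exact T.var4 | exact T.var5 | exact T.var6 | exact T.var7 | exact T.var8 | assumption
      | exact D.const _ | apply D.and | apply D.or | apply D.not | apply D.iff | apply D.imp
      | apply D.ex | apply D.all | apply D.mem | apply D.eq | apply tUpair | apply tPair
      | apply tSUnion | apply dSub | apply tPow | apply tCup | apply tProd | apply tApp
      | apply tSc | apply dInd | apply dNle | apply tVal | apply tAddK | apply tHalfK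
      | apply dLeK | apply dLtK | apply dEqK | apply dExK | apply dAllK | apply tHK | apply tCC
      | apply dRv | apply dTopology | apply tpQ | apply tpR | apply tpP | apply dAdm
      | apply dInY | apply tYY | apply dOpenY | apply tSig | apply dGood | apply dInProd
      | apply dHSub | apply tIota | apply T.wk1 | apply T.wk2 | apply T.wk3 | apply T.wk4
      | apply T.wk5 | apply T.wk6 | apply T.wk7 | apply T.wk8)) hj
  have hT1 : ∀ j, E j J → IsTopology Z.E (app gX j) (app g1 j) := by
    intro j hj
    obtain ⟨v, hv, e1, e2⟩ := hb j hj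
    exact e1.isTopology hv.qbase
  have hT2 : ∀ j, E j J → IsTopology Z.E (app gX j) (app g2 j) := by
    intro j hj
    obtain ⟨v, hv, e1, e2⟩ := hb j hj
    exact e2.isTopology hv.qbase_conj
  obtain ⟨w, hw1, hw2, hw3⟩ := choice 𝓡 hC hJ gY gs (pS M)
    (fun j hj => by rw [eY j hj]; exact pS_mem _ _)
    (fun j hj => by
      obtain ⟨v, hv, e1, e2⟩ := hb j hj
      rw [eY j hj, es j hj]; exact Y_metrizable 𝓡 hv e1 e2)
  have hanti : ∀ j k l z u v, E j J → E k (om M) → nle l k → E l (om M) → E z (app gX j) →
      E u (app gX j) → E v (app gX j) → Mr J w j k z u v → Mr J w j l z u v := by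
    intro j k l z u v hj hk hlk hl hz hu hv h
    by_cases huv : u = v
    · exact Or.inl huv
    · rcases h with h | h
      · exact (huv h).elim
      · refine Or.inr (fun m hm hml => ?_)
        refine (hw1 j hj).anti k hk l hlk _ _ ?_ ?_ (h m hm (nle_trans hk hml hlk))
        · rw [eY j hj]; exact pQ_mem hz hm
        · rw [eY j hj]; exact pR_mem hu hv hm huv
  -- the key convergence statement
  have hconv : ∀ j x U H, E j J → E U (app g1 j) → E x U → Adm (app gX j) (app g1 j) x H →
      ∃ K, E K (om M) ∧ ∀ z u v, E z (app gX j) → E u (app gX j) → E v (app gX j) →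
        E (pair K u) H → Mr J w j K z u v → E v U := by
    intro j x U H hj hU hx hH
    obtain ⟨v', hv', e1, e2⟩ := hb j hj
    have hp : E (pP x U H) (YY (app gX j) (app g1 j)) := pP_mem hx hU hH
    obtain ⟨S0, hS0, hpS0, hS0'⟩ := ((VY_normal hv').qbase (dVY v' (app gX j))).exists_open
      (VY_gentop hv' e1 e2) hp zero_mem
    obtain ⟨k0, hk0, hk0'⟩ := hw3 j hj S0 (by rw [es j hj]; exact hS0) _ hpS0
    obtain ⟨S, hS, hpS, hS'⟩ := hw2 j hj (pP x U H) (by rw [eY j hj]; exact hp) (sc k0)
      (sc_mem hk0)
    rw [es j hj, mem_sig] at hS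
    obtain ⟨J0, hJ0, f1, _⟩ := hS.2.2 x U H hpS
    obtain ⟨m1, hm1, hm1'⟩ := hH.2.2 U hU hx
    obtain ⟨K1, hK1, h11, h12⟩ := exists_max hJ0 (sc_mem hk0)
    obtain ⟨K, hK, h21, h22⟩ := exists_max hK1 hm1
    refine ⟨K, hK, ?_⟩
    intro z u v hz hu hv hKu hM
    rcases hM with h | h
    · rw [← h]
      exact hm1' u (hH.2.1 K m1 u hm1 h22 hKu)
    · by_cases huv : u = v
      · rw [← huv]; exact hm1' u (hH.2.1 K m1 u hm1 h22 hKu)
      · have hQY : E (pQ z K) (app gY j) := by rw [eY j hj]; exact pQ_mem hz hK
        have hRY : E (pR u v K) (app gY j) := by rw [eY j hj]; exact pR_mem hu hv hK huv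
        have hPY : E (pP x U H) (app gY j) := by rw [eY j hj]; exact hp
        have a1 := hS' _ (f1 K z (nle_trans hK h11 h21) hK hz)
        have a2 := h K hK (nle_refl K)
        have a3 := (hw1 j hj).anti K hK (sc k0) (nle_trans hK h12 h21) _ _ hQY hRY a2
        have a4 := (hw1 j hj).comp k0 _ _ _ hk0 hPY hQY hRY a1 a3
        exact VY_pP (hS0' _ (hk0' _ hRY a4)) hKu
  refine ⟨Mr J w, dMr J w, ?_, hanti, ?_⟩
  · -- neighbourhoods
    intro j z k hj hz hk
    have key : ∀ l, E l (om M) → ∃ O G, E O (app g2 j) ∧ E G (app g1 j) ∧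
        E z O ∧ E z G ∧ ∀ u v, E u O → E v G → u ≠ v → ∀ m, E m l →
          rv w k (iota J (pS M) j (pQ z m)) (iota J (pS M) j (pR u v m)) := by
      refine om_ind _ ?_ ?_ ?_
      · (repeat' with_reducible first
        | exact T.const _ | exact T.var0 | exact T.var1 | exact T.var2 | exact T.var3
        | exact T.var4 | exact T.var5 | exact T.var6 | exact T.var7 | exact T.var8 | assumption
        | exact D.const _ | apply D.and | apply D.or | apply D.not | apply D.iff | apply D.imp
        | apply D.ex | apply D.all | apply D.mem | apply D.eq | apply tUpair | apply tPair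
        | apply tSUnion | apply dSub | apply tPow | apply tCup | apply tProd | apply tApp
        | apply tSc | apply dInd | apply dNle | apply tVal | apply tAddK | apply tHalfK
        | apply dLeK | apply dLtK | apply dEqK | apply dExK | apply dAllK | apply tHK
        | apply tCC | apply dRv | apply dTopology | apply tpQ | apply tpR | apply tpP
        | apply dAdm | apply dInY | apply tYY | apply dOpenY | apply tSig | apply dGood
        | apply dInProd | apply dHSub | apply tIota | apply T.wk1 | apply T.wk2 | apply T.wk3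
        | apply T.wk4 | apply T.wk5 | apply T.wk6 | apply T.wk7 | apply T.wk8)
      · exact ⟨app gX j, app gX j, (hT2 j hj).2.1, (hT1 j hj).2.1, hz, hz,
          fun u v _ _ _ m hm => (mem_emp hm).elim⟩
      · rintro l hl ⟨O, G, hO, hG, hzO, hzG, h⟩
        obtain ⟨S, hS, hqS, hS'⟩ := hw2 j hj (pQ z l) (by rw [eY j hj]; exact pQ_mem hz hl) k hk
        rw [es j hj, mem_sig] at hS
        obtain ⟨O', G', hO', hG', hzO', hzG', h'⟩ := hS.2.1 z l hqS
        obtain ⟨O2, hO2, e2⟩ := (hT2 j hj).2.2.2 O O' hO hO'
        obtain ⟨G2, hG2, e1⟩ := (hT1 j hj).2.2.2 G G' hG hG'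
        refine ⟨O2, G2, hO2, hG2, (e2 z).2 ⟨hzO, hzO'⟩, (e1 z).2 ⟨hzG, hzG'⟩, ?_⟩
        intro u v hu hv huv m hm
        have hu' := (e2 u).1 hu
        have hv' := (e1 v).1 hv
        rcases mem_sc.1 hm with hm | rfl
        · exact h u v hu'.1 hv'.1 huv m hm
        · exact hS' _ (h' u v hu'.2 hv'.2 huv)
    obtain ⟨O, G, hO, hG, hzO, hzG, h⟩ := key (sc k) (sc_mem hk)
    refine ⟨O, G, hO, hG, hzO, hzG, fun u v hu hv => ?_⟩
    by_cases huv : u = v
    · exact Or.inl huv
    · exact Or.inr (fun m hm hmk => h u v hu hv huv m (lt_sc.2 hmk))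
  · -- convergence
    intro j x U hj hU hx
    have hxX : E x (app gX j) := (hT1 j hj).1 U hU x hx
    have hset0 : IsSet (fun p => ∃ m, E m (om M) ∧ p = pair m x) := by
      refine isSet_sub (prod (om M) (upair x x)) ?_ ?_
      · (repeat' with_reducible first
        | exact T.const _ | exact T.var0 | exact T.var1 | exact T.var2 | exact T.var3
        | exact T.var4 | exact T.var5 | exact T.var6 | exact T.var7 | exact T.var8 | assumption
        | exact D.const _ | apply D.and | apply D.or | apply D.not | apply D.iff | apply D.imp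
        | apply D.ex | apply D.all | apply D.mem | apply D.eq | apply tUpair | apply tPair
        | apply tSUnion | apply dSub | apply tPow | apply tCup | apply tProd | apply tApp
        | apply tSc | apply dInd | apply dNle | apply tVal | apply tAddK | apply tHalfK
        | apply dLeK | apply dLtK | apply dEqK | apply dExK | apply dAllK | apply tHK
        | apply tCC | apply dRv | apply dTopology | apply tpQ | apply tpR | apply tpP
        | apply dAdm | apply dInY | apply tYY | apply dOpenY | apply tSig | apply dGood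
        | apply dInProd | apply dHSub | apply tIota | apply T.wk1 | apply T.wk2 | apply T.wk3
        | apply T.wk4 | apply T.wk5 | apply T.wk6 | apply T.wk7 | apply T.wk8)
      · rintro p ⟨m, hm, rfl⟩
        exact pair_mem_prod.2 ⟨hm, mem_upair.2 (Or.inl rfl)⟩
    obtain ⟨H0, hH0⟩ := hset0
    have hAdm0 : Adm (app gX j) (app g1 j) x H0 := by
      refine ⟨?_, ?_, ?_⟩
      · intro p hp
        obtain ⟨m, hm, rfl⟩ := (hH0 p).1 hp
        exact pair_mem_prod.2 ⟨hm, hxX⟩
      · intro m l u hl _ h
        obtain ⟨m', hm', e⟩ := (hH0 _).1 h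
        exact (hH0 _).2 ⟨l, hl, by rw [(pair_inj.1 e).2]⟩
      · intro G hG hxG
        refine ⟨emp M, zero_mem, fun u hu => ?_⟩
        obtain ⟨m', hm', e⟩ := (hH0 _).1 hu
        rw [(pair_inj.1 e).2]; exact hxG
    have hD := dMr J w
    have hset1 : IsSet (fun p => ∃ m u, (E m (om M) ∧ E u (app gX j) ∧ p = pair m u) ∧
        Mr J w j m x x u) := by
      refine isSet_sub (prod (om M) (app gX j)) ?_ ?_
      · refine D.ex (D.ex (D.and ?_ (hD _ _ _ _ _ _ ?_ ?_ ?_ ?_ ?_)))
        all_goals (repeat' with_reducible first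
          | exact T.const _ | exact T.var0 | exact T.var1 | exact T.var2 | exact T.var3
          | exact T.var4 | exact T.var5 | exact T.var6 | exact T.var7 | exact T.var8
          | assumption | exact D.const _ | apply D.and | apply D.or | apply D.not | apply D.iff
          | apply D.imp | apply D.ex | apply D.all | apply D.mem | apply D.eq | apply tUpair
          | apply tPair | apply tSUnion | apply dSub | apply tPow | apply tCup | apply tProd
          | apply tApp | apply tSc | apply dInd | apply dNle | apply tVal | apply tAddK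
          | apply tHalfK | apply dLeK | apply dLtK | apply dEqK | apply dExK | apply dAllK
          | apply tHK | apply tCC | apply dRv | apply dTopology | apply tpQ | apply tpR
          | apply tpP | apply dAdm | apply dInY | apply tYY | apply dOpenY | apply tSig
          | apply dGood | apply dInProd | apply dHSub | apply tIota | apply T.wk1 | apply T.wk2
          | apply T.wk3 | apply T.wk4 | apply T.wk5 | apply T.wk6 | apply T.wk7 | apply T.wk8)
      · rintro p ⟨m, u, ⟨hm, hu, rfl⟩, _⟩
        exact pair_mem_prod.2 ⟨hm, hu⟩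
    obtain ⟨H1, hH1⟩ := hset1
    have hAdm1 : Adm (app gX j) (app g1 j) x H1 := by
      refine ⟨?_, ?_, ?_⟩
      · intro p hp
        obtain ⟨m, u, ⟨hm, hu, rfl⟩, _⟩ := (hH1 p).1 hp
        exact pair_mem_prod.2 ⟨hm, hu⟩
      · intro m l u hl hlm h
        obtain ⟨m', u', ⟨hm', hu', e⟩, hM⟩ := (hH1 _).1 h
        obtain ⟨rfl, rfl⟩ := pair_inj.1 e
        exact (hH1 _).2 ⟨l, u, ⟨hl, hu', rfl⟩, hanti j m l x x u hj hm' hlm hl hxX hxX hu' hM⟩
      · intro G hG hxG
        obtain ⟨K, hK, hK'⟩ := hconv j x G H0 hj hG hxG hAdm0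
        refine ⟨K, hK, fun u hu => ?_⟩
        obtain ⟨m', u', ⟨hm', hu', e⟩, hM⟩ := (hH1 _).1 hu
        obtain ⟨rfl, rfl⟩ := pair_inj.1 e
        exact hK' x x u hxX hxX hu' ((hH0 _).2 ⟨K, hK, rfl⟩) hM
    obtain ⟨K, hK, hK'⟩ := hconv j x U H1 hj hU hx hAdm1
    refine ⟨K, hK, fun z u v hz hu hv h1 h2 => ?_⟩
    exact hK' z u v hz hu hv ((hH1 _).2 ⟨K, u, ⟨hK, hu, rfl⟩, h1⟩) h2

end Pool.Agent.ZFQ
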