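import Pool.Agent.ZFQ.Unif

/-! Countable products of quasi-metrizable bitopological spaces. -/

set_option linter.unusedSectionVars false
set_option linter.unusedVariables false
set_option linter.unusedTactic false
set_option linter.unreachableTactic false

namespace Pool.Agent.ZFQ

universe u

variable {M : Type u} [Z : ZFModel M]

open ZFModel

section

variable (J ge : M) (V : M → M → M → M → Prop)

/-- the product relations -/
def WW (k f g : M) : Prop := ∀ j, E j J → nle (app ge j) k → V j k (app f j) (app g j)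

variable {V}

theorem dWW (hD4 : Def4 V) : Def3 (WW J ge V) := by
  intro Γ _ f g h hf hg hh
  unfold WW
  (repeat' with_reducible first
    | exact T.const _ | exact T.var0 | exact T.var1 | exact T.var2 | exact T.var3
    | exact T.var4 | exact T.var5 | exact T.var6 | exact T.var7 | exact T.var8 | assumption
    | exact D.const _ | apply D.and | apply D.or | apply D.not | apply D.iff | apply D.imp
    | apply D.ex | apply D.all | apply D.mem | apply D.eq | apply tUpair | apply tPair
    | apply tSUnion | apply dSub | apply tPow | apply tCup | apply tProd | apply tApp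
    | apply tSc | apply dInd | apply dNle | apply tVal | apply tAddK | apply tHalfK
    | apply dLeK | apply dLtK | apply dEqK | apply dExK | apply dAllK | apply tHK | apply tCC
    | apply dRv | apply dTopology | apply tpQ | apply tpR | apply tpP | apply dAdm | apply dInY
    | apply tYY | apply dOpenY | apply tSig | apply dGood | apply dInProd | apply dHSub
    | apply tIota | apply hA | apply hB | apply hMM | apply hD4 | apply tTr | apply T.wk1
    | apply T.wk2 | apply T.wk3 | apply T.wk4 | apply T.wk5 | apply T.wk6 | apply T.wk7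
    | apply T.wk8)

variable {J ge}

theorem WW_qbase (hD4 : Def4 V) {gX P : M} (hP : ∀ f, E f P ↔ InProd J gX f)
    (hQ : ∀ j, E j J → QBase (app gX j) (fun k x y => V j k x y)) :
    QBase P (WW J ge V) where
  dfn := dWW J ge hD4
  refl := by
    intro k f hk hf j hj _
    exact (hQ j hj).refl k _ hk (((hP f).1 hf).app_spec hj).2.1
  comp := by
    intro k f g h hk hf hg hh h1 h2 j hj hjk
    have hjk' : nle (app ge j) (sc k) := nle_trans (sc_mem hk) hjk (nle_sc k)
    exact (hQ j hj).comp k _ _ _ hk (((hP f).1 hf).app_spec hj).2.1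
      (((hP g).1 hg).app_spec hj).2.1 (((hP h).1 hh).app_spec hj).2.1
      (h1 j hj hjk') (h2 j hj hjk')

theorem WW_gentop (hD4 : Def4 V) {gX g1 P T₁ : M} (hP : ∀ f, E f P ↔ InProd J gX f)
    (hQ : ∀ j, E j J → QBase (app gX j) (fun k x y => V j k x y))
    (hge : ∀ j, E j J → E (app ge j) (om M))
    (hinj : ∀ i j, E i J → E j J → app ge i = app ge j → i = j)
    (conv : ∀ j x U, E j J → E U (app g1 j) → E x U → ∃ k, E k (om M) ∧
      ∀ y, E y (app gX j) → V j k x y → E y U)
    (nb : ∀ j k x, E j J → E k (om M) → E x (app gX j) → ∃ G, E G (app g1 j) ∧ E x G ∧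
      ∀ y, E y G → V j k x y)
    (hT1 : ∀ j, E j J → IsTopology Z.E (app gX j) (app g1 j))
    (hT : IsTopology Z.E P T₁) (hTs : HSub J g1 P T₁)
    (hTmin : ∀ T', IsTopology Z.E P T' → HSub J g1 P T' → ∀ G, E G T₁ → E G T') :
    GenTop P (WW J ge V) T₁ := by
  have hW := WW_qbase (ge := ge) hD4 hP hQ
  have hDW := dWW J ge hD4
  -- the topology generated by `WW`
  have hset : IsSet (fun G => E G (pow P) ∧ ∀ f, E f G → ∃ k, E k (om M) ∧
      ∀ g, E g P → WW J ge V k f g → E g G) := by
    refine isSet_sub (pow P) ?_ (fun x hx => hx.1)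
    refine D.and ?_ (D.all (D.imp ?_ (D.ex (D.and ?_ (D.all (D.imp ?_ (D.imp
      (hDW _ _ _ _ ?_ ?_ ?_) ?_)))))))
    all_goals (repeat' with_reducible first
      | exact T.const _ | exact T.var0 | exact T.var1 | exact T.var2 | exact T.var3
      | exact T.var4 | exact T.var5 | exact T.var6 | exact T.var7 | exact T.var8 | assumption
      | exact D.const _ | apply D.and | apply D.or | apply D.not | apply D.iff | apply D.imp
      | apply D.ex | apply D.all | apply D.mem | apply D.eq | apply tUpair | apply tPair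
      | apply tSUnion | apply dSub | apply tPow | apply tCup | apply tProd | apply tApp
      | apply tSc | apply dInd | apply dNle | apply tVal | apply tAddK | apply tHalfK
      | apply dLeK | apply dLtK | apply dEqK | apply dExK | apply dAllK | apply tHK | apply tCC
      | apply dRv | apply dTopology | apply tpQ | apply tpR | apply tpP | apply dAdm
      | apply dInY | apply tYY | apply dOpenY | apply tSig | apply dGood | apply dInProd
      | apply dHSub | apply tIota | apply hA | apply hB | apply hMM | apply hD4 | apply tTr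
      | apply T.wk1 | apply T.wk2 | apply T.wk3 | apply T.wk4 | apply T.wk5 | apply T.wk6
      | apply T.wk7 | apply T.wk8)
  obtain ⟨T', hT'⟩ : ∃ T', ∀ G, E G T' ↔ (E G (pow P) ∧ ∀ f, E f G → ∃ k, E k (om M) ∧
      ∀ g, E g P → WW J ge V k f g → E g G) := hset
  have hgen : GenTop P (WW J ge V) T' := by
    intro G
    rw [hT', mem_pow]
  have htop := hgen.isTopology hW
  have hsub : HSub J g1 P T' := by
    intro j U hj hU
    have hset' : IsSet (fun f => E f P ∧ E (app f j) U) := by
      refine isSet_sub P ?_ (fun x hx => hx.1)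
      (repeat' with_reducible first
        | exact T.const _ | exact T.var0 | exact T.var1 | exact T.var2 | exact T.var3
        | exact T.var4 | exact T.var5 | exact T.var6 | exact T.var7 | exact T.var8 | assumption
        | exact D.const _ | apply D.and | apply D.or | apply D.not | apply D.iff | apply D.imp
        | apply D.ex | apply D.all | apply D.mem | apply D.eq | apply tUpair | apply tPair
        | apply tSUnion | apply dSub | apply tPow | apply tCup | apply tProd | apply tApp
        | apply tSc | apply dInd | apply dNle | apply tVal | apply tAddK | apply tHalfK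
        | apply dLeK | apply dLtK | apply dEqK | apply dExK | apply dAllK | apply tHK
        | apply tCC | apply dRv | apply dTopology | apply tpQ | apply tpR | apply tpP
        | apply dAdm | apply dInY | apply tYY | apply dOpenY | apply tSig | apply dGood
        | apply dInProd | apply dHSub | apply tIota | apply hA | apply hB | apply hMM
        | apply hD4 | apply tTr | apply T.wk1 | apply T.wk2 | apply T.wk3 | apply T.wk4
        | apply T.wk5 | apply T.wk6 | apply T.wk7 | apply T.wk8)
    obtain ⟨G, hG⟩ : ∃ G, ∀ f, E f G ↔ (E f P ∧ E (app f j) U) := hset'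
    refine ⟨G, ?_, hG⟩
    rw [hT']
    refine ⟨mem_pow.2 (fun f hf => ((hG f).1 hf).1), fun f hf => ?_⟩
    obtain ⟨hfP, hfU⟩ := (hG f).1 hf
    obtain ⟨k1, hk1, h1⟩ := conv j _ U hj hU hfU
    obtain ⟨k, hk, hk2, hk3⟩ := exists_max hk1 (hge j hj)
    refine ⟨k, hk, fun g hg hWg => (hG g).2 ⟨hg, ?_⟩⟩
    have hfX := (((hP f).1 hfP).app_spec hj).2.1
    have hgX := (((hP g).1 hg).app_spec hj).2.1
    exact h1 _ hgX ((hQ j hj).anti k hk k1 hk2 _ _ hfX hgX (hWg j hj hk3))
  have hopen : ∀ G, E G T' → E G T₁ := by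
    intro G hG
    obtain ⟨hGP, hG'⟩ := (hgen G).1 hG
    apply open_of_local hT
    intro f hf
    have hfP := hGP f hf
    obtain ⟨k, hk, hk'⟩ := hG' f hf
    have key : ∀ l, E l (om M) → ∃ U, E U T₁ ∧ E f U ∧ ∀ g, E g U → ∀ j, E j J →
        E (app ge j) l → V j k (app f j) (app g j) := by
      refine om_ind _ ?_ ?_ ?_
      · (repeat' with_reducible first
        | exact T.const _ | exact T.var0 | exact T.var1 | exact T.var2 | exact T.var3
        | exact T.var4 | exact T.var5 | exact T.var6 | exact T.var7 | exact T.var8 | assumption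
        | exact D.const _ | apply D.and | apply D.or | apply D.not | apply D.iff | apply D.imp
        | apply D.ex | apply D.all | apply D.mem | apply D.eq | apply tUpair | apply tPair
        | apply tSUnion | apply dSub | apply tPow | apply tCup | apply tProd | apply tApp
        | apply tSc | apply dInd | apply dNle | apply tVal | apply tAddK | apply tHalfK
        | apply dLeK | apply dLtK | apply dEqK | apply dExK | apply dAllK | apply tHK
        | apply tCC | apply dRv | apply dTopology | apply tpQ | apply tpR | apply tpP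
        | apply dAdm | apply dInY | apply tYY | apply dOpenY | apply tSig | apply dGood
        | apply dInProd | apply dHSub | apply tIota | apply hA | apply hB | apply hMM
        | apply hD4 | apply tTr | apply T.wk1 | apply T.wk2 | apply T.wk3 | apply T.wk4
        | apply T.wk5 | apply T.wk6 | apply T.wk7 | apply T.wk8)
      · exact ⟨P, hT.2.1, hfP, fun g _ j _ hj => (mem_emp hj).elim⟩
      · rintro l hl ⟨U, hU, hfU, h⟩
        by_cases hex : ∃ j, E j J ∧ app ge j = l
        · obtain ⟨j, hj, rfl⟩ := hex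
          obtain ⟨U', hU', hfU', h'⟩ := nb j k _ hj hk (((hP f).1 hfP).app_spec hj).2.1
          obtain ⟨G', hG', e'⟩ := hTs j U' hj hU'
          obtain ⟨I, hI, eI⟩ := hT.2.2.2 U G' hU hG'
          refine ⟨I, hI, (eI f).2 ⟨hfU, (e' f).2 ⟨hfP, hfU'⟩⟩, fun g hg i hi hil => ?_⟩
          obtain ⟨hgU, hgG'⟩ := (eI g).1 hg
          rcases mem_sc.1 hil with hil | hil
          · exact h g hgU i hi hil
          · obtain rfl := hinj i j hi hj hil
            exact h' _ ((e' g).1 hgG').2
        · refine ⟨U, hU, hfU, fun g hg i hi hil => ?_⟩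
          rcases mem_sc.1 hil with hil | hil
          · exact h g hg i hi hil
          · exact (hex ⟨i, hi, hil⟩).elim
    obtain ⟨U, hU, hfU, h⟩ := key (sc k) (sc_mem hk)
    refine ⟨U, hU, hfU, fun g hg => ?_⟩
    exact hk' g (hT.1 U hU g hg) (fun j hj hjk => h g hg j hj (lt_sc.2 hjk))
  intro G
  rw [← hgen G]
  exact ⟨hTmin T' htop hsub G, hopen G⟩

end

theorem main (𝓡 : RealLine Z.E) (hC : CPQM 𝓡) : CPQMBi 𝓡 := by
  intro J hJ X τ₁ τ₂ hX hτ₁ hτ₂ hq P T₁ T₂ hP hT₁ hT₂
  obtain ⟨gX, eX⟩ := family_app hX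
  obtain ⟨g1, e1⟩ := family_app hτ₁
  obtain ⟨g2, e2⟩ := family_app hτ₂
  have hb : ∀ j, E j J → BiData (app gX j) (app g1 j) (app g2 j) := by
    intro j hj
    have := bqm_data 𝓡 (hq ⟨j, hj⟩)
    rwa [eX, e1, e2] at this
  obtain ⟨A, oA⟩ := one_side 𝓡 hC hJ gX g1 g2 hb
  obtain ⟨B, oB⟩ := one_side 𝓡 hC hJ gX g2 g1 (fun j hj => (hb j hj).conj)
  have hT1 : ∀ j, E j J → IsTopology Z.E (app gX j) (app g1 j) := by
    intro j hj
    obtain ⟨v, hv, e1, e2⟩ := hb j hj
    exact e1.isTopology hv.qbase
  have hT2 : ∀ j, E j J → IsTopology Z.E (app gX j) (app g2 j) := by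
    intro j hj
    obtain ⟨v, hv, e1, e2⟩ := hb j hj
    exact e2.isTopology hv.qbase_conj
  obtain ⟨V, hV⟩ := exists_unif oA oB hT1 hT2
  -- the countability of the index set
  obtain ⟨w, hw, e, he, hef⟩ := hJ
  have hwom := isOmega_iff hw
  subst hwom
  obtain ⟨ge, hge⟩ := family_app hef
  have hge1 : ∀ j, E j J → E (app ge j) (om M) := by
    intro j hj
    have := hge ⟨j, hj⟩
    simp only at this
    rw [← this]; exact (e ⟨j, hj⟩).2
  have hinj : ∀ i j, E i J → E j J → app ge i = app ge j → i = j := by
    intro i j hi hj h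
    have h1 := hge ⟨i, hi⟩
    have h2 := hge ⟨j, hj⟩
    simp only at h1 h2
    rw [← h1, ← h2] at h
    exact congrArg Subtype.val (he (Subtype.ext h))
  have hPm : ∀ f, E f P ↔ InProd J gX f := (isProduct_iff eX).1 hP
  have hPm' : ∀ f, E f P → InProd J gX f := fun f hf => (hPm f).1 hf
  have hQ : ∀ j, E j J → QBase (app gX j) (fun k x y => V j k x y) := by
    intro j hj
    refine ⟨?_, fun k x hk hx => hV.refl j k x hj hk hx, ?_⟩
    · intro Γ _ f g h hf hg hh
      exact hV.dfn _ _ _ _ _ (T.const j) hf hg hh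
    · intro k x y z hk hx hy hz h1 h2
      exact hV.comp j k x y z z hj hk hx hy hz hz h1 h2 (hV.refl j _ z hj (sc_mem hk) hz)
  have hQ' : ∀ j, E j J → QBase (app gX j) (fun k x y => V j k y x) := by
    intro j hj
    refine ⟨?_, fun k x hk hx => hV.refl j k x hj hk hx, ?_⟩
    · intro Γ _ f g h hf hg hh
      exact hV.dfn _ _ _ _ _ (T.const j) hf hh hg
    · intro k x y z hk hx hy hz h1 h2
      exact hV.comp j k z y x x hj hk hz hy hx hx h2 h1 (hV.refl j _ x hj (sc_mem hk) hx)
  have hD4 : Def4 V := hV.dfn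
  have hD4' : Def4 (fun j k x y => V j k y x) := by
    intro Γ _ f g h k hf hg hh hk
    exact hV.dfn _ _ _ _ _ hf hg hk hh
  have gen1 : GenTop P (WW J ge V) T₁ := by
    refine WW_gentop hD4 hPm hQ hge1 hinj hV.conv1 hV.nb1 hT1 hT₁.1
      ((hasSub_iff e1 hPm').1 hT₁.2.1) ?_
    intro T' h1 h2
    exact hT₁.2.2 T' h1 ((hasSub_iff e1 hPm').2 h2)
  have gen2 : GenTop P (WW J ge (fun j k x y => V j k y x)) T₂ := by
    refine WW_gentop hD4' hPm hQ' hge1 hinj hV.conv2 hV.nb2 hT2 hT₂.1
      ((hasSub_iff e2 hPm').1 hT₂.2.1) ?_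
    intro T' h1 h2
    exact hT₂.2.2 T' h1 ((hasSub_iff e2 hPm').2 h2)
  have hN : Normal3 P (WW J ge V) := by
    refine ⟨?_, ?_, ?_⟩
    · intro k f hk hf j hj _
      exact hV.refl j k _ hj hk ((hPm' f hf).app_spec hj).2.1
    · intro k f g h l hk hf hg hh hl h1 h2 h3 j hj hjk
      have hjk' : nle (app ge j) (sc k) := nle_trans (sc_mem hk) hjk (nle_sc k)
      exact hV.comp j k _ _ _ _ hj hk ((hPm' f hf).app_spec hj).2.1
        ((hPm' g hg).app_spec hj).2.1 ((hPm' h hh).app_spec hj).2.1
        ((hPm' l hl).app_spec hj).2.1 (h1 j hj hjk') (h2 j hj hjk') (h3 j hj hjk')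
    · intro f g hf hg h
      refine (hPm' f hf).ext (hPm' g hg) (fun j hj => ?_)
      have hfX := ((hPm' f hf).app_spec hj).2.1
      have hgX := ((hPm' g hg).app_spec hj).2.1
      by_contra hne
      obtain ⟨v, hv, ev1, ev2⟩ := hb j hj
      have hex : ∃ k, E k (om M) ∧ ¬ rv v k (app f j) (app g j) := by
        by_contra hcon
        push Not at hcon
        exact hne (hv.sep _ _ hfX hgX hcon)
      obtain ⟨k, hk, hk'⟩ := hex
      obtain ⟨G, hG, hfG, hG'⟩ := hv.qbase.exists_open ev1 hfX hk
      obtain ⟨k1, hk1, h1⟩ := hV.conv1 j _ G hj hG hfG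
      obtain ⟨l, hl, hl1, hl2⟩ := exists_max hk1 (hge1 j hj)
      exact hk' (hG' _ (h1 _ hgX ((hQ j hj).anti l hl k1 hl1 _ _ hfX hgX (h l hl j hj hl2))))
  exact frink_bi 𝓡 (dWW J ge hD4) hN gen1 gen2

end Pool.Agent.ZFQ
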