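import Pool.Agent.ZFQ.Real

/-! Frink's lemma inside a model of ZF: quasi-metrics from normal sequences. -/

set_option linter.unusedSectionVars false
set_option linter.unusedVariables false
set_option linter.unusedTactic false
set_option linter.unreachableTactic false

namespace Pool.Agent.ZFQ

universe u

variable {M : Type u} [Z : ZFModel M]

open ZFModel

abbrev Def3 (P : M → M → M → Prop) : Prop :=
  ∀ (Γ : Type u) [Ctx M Γ] (f g h : Γ → M), T f → T g → T h →
    D (M := M) (fun γ => P (f γ) (g γ) (h γ))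

/-- `V` is a normal sequence of relations on `X` (with triple compositions) -/
structure Normal3 (X : M) (V : M → M → M → Prop) : Prop where
  refl : ∀ k x, E k (om M) → E x X → V k x x
  comp : ∀ k x y z w, E k (om M) → E x X → E y X → E z X → E w X →
    V (sc k) x y → V (sc k) y z → V (sc k) z w → V k x w
  sep : ∀ x y, E x X → E y X → (∀ k, E k (om M) → V k x y) → x = y

theorem Normal3.step {X : M} {V : M → M → M → Prop} (h : Normal3 X V) {k x y : M}
    (hk : E k (om M)) (hx : E x X) (hy : E y X) (hV : V (sc k) x y) : V k x y :=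
  h.comp k x y y y hk hx hy hy hy hV (h.refl _ _ (sc_mem hk) hy) (h.refl _ _ (sc_mem hk) hy)

theorem Normal3.anti {X : M} {V : M → M → M → Prop} (h : Normal3 X V) (hD : Def3 V) :
    ∀ l, E l (om M) → ∀ k, nle k l → ∀ x y, E x X → E y X → V l x y → V k x y := by
  refine om_ind _ ?_ ?_ ?_
  · apply D.all
    apply D.imp
    · (repeat' with_reducible first
      | exact T.const _ | exact T.var0 | exact T.var1 | exact T.var2 | exact T.var3
      | exact T.var4 | exact T.var5 | exact T.var6 | exact T.var7 | exact T.var8 | assumption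
      | exact D.const _ | apply D.and | apply D.or | apply D.not | apply D.iff | apply D.imp
      | apply D.ex | apply D.all | apply D.mem | apply D.eq | apply tUpair | apply tPair
      | apply tSUnion | apply dSub | apply tPow | apply tCup | apply tProd | apply tApp
      | apply tSc | apply dInd | apply dNle | apply tVal | apply tAddK | apply tHalfK
      | apply dLeK | apply dLtK | apply dEqK | apply dExK | apply dAllK | apply tHK
      | apply T.wk1 | apply T.wk2 | apply T.wk3 | apply T.wk4 | apply T.wk5 | apply T.wk6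
      | apply T.wk7 | apply T.wk8)
    · apply D.all
      apply D.all
      refine D.imp ?_ (D.imp ?_ (D.imp (hD _ _ _ _ ?_ ?_ ?_) (hD _ _ _ _ ?_ ?_ ?_)))
      all_goals (repeat' with_reducible first
        | exact T.const _ | exact T.var0 | exact T.var1 | exact T.var2 | exact T.var3
        | exact T.var4 | exact T.var5 | exact T.var6 | exact T.var7 | exact T.var8 | assumption
        | exact D.const _ | apply D.and | apply D.or | apply D.not | apply D.iff | apply D.imp
        | apply D.ex | apply D.all | apply D.mem | apply D.eq | apply tUpair | apply tPair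
        | apply tSUnion | apply dSub | apply tPow | apply tCup | apply tProd | apply tApp
        | apply tSc | apply dInd | apply dNle | apply tVal | apply tAddK | apply tHalfK
        | apply dLeK | apply dLtK | apply dEqK | apply dExK | apply dAllK | apply tHK
        | apply T.wk1 | apply T.wk2 | apply T.wk3 | apply T.wk4 | apply T.wk5 | apply T.wk6
        | apply T.wk7 | apply T.wk8)
  · intro k hk x y hx hy hV
    rcases hk with hk | rfl
    · exact (mem_emp hk).elim
    · exact hV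
  · intro l hl ih k hk x y hx hy hV
    rcases hk with hk | rfl
    · exact ih k (lt_sc.1 hk) x y hx hy (h.step hl hx hy hV)
    · exact hV

variable (𝓡 : RealLine Z.E)

/-- coded chains: `(n, ((x, y), s))` -/
noncomputable def cc (n x y : M) (s : El Z.E 𝓡.R) : M := pair n (pair (pair x y) s.1)

theorem tCC {Γ : Type u} [c : Ctx M Γ] {n x y : Γ → M} {s : Γ → El Z.E 𝓡.R} (hn : T n)
    (hx : T x) (hy : T y) (hs : T (fun γ => (s γ).1)) :
    T (fun γ => cc 𝓡 (n γ) (x γ) (y γ) (s γ)) := by
  unfold cc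
  (repeat' with_reducible first
    | exact T.const _ | exact T.var0 | exact T.var1 | exact T.var2 | exact T.var3
    | exact T.var4 | exact T.var5 | exact T.var6 | exact T.var7 | exact T.var8 | assumption
    | exact D.const _ | apply D.and | apply D.or | apply D.not | apply D.iff | apply D.imp
    | apply D.ex | apply D.all | apply D.mem | apply D.eq | apply tUpair | apply tPair
    | apply tSUnion | apply dSub | apply tPow | apply tCup | apply tProd | apply tApp
    | apply tSc | apply dInd | apply dNle | apply tVal | apply tAddK | apply tHalfK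
    | apply dLeK | apply dLtK | apply dEqK | apply dExK | apply dAllK | apply tHK | apply T.wk1
    | apply T.wk2 | apply T.wk3 | apply T.wk4 | apply T.wk5 | apply T.wk6 | apply T.wk7
    | apply T.wk8)

theorem cc_inj {n x y n' x' y' : M} {s s' : El Z.E 𝓡.R} (h : cc 𝓡 n x y s = cc 𝓡 n' x' y' s') :
    n = n' ∧ x = x' ∧ y = y' ∧ s = s' := by
  unfold cc at h
  obtain ⟨h1, h2⟩ := pair_inj.1 h
  obtain ⟨h3, h4⟩ := pair_inj.1 h2
  obtain ⟨h5, h6⟩ := pair_inj.1 h3
  exact ⟨h1, h5, h6, Subtype.ext h4⟩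

section chains

variable (X : M) (V : M → M → M → Prop)

/-- one step of a chain, of cost `2⁻ᵏ` -/
def stp (k x y : M) : Prop := k = emp M ∨ V k x y

def CClosed (S : M) : Prop :=
  (∀ x, E x X → E (cc 𝓡 (emp M) x x 0) S) ∧
  ∀ n x z y (s : El Z.E 𝓡.R) k, E n (om M) → E k (om M) → E x X → E z X → E y X →
    E (cc 𝓡 n x z s) S → stp V k z y → E (cc 𝓡 (sc n) x y (s + hK 𝓡 k)) S

variable {V}

theorem dStp (hV : Def3 V) : Def3 (stp V) := by
  intro Γ _ f g h hf hg hh
  unfold stp
  refine D.or ?_ (hV _ _ _ _ hf hg hh)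
  (repeat' with_reducible first
    | exact T.const _ | exact T.var0 | exact T.var1 | exact T.var2 | exact T.var3
    | exact T.var4 | exact T.var5 | exact T.var6 | exact T.var7 | exact T.var8 | assumption
    | exact D.const _ | apply D.and | apply D.or | apply D.not | apply D.iff | apply D.imp
    | apply D.ex | apply D.all | apply D.mem | apply D.eq | apply tUpair | apply tPair
    | apply tSUnion | apply dSub | apply tPow | apply tCup | apply tProd | apply tApp
    | apply tSc | apply dInd | apply dNle | apply tVal | apply tAddK | apply tHalfK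
    | apply dLeK | apply dLtK | apply dEqK | apply dExK | apply dAllK | apply tHK | apply tCC
    | apply T.wk1 | apply T.wk2 | apply T.wk3 | apply T.wk4 | apply T.wk5 | apply T.wk6
    | apply T.wk7 | apply T.wk8)

variable {X}

theorem dCClosed (hV : Def3 V) : Def1 (CClosed 𝓡 X V) := by
  intro Γ _ f hf
  unfold CClosed
  have hS := dStp hV
  apply D.and
  · (repeat' with_reducible first
    | exact T.const _ | exact T.var0 | exact T.var1 | exact T.var2 | exact T.var3
    | exact T.var4 | exact T.var5 | exact T.var6 | exact T.var7 | exact T.var8 | assumption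
    | exact D.const _ | apply D.and | apply D.or | apply D.not | apply D.iff | apply D.imp
    | apply D.ex | apply D.all | apply D.mem | apply D.eq | apply tUpair | apply tPair
    | apply tSUnion | apply dSub | apply tPow | apply tCup | apply tProd | apply tApp
    | apply tSc | apply dInd | apply dNle | apply tVal | apply tAddK | apply tHalfK
    | apply dLeK | apply dLtK | apply dEqK | apply dExK | apply dAllK | apply tHK | apply tCC
    | apply T.wk1 | apply T.wk2 | apply T.wk3 | apply T.wk4 | apply T.wk5 | apply T.wk6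
    | apply T.wk7 | apply T.wk8)
  · apply D.all
    apply D.all
    apply D.all
    apply D.all
    apply dAllK 𝓡
    apply D.all
    refine D.imp ?_ (D.imp ?_ (D.imp ?_ (D.imp ?_ (D.imp ?_ (D.imp ?_ (D.imp
      (hS _ _ _ _ ?_ ?_ ?_) ?_))))))
    all_goals (repeat' with_reducible first
      | exact T.const _ | exact T.var0 | exact T.var1 | exact T.var2 | exact T.var3
      | exact T.var4 | exact T.var5 | exact T.var6 | exact T.var7 | exact T.var8 | assumption
      | exact D.const _ | apply D.and | apply D.or | apply D.not | apply D.iff | apply D.imp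
      | apply D.ex | apply D.all | apply D.mem | apply D.eq | apply tUpair | apply tPair
      | apply tSUnion | apply dSub | apply tPow | apply tCup | apply tProd | apply tApp
      | apply tSc | apply dInd | apply dNle | apply tVal | apply tAddK | apply tHalfK
      | apply dLeK | apply dLtK | apply dEqK | apply dExK | apply dAllK | apply tHK | apply tCC
      | apply T.wk1 | apply T.wk2 | apply T.wk3 | apply T.wk4 | apply T.wk5 | apply T.wk6
      | apply T.wk7 | apply T.wk8)

theorem full_closed : CClosed 𝓡 X V (prod (om M) (prod (prod X X) 𝓡.R)) := by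
  constructor
  · intro x hx
    exact pair_mem_prod.2 ⟨zero_mem, pair_mem_prod.2 ⟨pair_mem_prod.2 ⟨hx, hx⟩,
      (0 : El Z.E 𝓡.R).2⟩⟩
  · intro n x z y s k hn hk hx hz hy _ _
    exact pair_mem_prod.2 ⟨sc_mem hn, pair_mem_prod.2 ⟨pair_mem_prod.2 ⟨hx, hy⟩, (_ : El Z.E 𝓡.R).2⟩⟩

variable (X V) in
/-- the set of chains -/
noncomputable def CH : M := cls (fun c => ∀ S, CClosed 𝓡 X V S → E c S)

theorem mem_CH (hV : Def3 V) {c : M} : E c (CH 𝓡 X V) ↔ ∀ S, CClosed 𝓡 X V S → E c S := by
  refine mem_cls ?_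
  refine isSet_sub (prod (om M) (prod (prod X X) 𝓡.R)) ?_ (fun c hc => hc _ (full_closed 𝓡))
  apply D.all
  refine D.imp (dCClosed 𝓡 hV _ _ T.var0) ?_
  (repeat' with_reducible first
    | exact T.const _ | exact T.var0 | exact T.var1 | exact T.var2 | exact T.var3
    | exact T.var4 | exact T.var5 | exact T.var6 | exact T.var7 | exact T.var8 | assumption
    | exact D.const _ | apply D.and | apply D.or | apply D.not | apply D.iff | apply D.imp
    | apply D.ex | apply D.all | apply D.mem | apply D.eq | apply tUpair | apply tPair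
    | apply tSUnion | apply dSub | apply tPow | apply tCup | apply tProd | apply tApp
    | apply tSc | apply dInd | apply dNle | apply tVal | apply tAddK | apply tHalfK
    | apply dLeK | apply dLtK | apply dEqK | apply dExK | apply dAllK | apply tHK | apply tCC
    | apply T.wk1 | apply T.wk2 | apply T.wk3 | apply T.wk4 | apply T.wk5 | apply T.wk6
    | apply T.wk7 | apply T.wk8)

theorem CH_sub (hV : Def3 V) {n x y : M} {s : El Z.E 𝓡.R} (h : E (cc 𝓡 n x y s) (CH 𝓡 X V)) :
    E n (om M) ∧ E x X ∧ E y X := by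
  have h1 := (mem_CH 𝓡 hV).1 h _ (full_closed 𝓡)
  obtain ⟨h2, h3⟩ := pair_mem_prod.1 h1
  obtain ⟨h4, _⟩ := pair_mem_prod.1 h3
  obtain ⟨h5, h6⟩ := pair_mem_prod.1 h4
  exact ⟨h2, h5, h6⟩

theorem CH_closed (hV : Def3 V) : CClosed 𝓡 X V (CH 𝓡 X V) := by
  constructor
  · intro x hx
    exact (mem_CH 𝓡 hV).2 (fun S hS => hS.1 x hx)
  · intro n x z y s k hn hk hx hz hy h hs
    exact (mem_CH 𝓡 hV).2 (fun S hS => hS.2 n x z y s k hn hk hx hz hy
      ((mem_CH 𝓡 hV).1 h S hS) hs)

theorem chain_ind (hV : Def3 V) (Q : M → M → M → El Z.E 𝓡.R → Prop)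
    (hQ : ∀ (Γ : Type u) [Ctx M Γ] (n x y s : Γ → M), T n → T x → T y → T s →
      D (M := M) (fun γ => Q (n γ) (x γ) (y γ) (val 𝓡 (s γ))))
    (h0 : ∀ x, E x X → Q (emp M) x x 0)
    (h1 : ∀ n x z y (s : El Z.E 𝓡.R) k, E n (om M) → E k (om M) → E x X → E z X → E y X →
      E (cc 𝓡 n x z s) (CH 𝓡 X V) → Q n x z s → stp V k z y → Q (sc n) x y (s + hK 𝓡 k)) :
    ∀ n x y s, E (cc 𝓡 n x y s) (CH 𝓡 X V) → Q n x y s := by
  have hset : IsSet (fun c => E c (CH 𝓡 X V) ∧ ∃ n x y, ∃ s : El Z.E 𝓡.R,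
      c = cc 𝓡 n x y s ∧ Q n x y s) := by
    refine isSet_sub (CH 𝓡 X V) ?_ (fun x hx => hx.1)
    refine D.and (D.mem T.var0 (T.const _)) (D.ex (D.ex (D.ex (dExK 𝓡 (D.and ?_
      (hQ _ _ _ _ _ ?_ ?_ ?_ ?_))))))
    all_goals (repeat' with_reducible first
      | exact T.const _ | exact T.var0 | exact T.var1 | exact T.var2 | exact T.var3
      | exact T.var4 | exact T.var5 | exact T.var6 | exact T.var7 | exact T.var8 | assumption
      | exact D.const _ | apply D.and | apply D.or | apply D.not | apply D.iff | apply D.imp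
      | apply D.ex | apply D.all | apply D.mem | apply D.eq | apply tUpair | apply tPair
      | apply tSUnion | apply dSub | apply tPow | apply tCup | apply tProd | apply tApp
      | apply tSc | apply dInd | apply dNle | apply tVal | apply tAddK | apply tHalfK
      | apply dLeK | apply dLtK | apply dEqK | apply dExK | apply dAllK | apply tHK | apply tCC
      | apply T.wk1 | apply T.wk2 | apply T.wk3 | apply T.wk4 | apply T.wk5 | apply T.wk6
      | apply T.wk7 | apply T.wk8)
  have hcl : CClosed 𝓡 X V (cls (fun c => E c (CH 𝓡 X V) ∧ ∃ n x y, ∃ s : El Z.E 𝓡.R,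
      c = cc 𝓡 n x y s ∧ Q n x y s)) := by
    constructor
    · intro x hx
      rw [mem_cls hset]
      exact ⟨(CH_closed 𝓡 hV).1 x hx, _, _, _, _, rfl, h0 x hx⟩
    · intro n x z y s k hn hk hx hz hy h hs
      rw [mem_cls hset] at h ⊢
      obtain ⟨h2, n', x', z', s', he, hq⟩ := h
      obtain ⟨rfl, rfl, rfl, rfl⟩ := cc_inj 𝓡 he
      exact ⟨(CH_closed 𝓡 hV).2 n x z y s k hn hk hx hz hy h2 hs, _, _, _, _, rfl,
        h1 n x z y s k hn hk hx hz hy h2 hq hs⟩
  intro n x y s h
  have := (mem_CH 𝓡 hV).1 h _ hcl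
  rw [mem_cls hset] at this
  obtain ⟨_, n', x', z', s', he, hq⟩ := this
  obtain ⟨rfl, rfl, rfl, rfl⟩ := cc_inj 𝓡 he
  exact hq

theorem CH_nonneg (hV : Def3 V) : ∀ n x y s, E (cc 𝓡 n x y s) (CH 𝓡 X V) →
    (0 ≤ s ∧ (s = 0 → x = y)) := by
  refine chain_ind 𝓡 hV _ ?_ ?_ ?_
  · intro Γ _ n x y s hn hx hy hs
    (repeat' with_reducible first
      | exact T.const _ | exact T.var0 | exact T.var1 | exact T.var2 | exact T.var3
      | exact T.var4 | exact T.var5 | exact T.var6 | exact T.var7 | exact T.var8 | assumption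
      | exact D.const _ | apply D.and | apply D.or | apply D.not | apply D.iff | apply D.imp
      | apply D.ex | apply D.all | apply D.mem | apply D.eq | apply tUpair | apply tPair
      | apply tSUnion | apply dSub | apply tPow | apply tCup | apply tProd | apply tApp
      | apply tSc | apply dInd | apply dNle | apply tVal | apply tAddK | apply tHalfK
      | apply dLeK | apply dLtK | apply dEqK | apply dExK | apply dAllK | apply tHK | apply tCC
      | apply T.wk1 | apply T.wk2 | apply T.wk3 | apply T.wk4 | apply T.wk5 | apply T.wk6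
      | apply T.wk7 | apply T.wk8)
  · intro x hx; exact ⟨le_rfl, fun _ => rfl⟩
  · intro n x z y s k hn hk hx hz hy h hq hs
    have := hK_pos 𝓡 k hk
    exact ⟨by linarith [hq.1], fun h0 => by linarith [hq.1]⟩

theorem CH_concat (hV : Def3 V) : ∀ m z y t, E (cc 𝓡 m z y t) (CH 𝓡 X V) →
    ∀ n x, ∀ s : El Z.E 𝓡.R, E (cc 𝓡 n x z s) (CH 𝓡 X V) →
      ∃ l, E (cc 𝓡 l x y (s + t)) (CH 𝓡 X V) := by
  refine chain_ind 𝓡 hV _ ?_ ?_ ?_
  · intro Γ _ n x y s hn hx hy hs
    (repeat' with_reducible first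
      | exact T.const _ | exact T.var0 | exact T.var1 | exact T.var2 | exact T.var3
      | exact T.var4 | exact T.var5 | exact T.var6 | exact T.var7 | exact T.var8 | assumption
      | exact D.const _ | apply D.and | apply D.or | apply D.not | apply D.iff | apply D.imp
      | apply D.ex | apply D.all | apply D.mem | apply D.eq | apply tUpair | apply tPair
      | apply tSUnion | apply dSub | apply tPow | apply tCup | apply tProd | apply tApp
      | apply tSc | apply dInd | apply dNle | apply tVal | apply tAddK | apply tHalfK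
      | apply dLeK | apply dLtK | apply dEqK | apply dExK | apply dAllK | apply tHK | apply tCC
      | apply T.wk1 | apply T.wk2 | apply T.wk3 | apply T.wk4 | apply T.wk5 | apply T.wk6
      | apply T.wk7 | apply T.wk8)
  · intro x hx n x' s h
    exact ⟨n, by rw [add_zero]; exact h⟩
  · intro m z w y t k hm hk hz hw hy h hq hs n x s hx
    obtain ⟨l, hl⟩ := hq n x s hx
    refine ⟨sc l, ?_⟩
    have := (CH_closed 𝓡 hV).2 l x w y (s + t) k (CH_sub 𝓡 hV hl).1 hk (CH_sub 𝓡 hV hl).2.1
      hw hy hl hs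
    rw [← add_assoc]; exact this

theorem CH_split (hV : Def3 V) : ∀ n x y t, E (cc 𝓡 n x y t) (CH 𝓡 X V) →
    ∀ s : El Z.E 𝓡.R, 0 ≤ s → s < t → ∃ i i' u v k, ∃ a b : El Z.E 𝓡.R,
      (E i n ∧ E i' n ∧ E k (om M)) ∧ E (cc 𝓡 i x u a) (CH 𝓡 X V) ∧ a ≤ s ∧ stp V k u v ∧
      s < a + hK 𝓡 k ∧ E (cc 𝓡 i' v y b) (CH 𝓡 X V) ∧ a + hK 𝓡 k + b = t := by
  have hS := dStp hV
  refine chain_ind 𝓡 hV _ ?_ ?_ ?_
  · intro Γ _ n x y s hn hx hy hs
    apply dAllK 𝓡
    refine D.imp ?_ (D.imp ?_ (D.ex (D.ex (D.ex (D.ex (D.ex (dExK 𝓡 (dExK 𝓡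
      (D.and ?_ (D.and ?_ (D.and ?_ (D.and (hS _ _ _ _ ?_ ?_ ?_) ?_))))))))))))
    all_goals (repeat' with_reducible first
      | exact T.const _ | exact T.var0 | exact T.var1 | exact T.var2 | exact T.var3
      | exact T.var4 | exact T.var5 | exact T.var6 | exact T.var7 | exact T.var8 | assumption
      | exact D.const _ | apply D.and | apply D.or | apply D.not | apply D.iff | apply D.imp
      | apply D.ex | apply D.all | apply D.mem | apply D.eq | apply tUpair | apply tPair
      | apply tSUnion | apply dSub | apply tPow | apply tCup | apply tProd | apply tApp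
      | apply tSc | apply dInd | apply dNle | apply tVal | apply tAddK | apply tHalfK
      | apply dLeK | apply dLtK | apply dEqK | apply dExK | apply dAllK | apply tHK | apply tCC
      | apply T.wk1 | apply T.wk2 | apply T.wk3 | apply T.wk4 | apply T.wk5 | apply T.wk6
      | apply T.wk7 | apply T.wk8)
  · intro x hx s hs hs'
    exact absurd hs' (not_lt.2 hs)
  · intro n x z y t k hn hk hx hz hy h hq hst s hs hs'
    by_cases hlt : s < t
    · obtain ⟨i, i', u, v, l, a, b, ⟨hi, hi', hl⟩, h1, h2, h3, h4, h5, h6⟩ := hq s hs hlt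
      refine ⟨i, sc i', u, v, l, a, b + hK 𝓡 k, ⟨mem_sc.2 (Or.inl hi), ?_, hl⟩, h1, h2, h3, h4,
        ?_, ?_⟩
      · exact lt_sc.2 (sc_nle hn hi')
      · exact (CH_closed 𝓡 hV).2 i' v z y b k (om_trans n hn i' hi').1 hk
          (CH_sub 𝓡 hV h5).2.1 hz hy h5 hst
      · rw [← h6]; ring
    · refine ⟨n, emp M, z, y, k, t, 0, ⟨mem_sc.2 (Or.inr rfl), lt_sc.2 (nle_zero hn), hk⟩, h,
        not_lt.1 hlt, hst, hs', (CH_closed 𝓡 hV).1 y hy, by ring⟩

/-- the main point: cheap chains stay inside `V k` -/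
theorem CH_main (hV : Def3 V) (hN : Normal3 X V) : ∀ n, E n (om M) →
    ∀ x y, ∀ t : El Z.E 𝓡.R, ∀ k, E k (om M) → E (cc 𝓡 n x y t) (CH 𝓡 X V) → t < hK 𝓡 k →
      V k x y := by
  refine om_strong _ ?_ ?_
  · intro Γ _ f hf
    refine D.all (D.all (dAllK 𝓡 (D.all (D.imp ?_ (D.imp ?_ (D.imp ?_
      (hV _ _ _ _ ?_ ?_ ?_)))))))
    all_goals (repeat' with_reducible first
      | exact T.const _ | exact T.var0 | exact T.var1 | exact T.var2 | exact T.var3
      | exact T.var4 | exact T.var5 | exact T.var6 | exact T.var7 | exact T.var8 | assumption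
      | exact D.const _ | apply D.and | apply D.or | apply D.not | apply D.iff | apply D.imp
      | apply D.ex | apply D.all | apply D.mem | apply D.eq | apply tUpair | apply tPair
      | apply tSUnion | apply dSub | apply tPow | apply tCup | apply tProd | apply tApp
      | apply tSc | apply dInd | apply dNle | apply tVal | apply tAddK | apply tHalfK
      | apply dLeK | apply dLtK | apply dEqK | apply dExK | apply dAllK | apply tHK | apply tCC
      | apply T.wk1 | apply T.wk2 | apply T.wk3 | apply T.wk4 | apply T.wk5 | apply T.wk6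
      | apply T.wk7 | apply T.wk8)
  · intro n hn ih x y t k hk h ht
    obtain ⟨ht0, ht1⟩ := CH_nonneg 𝓡 hV _ _ _ _ h
    obtain ⟨_, hx, hy⟩ := CH_sub 𝓡 hV h
    rcases ht0.eq_or_lt with h0 | hpos
    · rw [ht1 h0.symm]; exact hN.refl k y hk hy
    · obtain ⟨i, i', u, v, l, a, b, ⟨hi, hi', hl⟩, h1, h2, h3, h4, h5, h6⟩ :=
        CH_split 𝓡 hV n x y t h (t / 2) (by linarith) (by linarith)
      have hhk := hK_sc 𝓡 hk
      have ha0 := (CH_nonneg 𝓡 hV _ _ _ _ h1).1
      have hb0 := (CH_nonneg 𝓡 hV _ _ _ _ h5).1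
      have e1 : V (sc k) x u := ih i hi x u a (sc k) (sc_mem hk) h1 (by rw [hhk]; linarith)
      have e3 : V (sc k) v y := ih i' hi' v y b (sc k) (sc_mem hk) h5 (by rw [hhk]; linarith)
      have hu := (CH_sub 𝓡 hV h1).2.2
      have hv := (CH_sub 𝓡 hV h5).2.1
      have hlk : hK 𝓡 l < hK 𝓡 k := by linarith
      have hkl : E k l := by
        rcases lt_or_nle hk hl with h' | h'
        · exact h'
        · exact absurd (hK_anti 𝓡 k hk l h') (not_le.2 hlk)
      have e2 : V (sc k) u v := by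
        rcases h3 with h3 | h3
        · subst h3; exact (mem_emp hkl).elim
        · exact hN.anti hV l hl (sc k) (sc_nle hl hkl) u v hu hv h3
      exact hN.comp k x u v y hk hx hu hv hy e1 e2 e3

theorem CH_one (hV : Def3 V) {k x y : M} (hk : E k (om M)) (hx : E x X) (hy : E y X)
    (h : stp V k x y) : E (cc 𝓡 (sc (emp M)) x y (hK 𝓡 k)) (CH 𝓡 X V) := by
  have := (CH_closed 𝓡 hV).2 (emp M) x x y 0 k zero_mem hk hx hx hy ((CH_closed 𝓡 hV).1 x hx) h
  rwa [zero_add] at this

theorem exists_dist (hV : Def3 V) (x y : El Z.E X) : ∃ c : El Z.E 𝓡.R,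
    IsGLB {t : El Z.E 𝓡.R | ∃ n, E (cc 𝓡 n x.1 y.1 t) (CH 𝓡 X V)} c := by
  obtain ⟨c, hc⟩ := exists_glb 𝓡 (fun t => ∃ n, E (cc 𝓡 n x.1 y.1 (val 𝓡 t)) (CH 𝓡 X V))
    (by (repeat' with_reducible first
      | exact T.const _ | exact T.var0 | exact T.var1 | exact T.var2 | exact T.var3
      | exact T.var4 | exact T.var5 | exact T.var6 | exact T.var7 | exact T.var8 | assumption
      | exact D.const _ | apply D.and | apply D.or | apply D.not | apply D.iff | apply D.imp
      | apply D.ex | apply D.all | apply D.mem | apply D.eq | apply tUpair | apply tPair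
      | apply tSUnion | apply dSub | apply tPow | apply tCup | apply tProd | apply tApp
      | apply tSc | apply dInd | apply dNle | apply tVal | apply tAddK | apply tHalfK
      | apply dLeK | apply dLtK | apply dEqK | apply dExK | apply dAllK | apply tHK | apply tCC
      | apply T.wk1 | apply T.wk2 | apply T.wk3 | apply T.wk4 | apply T.wk5 | apply T.wk6
      | apply T.wk7 | apply T.wk8))
    ⟨hK 𝓡 (emp M), sc (emp M), by
      rw [val_coe]; exact CH_one 𝓡 hV zero_mem x.2 y.2 (Or.inl rfl)⟩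
    ⟨0, by
      rintro t ⟨n, hn⟩
      rw [val_coe] at hn
      exact (CH_nonneg 𝓡 hV _ _ _ _ hn).1⟩
  refine ⟨c, ?_⟩
  have : {x_1 : El Z.E 𝓡.R | ∃ n, E (cc 𝓡 n x.1 y.1 (val 𝓡 x_1.1)) (CH 𝓡 X V)} =
      {t : El Z.E 𝓡.R | ∃ n, E (cc 𝓡 n x.1 y.1 t) (CH 𝓡 X V)} := by
    ext t
    simp only [Set.mem_ofPred_eq, val_coe]
  rw [← this]; exact hc

end chains

/-- Frink's lemma -/
theorem frink {X : M} {V : M → M → M → Prop} (hV : Def3 V) (hN : Normal3 X V) :
    ∃ ρ : QuasiMetric 𝓡 X,
      (∀ k (x y : El Z.E X), E k (om M) → ρ.d x y < hK 𝓡 k → V k x y) ∧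
      (∀ k (x y : El Z.E X), E k (om M) → V k x y → ρ.d x y ≤ hK 𝓡 k) := by
  choose d hd using exists_dist 𝓡 (X := X) hV
  have hA : ∀ k (x y : El Z.E X), E k (om M) → d x y < hK 𝓡 k → V k x y := by
    intro k x y hk h
    by_contra hcon
    have : hK 𝓡 k ≤ d x y := by
      refine (hd x y).2 ?_
      rintro t ⟨n, hn⟩
      by_contra ht
      exact hcon (CH_main 𝓡 hV hN n (CH_sub 𝓡 hV hn).1 _ _ _ _ hk hn (not_le.1 ht))
    exact absurd h (not_lt.2 this)
  have hB : ∀ k (x y : El Z.E X), E k (om M) → V k x y → d x y ≤ hK 𝓡 k := by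
    intro k x y hk h
    exact (hd x y).1 ⟨_, CH_one 𝓡 hV hk x.2 y.2 (Or.inr h)⟩
  have hnonneg : ∀ x y, 0 ≤ d x y := by
    intro x y
    refine (hd x y).2 ?_
    rintro t ⟨n, hn⟩
    exact (CH_nonneg 𝓡 hV _ _ _ _ hn).1
  refine ⟨⟨d, ?_, hnonneg, ?_, ?_, ?_⟩, hA, hB⟩
  · have hset : IsSet (fun p => ∃ x y, ∃ r : El Z.E 𝓡.R, (E x X ∧ E y X) ∧
        p = pair (pair x y) r.1 ∧ (∀ t : El Z.E 𝓡.R, (∃ n, E (cc 𝓡 n x y t) (CH 𝓡 X V)) → r ≤ t) ∧
        ∀ b : El Z.E 𝓡.R, (∀ t : El Z.E 𝓡.R, (∃ n, E (cc 𝓡 n x y t) (CH 𝓡 X V)) → b ≤ t) →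
          b ≤ r) := by
      refine isSet_sub (prod (prod X X) 𝓡.R) ?_ ?_
      · (repeat' with_reducible first
        | exact T.const _ | exact T.var0 | exact T.var1 | exact T.var2 | exact T.var3
        | exact T.var4 | exact T.var5 | exact T.var6 | exact T.var7 | exact T.var8 | assumption
        | exact D.const _ | apply D.and | apply D.or | apply D.not | apply D.iff | apply D.imp
        | apply D.ex | apply D.all | apply D.mem | apply D.eq | apply tUpair | apply tPair
        | apply tSUnion | apply dSub | apply tPow | apply tCup | apply tProd | apply tApp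
        | apply tSc | apply dInd | apply dNle | apply tVal | apply tAddK | apply tHalfK
        | apply dLeK | apply dLtK | apply dEqK | apply dExK | apply dAllK | apply tHK
        | apply tCC | apply T.wk1 | apply T.wk2 | apply T.wk3 | apply T.wk4 | apply T.wk5
        | apply T.wk6 | apply T.wk7 | apply T.wk8)
      · rintro p ⟨x, y, r, ⟨hx, hy⟩, rfl, _⟩
        exact pair_mem_prod.2 ⟨pair_mem_prod.2 ⟨hx, hy⟩, r.2⟩
    obtain ⟨g, hg⟩ := hset
    refine ⟨g, fun x y r => ?_⟩
    rw [rel2_iff, hg]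
    constructor
    · rintro ⟨x', y', r', ⟨hx, hy⟩, he, h1, h2⟩
      obtain ⟨h3, h4⟩ := pair_inj.1 he
      obtain ⟨h5, h6⟩ := pair_inj.1 h3
      subst h5 h6
      have h7 : r = r' := Subtype.ext h4
      subst h7
      exact (hd x y).unique ⟨fun t ht => h1 t ht, fun b hb => h2 b (fun t ht => hb ht)⟩
    · rintro rfl
      exact ⟨x.1, y.1, d x y, ⟨x.2, y.2⟩, rfl, fun t ht => (hd x y).1 ht,
        fun b hb => (hd x y).2 (fun t ht => hb t ht)⟩
  · intro x
    refine le_antisymm ((hd x x).1 ⟨_, (CH_closed 𝓡 hV).1 x.1 x.2⟩) (hnonneg x x)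
  · intro x y z
    have h1 : ∀ t : El Z.E 𝓡.R, (∃ n, E (cc 𝓡 n z.1 y.1 t) (CH 𝓡 X V)) →
        d x y - t ≤ d x z := by
      rintro t ⟨m, hm⟩
      refine (hd x z).2 ?_
      rintro s ⟨n, hn⟩
      obtain ⟨l, hl⟩ := CH_concat 𝓡 hV _ _ _ _ hm _ _ _ hn
      have := (hd x y).1 ⟨l, hl⟩
      linarith
    have h2 : d x y - d x z ≤ d z y := by
      refine (hd z y).2 ?_
      rintro t ht
      have := h1 t ht
      linarith
    linarith
  · intro x y h
    refine Subtype.ext (hN.sep _ _ x.2 y.2 (fun k hk => hA k x y hk ?_))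
    rw [h]; exact hK_pos 𝓡 k hk

/-- the topology given by a sequence of relations -/
def GenTop (X : M) (V : M → M → M → Prop) (τ : M) : Prop :=
  ∀ G, E G τ ↔ (Sub G X ∧ ∀ x, E x G → ∃ k, E k (om M) ∧ ∀ y, E y X → V k x y → E y G)

theorem induces_iff {X τ : M} {V : M → M → M → Prop} {d : El Z.E X → El Z.E X → El Z.E 𝓡.R}
    (h1 : ∀ k (x y : El Z.E X), E k (om M) → d x y < hK 𝓡 k → V k x y)
    (h2 : ∀ k (x y : El Z.E X), E k (om M) → V k x y → d x y ≤ hK 𝓡 k)
    (hτ : GenTop X V τ) : Induces 𝓡 d τ := by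
  intro G
  rw [hτ G]
  constructor
  · rintro ⟨hs, h⟩
    refine ⟨hs, fun x hx => ?_⟩
    obtain ⟨k, hk, h'⟩ := h x.1 hx
    exact ⟨hK 𝓡 k, hK_pos 𝓡 k hk, fun y hy => h' y.1 y.2 (h1 k x y hk hy)⟩
  · rintro ⟨hs, h⟩
    refine ⟨hs, fun x hx => ?_⟩
    obtain ⟨ε, hε, h'⟩ := h ⟨x, hs x hx⟩ hx
    obtain ⟨k, hk, hkε⟩ := hK_arch 𝓡 ε hε
    exact ⟨k, hk, fun y hy hVy => h' ⟨y, hy⟩
      (lt_of_le_of_lt (h2 k ⟨x, hs x hx⟩ ⟨y, hy⟩ hk hVy) hkε)⟩

theorem frink_top {X τ : M} {V : M → M → M → Prop} (hV : Def3 V) (hN : Normal3 X V)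
    (hτ : GenTop X V τ) : QuasiMetrizable 𝓡 X τ := by
  obtain ⟨ρ, h1, h2⟩ := frink 𝓡 hV hN
  exact ⟨ρ, induces_iff 𝓡 h1 h2 hτ⟩

theorem frink_bi {X τ₁ τ₂ : M} {V : M → M → M → Prop} (hV : Def3 V) (hN : Normal3 X V)
    (hτ₁ : GenTop X V τ₁) (hτ₂ : GenTop X (fun k x y => V k y x) τ₂) :
    BiQuasiMetrizable 𝓡 X τ₁ τ₂ := by
  obtain ⟨ρ, h1, h2⟩ := frink 𝓡 hV hN
  exact ⟨ρ, induces_iff 𝓡 h1 h2 hτ₁,
    induces_iff 𝓡 (V := fun k x y => V k y x) (fun k x y hk h => h1 k y x hk h)
      (fun k x y hk h => h2 k y x hk h) hτ₂⟩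

/-- a normal sequence (with double compositions) on `X`, given by a set `v` of the model -/
structure NormalSet (X v : M) : Prop where
  sub : ∀ k x y, E (pair k (pair x y)) v → E k (om M) ∧ E x X ∧ E y X
  refl : ∀ k x, E k (om M) → E x X → E (pair k (pair x x)) v
  comp : ∀ k x y z, E k (om M) → E (pair (sc k) (pair x y)) v → E (pair (sc k) (pair y z)) v →
    E (pair k (pair x z)) v
  sep : ∀ x y, E x X → E y X → (∀ k, E k (om M) → E (pair k (pair x y)) v) → x = y

/-- the relation coded by `v` -/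
def rv (v k x y : M) : Prop := E (pair k (pair x y)) v

theorem dRv {Γ : Type u} [c : Ctx M Γ] {v k x y : Γ → M} (hv : T v) (hk : T k)
    (hx : T x) (hy : T y) : D (M := M) (fun γ => rv (v γ) (k γ) (x γ) (y γ)) := by
  unfold rv
  (repeat' with_reducible first
    | exact T.const _ | exact T.var0 | exact T.var1 | exact T.var2 | exact T.var3
    | exact T.var4 | exact T.var5 | exact T.var6 | exact T.var7 | exact T.var8 | assumption
    | exact D.const _ | apply D.and | apply D.or | apply D.not | apply D.iff | apply D.imp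
    | apply D.ex | apply D.all | apply D.mem | apply D.eq | apply tUpair | apply tPair
    | apply tSUnion | apply dSub | apply tPow | apply tCup | apply tProd | apply tApp
    | apply tSc | apply dInd | apply dNle | apply tVal | apply tAddK | apply tHalfK
    | apply dLeK | apply dLtK | apply dEqK | apply dExK | apply dAllK | apply tHK | apply tCC
    | apply T.wk1 | apply T.wk2 | apply T.wk3 | apply T.wk4 | apply T.wk5 | apply T.wk6
    | apply T.wk7 | apply T.wk8)

theorem NormalSet.step {X v : M} (h : NormalSet X v) {k x y : M} (hk : E k (om M))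
    (hv : rv v (sc k) x y) : rv v k x y :=
  h.comp k x y y hk hv (h.refl _ _ (sc_mem hk) (h.sub _ _ _ hv).2.2)

theorem NormalSet.anti {X v : M} (h : NormalSet X v) :
    ∀ l, E l (om M) → ∀ k, nle k l → ∀ x y, rv v l x y → rv v k x y := by
  refine om_ind _ ?_ ?_ ?_
  · (repeat' with_reducible first
    | exact T.const _ | exact T.var0 | exact T.var1 | exact T.var2 | exact T.var3
    | exact T.var4 | exact T.var5 | exact T.var6 | exact T.var7 | exact T.var8 | assumption
    | exact D.const _ | apply D.and | apply D.or | apply D.not | apply D.iff | apply D.imp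
    | apply D.ex | apply D.all | apply D.mem | apply D.eq | apply tUpair | apply tPair
    | apply tSUnion | apply dSub | apply tPow | apply tCup | apply tProd | apply tApp
    | apply tSc | apply dInd | apply dNle | apply tVal | apply tAddK | apply tHalfK
    | apply dLeK | apply dLtK | apply dEqK | apply dExK | apply dAllK | apply tHK | apply tCC
    | apply dRv | apply T.wk1 | apply T.wk2 | apply T.wk3 | apply T.wk4 | apply T.wk5
    | apply T.wk6 | apply T.wk7 | apply T.wk8)
  · intro k hk x y hV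
    rcases hk with hk | rfl
    · exact (mem_emp hk).elim
    · exact hV
  · intro l hl ih k hk x y hV
    rcases hk with hk | rfl
    · exact ih k (lt_sc.1 hk) x y (h.step hl hV)
    · exact hV

/-- from a quasi-metric to a normal sequence -/
theorem exists_normal {X : M} (ρ : QuasiMetric 𝓡 X) : ∃ v : M, NormalSet X v ∧
    (∀ τ, Induces 𝓡 ρ.d τ → GenTop X (rv v) τ) ∧
    (∀ τ, Induces 𝓡 (fun x y => ρ.d y x) τ → GenTop X (fun k x y => rv v k y x) τ) := by
  obtain ⟨g, hg⟩ := ρ.internal
  have hset : IsSet (fun p => ∃ k x y, ∃ r : El Z.E 𝓡.R, (E k (om M) ∧ E x X ∧ E y X) ∧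
      p = pair k (pair x y) ∧ E (pair (pair x y) r.1) g ∧ r < hK 𝓡 k) := by
    refine isSet_sub (prod (om M) (prod X X)) ?_ ?_
    · (repeat' with_reducible first
      | exact T.const _ | exact T.var0 | exact T.var1 | exact T.var2 | exact T.var3
      | exact T.var4 | exact T.var5 | exact T.var6 | exact T.var7 | exact T.var8 | assumption
      | exact D.const _ | apply D.and | apply D.or | apply D.not | apply D.iff | apply D.imp
      | apply D.ex | apply D.all | apply D.mem | apply D.eq | apply tUpair | apply tPair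
      | apply tSUnion | apply dSub | apply tPow | apply tCup | apply tProd | apply tApp
      | apply tSc | apply dInd | apply dNle | apply tVal | apply tAddK | apply tHalfK
      | apply dLeK | apply dLtK | apply dEqK | apply dExK | apply dAllK | apply tHK | apply tCC
      | apply dRv | apply T.wk1 | apply T.wk2 | apply T.wk3 | apply T.wk4 | apply T.wk5
      | apply T.wk6 | apply T.wk7 | apply T.wk8)
    · rintro p ⟨k, x, y, r, ⟨hk, hx, hy⟩, rfl, _⟩
      exact pair_mem_prod.2 ⟨hk, pair_mem_prod.2 ⟨hx, hy⟩⟩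
  obtain ⟨v, hv⟩ := hset
  have key : ∀ k (x y : El Z.E X), rv v k x y ↔ (E k (om M) ∧ ρ.d x y < hK 𝓡 k) := by
    intro k x y
    unfold rv
    rw [hv]
    constructor
    · rintro ⟨k', x', y', r, ⟨hk, hx, hy⟩, he, h1, h2⟩
      obtain ⟨h3, h4⟩ := pair_inj.1 he
      obtain ⟨h5, h6⟩ := pair_inj.1 h4
      subst h3 h5 h6
      have := (hg x y r).1 (rel2_iff.2 h1)
      rw [this]; exact ⟨hk, h2⟩
    · rintro ⟨hk, h⟩
      exact ⟨k, x.1, y.1, ρ.d x y, ⟨hk, x.2, y.2⟩, rfl, rel2_iff.1 ((hg x y _).2 rfl), h⟩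
  have hsub : ∀ k x y, rv v k x y → E k (om M) ∧ E x X ∧ E y X := by
    intro k x y h
    unfold rv at h
    rw [hv] at h
    obtain ⟨k', x', y', r, ⟨hk, hx, hy⟩, he, h1, h2⟩ := h
    obtain ⟨h3, h4⟩ := pair_inj.1 he
    obtain ⟨h5, h6⟩ := pair_inj.1 h4
    subst h3 h5 h6
    exact ⟨hk, hx, hy⟩
  have htop : ∀ (d : El Z.E X → El Z.E X → El Z.E 𝓡.R) (V : M → M → M → Prop) (τ : M),
      (∀ k (x y : El Z.E X), V k x y ↔ (E k (om M) ∧ d x y < hK 𝓡 k)) → Induces 𝓡 d τ →
      GenTop X V τ := by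
    intro d V τ hd hτ G
    rw [hτ G]
    constructor
    · rintro ⟨hs, h⟩
      refine ⟨hs, fun x hx => ?_⟩
      obtain ⟨ε, hε, h'⟩ := h ⟨x, hs x hx⟩ hx
      obtain ⟨k, hk, hkε⟩ := hK_arch 𝓡 ε hε
      refine ⟨k, hk, fun y hy hVy => h' ⟨y, hy⟩ (lt_trans ?_ hkε)⟩
      exact ((hd k ⟨x, hs x hx⟩ ⟨y, hy⟩).1 hVy).2
    · rintro ⟨hs, h⟩
      refine ⟨hs, fun x hx => ?_⟩
      obtain ⟨k, hk, h'⟩ := h x.1 hx
      exact ⟨hK 𝓡 k, hK_pos 𝓡 k hk, fun y hy => h' y.1 y.2 ((hd k x y).2 ⟨hk, hy⟩)⟩
  refine ⟨v, ⟨hsub, ?_, ?_, ?_⟩, ?_, ?_⟩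
  · intro k x hk hx
    refine (key k ⟨x, hx⟩ ⟨x, hx⟩).2 ⟨hk, ?_⟩
    rw [ρ.self]; exact hK_pos 𝓡 k hk
  · intro k x y z hk h1 h2
    obtain ⟨_, hx, hy⟩ := hsub _ _ _ h1
    obtain ⟨_, _, hz⟩ := hsub _ _ _ h2
    have h3 := ((key (sc k) ⟨x, hx⟩ ⟨y, hy⟩).1 h1).2
    have h4 := ((key (sc k) ⟨y, hy⟩ ⟨z, hz⟩).1 h2).2
    refine (key k ⟨x, hx⟩ ⟨z, hz⟩).2 ⟨hk, ?_⟩
    have h5 := ρ.triangle ⟨x, hx⟩ ⟨z, hz⟩ ⟨y, hy⟩
    rw [hK_sc 𝓡 hk] at h3 h4
    linarith
  · intro x y hx hy h
    have h0 : ρ.d ⟨x, hx⟩ ⟨y, hy⟩ = 0 := by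
      refine le_antisymm ?_ (ρ.nonneg _ _)
      by_contra hcon
      obtain ⟨k, hk, hlt⟩ := hK_arch 𝓡 _ (not_le.1 hcon)
      have := ((key k ⟨x, hx⟩ ⟨y, hy⟩).1 (h k hk)).2
      exact absurd this (not_lt.2 hlt.le)
    exact congrArg Subtype.val (ρ.separated _ _ h0)
  · intro τ hτ
    exact htop _ _ τ key hτ
  · intro τ hτ
    exact htop _ (fun k x y => rv v k y x) τ (fun k x y => key k y x) hτ

end Pool.Agent.ZFQ
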