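import Pool.Agent.ZFQ.Sets

/-! The natural numbers of a model of ZF, induction and recursion. -/

set_option linter.unusedSectionVars false
set_option linter.unusedVariables false
set_option linter.unusedTactic false
set_option linter.unreachableTactic false

namespace Pool.Agent.ZFQ

universe u

variable {M : Type u} [Z : ZFModel M]

open ZFModel

/-- the successor `x ∪ {x}` -/
noncomputable def sc (x : M) : M := cup x (upair x x)

theorem mem_sc {x z : M} : E z (sc x) ↔ (E z x ∨ z = x) := by
  rw [sc, mem_cup, mem_upair]; tauto

theorem tSc : TDef1 (sc (M := M)) := by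
  intro Γ _ f hf
  unfold sc
  (repeat' with_reducible first
    | exact T.const _ | exact T.var0 | exact T.var1 | exact T.var2 | exact T.var3
    | exact T.var4 | exact T.var5 | exact T.var6 | exact T.var7 | exact T.var8 | assumption
    | exact D.const _ | apply D.and | apply D.or | apply D.not | apply D.iff | apply D.imp
    | apply D.ex | apply D.all | apply D.mem | apply D.eq | apply tUpair | apply tPair
    | apply tSUnion | apply dSub | apply tPow | apply tCup | apply tProd | apply tApp
    | apply T.wk1 | apply T.wk2 | apply T.wk3 | apply T.wk4 | apply T.wk5 | apply T.wk6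
    | apply T.wk7 | apply T.wk8)

def Ind (v : M) : Prop := E (emp M) v ∧ ∀ x, E x v → E (sc x) v

theorem dInd : Def1 (Ind (M := M)) := by
  intro Γ _ f hf
  unfold Ind
  (repeat' with_reducible first
    | exact T.const _ | exact T.var0 | exact T.var1 | exact T.var2 | exact T.var3
    | exact T.var4 | exact T.var5 | exact T.var6 | exact T.var7 | exact T.var8 | assumption
    | exact D.const _ | apply D.and | apply D.or | apply D.not | apply D.iff | apply D.imp
    | apply D.ex | apply D.all | apply D.mem | apply D.eq | apply tUpair | apply tPair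
    | apply tSUnion | apply dSub | apply tPow | apply tCup | apply tProd | apply tApp
    | apply tSc | apply T.wk1 | apply T.wk2 | apply T.wk3 | apply T.wk4 | apply T.wk5
    | apply T.wk6 | apply T.wk7 | apply T.wk8)

theorem exists_ind : ∃ w : M, Ind w := by
  obtain ⟨w, ⟨e, he, he'⟩, hs⟩ := Z.ax.infinity
  refine ⟨w, ?_, ?_⟩
  · have : emp M = e := ext' (fun x => ⟨fun h => (mem_emp h).elim, fun h => (he' x h).elim⟩)
    rw [this]; exact he
  · intro x hx
    obtain ⟨y, hy, hy'⟩ := hs x hx
    have : sc x = y := ext' (fun z => by rw [mem_sc, hy'])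
    rw [this]; exact hy

theorem isSet_om : IsSet (fun n : M => ∀ v, Ind v → E n v) := by
  obtain ⟨w, hw⟩ := exists_ind (M := M)
  refine isSet_sub w ?_ ?_
  · (repeat' with_reducible first
    | exact T.const _ | exact T.var0 | exact T.var1 | exact T.var2 | exact T.var3
    | exact T.var4 | exact T.var5 | exact T.var6 | exact T.var7 | exact T.var8 | assumption
    | exact D.const _ | apply D.and | apply D.or | apply D.not | apply D.iff | apply D.imp
    | apply D.ex | apply D.all | apply D.mem | apply D.eq | apply tUpair | apply tPair
    | apply tSUnion | apply dSub | apply tPow | apply tCup | apply tProd | apply tApp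
    | apply tSc | apply dInd | apply T.wk1 | apply T.wk2 | apply T.wk3 | apply T.wk4
    | apply T.wk5 | apply T.wk6 | apply T.wk7 | apply T.wk8)
  · intro x hx; exact hx w hw

variable (M) in
/-- the set of natural numbers -/
noncomputable def om : M := cls (fun n => ∀ v, Ind v → E n v)

theorem mem_om {n : M} : E n (om M) ↔ ∀ v, Ind v → E n v := mem_cls isSet_om

theorem zero_mem : E (emp M) (om M) := mem_om.2 (fun v hv => hv.1)

theorem sc_mem {n : M} (h : E n (om M)) : E (sc n) (om M) :=
  mem_om.2 (fun v hv => hv.2 n (mem_om.1 h v hv))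

theorem om_ind (P : M → Prop) (hP : D (M := M) (fun p : PUnit.{u+1} × M => P p.2))
    (h0 : P (emp M)) (hs : ∀ n, E n (om M) → P n → P (sc n)) : ∀ n, E n (om M) → P n := by
  have hset : IsSet (fun n => E n (om M) ∧ P n) := by
    refine isSet_sub (om M) ?_ (fun x hx => hx.1)
    refine D.and ?_ hP
    (repeat' with_reducible first
      | exact T.const _ | exact T.var0 | exact T.var1 | exact T.var2 | exact T.var3
      | exact T.var4 | exact T.var5 | exact T.var6 | exact T.var7 | exact T.var8 | assumption
      | exact D.const _ | apply D.and | apply D.or | apply D.not | apply D.iff | apply D.imp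
      | apply D.ex | apply D.all | apply D.mem | apply D.eq | apply tUpair | apply tPair
      | apply tSUnion | apply dSub | apply tPow | apply tCup | apply tProd | apply tApp
      | apply tSc | apply dInd | apply T.wk1 | apply T.wk2 | apply T.wk3 | apply T.wk4
      | apply T.wk5 | apply T.wk6 | apply T.wk7 | apply T.wk8)
  have hI : Ind (cls (fun n => E n (om M) ∧ P n)) := by
    constructor
    · rw [mem_cls hset]; exact ⟨zero_mem, h0⟩
    · intro x hx
      rw [mem_cls hset] at hx ⊢
      exact ⟨sc_mem hx.1, hs x hx.1 hx.2⟩
  intro n hn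
  have := mem_om.1 hn _ hI
  rw [mem_cls hset] at this
  exact this.2

/-- the least inductive set is `om` -/
theorem isOmega_iff {w : M} (hw : IsOmega Z.E w) : w = om M := by
  have hInd : ∀ v : M, IsInductive Z.E v ↔ Ind v := by
    intro v
    constructor
    · rintro ⟨⟨e, he, he'⟩, hs⟩
      refine ⟨?_, ?_⟩
      · have : emp M = e := ext' (fun x => ⟨fun h => (mem_emp h).elim, fun h => (he' x h).elim⟩)
        rw [this]; exact he
      · intro x hx
        obtain ⟨y, hy, hy'⟩ := hs x hx
        have : sc x = y := ext' (fun z => by rw [mem_sc, hy'])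
        rw [this]; exact hy
    · rintro ⟨h0, hs⟩
      exact ⟨⟨emp M, h0, fun x => mem_emp⟩, fun x hx => ⟨sc x, hs x hx, fun z => mem_sc⟩⟩
  apply ext'
  intro n
  constructor
  · intro h
    rw [mem_om]
    intro v hv
    exact hw.2 v ((hInd v).2 hv) n h
  · intro h
    exact mem_om.1 h w ((hInd w).1 hw.1)

theorem om_trans : ∀ n, E n (om M) → ∀ x, E x n → (E x (om M) ∧ Sub x n) := by
  refine om_ind _ ?_ ?_ ?_
  · (repeat' with_reducible first
    | exact T.const _ | exact T.var0 | exact T.var1 | exact T.var2 | exact T.var3
    | exact T.var4 | exact T.var5 | exact T.var6 | exact T.var7 | exact T.var8 | assumption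
    | exact D.const _ | apply D.and | apply D.or | apply D.not | apply D.iff | apply D.imp
    | apply D.ex | apply D.all | apply D.mem | apply D.eq | apply tUpair | apply tPair
    | apply tSUnion | apply dSub | apply tPow | apply tCup | apply tProd | apply tApp
    | apply tSc | apply dInd | apply T.wk1 | apply T.wk2 | apply T.wk3 | apply T.wk4
    | apply T.wk5 | apply T.wk6 | apply T.wk7 | apply T.wk8)
  · intro x hx; exact (mem_emp hx).elim
  · intro n hn ih x hx
    rcases mem_sc.1 hx with h | rfl
    · exact ⟨(ih x h).1, fun z hz => mem_sc.2 (Or.inl ((ih x h).2 z hz))⟩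
    · exact ⟨hn, fun z hz => mem_sc.2 (Or.inl hz)⟩

theorem not_self (n : M) : ¬ E n n := by
  intro h
  obtain ⟨x, hx, hx'⟩ := Z.ax.foundation (upair n n) ⟨n, mem_upair.2 (Or.inl rfl)⟩
  have hxn : x = n := by rcases mem_upair.1 hx with h | h <;> exact h
  subst hxn
  exact hx' x (mem_upair.2 (Or.inl rfl)) h

theorem om_lt_trans {a b c : M} (hc : E c (om M)) (h1 : E a b) (h2 : E b c) : E a c :=
  (om_trans c hc b h2).2 a h1

theorem zero_le : ∀ n, E n (om M) → (n = emp M ∨ E (emp M) n) := by
  refine om_ind _ ?_ ?_ ?_
  · (repeat' with_reducible first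
    | exact T.const _ | exact T.var0 | exact T.var1 | exact T.var2 | exact T.var3
    | exact T.var4 | exact T.var5 | exact T.var6 | exact T.var7 | exact T.var8 | assumption
    | exact D.const _ | apply D.and | apply D.or | apply D.not | apply D.iff | apply D.imp
    | apply D.ex | apply D.all | apply D.mem | apply D.eq | apply tUpair | apply tPair
    | apply tSUnion | apply dSub | apply tPow | apply tCup | apply tProd | apply tApp
    | apply tSc | apply dInd | apply T.wk1 | apply T.wk2 | apply T.wk3 | apply T.wk4
    | apply T.wk5 | apply T.wk6 | apply T.wk7 | apply T.wk8)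
  · exact Or.inl rfl
  · intro n hn ih
    right
    rcases ih with rfl | h
    · exact mem_sc.2 (Or.inr rfl)
    · exact mem_sc.2 (Or.inl h)

theorem sc_le : ∀ n, E n (om M) → ∀ m, E m n → (sc m = n ∨ E (sc m) n) := by
  refine om_ind _ ?_ ?_ ?_
  · (repeat' with_reducible first
    | exact T.const _ | exact T.var0 | exact T.var1 | exact T.var2 | exact T.var3
    | exact T.var4 | exact T.var5 | exact T.var6 | exact T.var7 | exact T.var8 | assumption
    | exact D.const _ | apply D.and | apply D.or | apply D.not | apply D.iff | apply D.imp
    | apply D.ex | apply D.all | apply D.mem | apply D.eq | apply tUpair | apply tPair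
    | apply tSUnion | apply dSub | apply tPow | apply tCup | apply tProd | apply tApp
    | apply tSc | apply dInd | apply T.wk1 | apply T.wk2 | apply T.wk3 | apply T.wk4
    | apply T.wk5 | apply T.wk6 | apply T.wk7 | apply T.wk8)
  · intro m hm; exact (mem_emp hm).elim
  · intro n hn ih m hm
    rcases mem_sc.1 hm with h | rfl
    · right
      rcases ih m h with h' | h'
      · exact mem_sc.2 (Or.inr h')
      · exact mem_sc.2 (Or.inl h')
    · exact Or.inl rfl

theorem om_total : ∀ n, E n (om M) → ∀ m, E m (om M) → (E m n ∨ m = n ∨ E n m) := by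
  refine om_ind _ ?_ ?_ ?_
  · (repeat' with_reducible first
    | exact T.const _ | exact T.var0 | exact T.var1 | exact T.var2 | exact T.var3
    | exact T.var4 | exact T.var5 | exact T.var6 | exact T.var7 | exact T.var8 | assumption
    | exact D.const _ | apply D.and | apply D.or | apply D.not | apply D.iff | apply D.imp
    | apply D.ex | apply D.all | apply D.mem | apply D.eq | apply tUpair | apply tPair
    | apply tSUnion | apply dSub | apply tPow | apply tCup | apply tProd | apply tApp
    | apply tSc | apply dInd | apply T.wk1 | apply T.wk2 | apply T.wk3 | apply T.wk4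
    | apply T.wk5 | apply T.wk6 | apply T.wk7 | apply T.wk8)
  · intro m hm
    rcases zero_le m hm with h | h
    · exact Or.inr (Or.inl h)
    · exact Or.inr (Or.inr h)
  · intro n hn ih m hm
    rcases ih m hm with h | rfl | h
    · exact Or.inl (mem_sc.2 (Or.inl h))
    · exact Or.inl (mem_sc.2 (Or.inr rfl))
    · rcases sc_le m hm n h with h' | h'
      · exact Or.inr (Or.inl h'.symm)
      · exact Or.inr (Or.inr h')

/-- order of the natural numbers -/
def nle (m n : M) : Prop := E m n ∨ m = n

theorem dNle : Def2 (nle (M := M)) := by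
  intro Γ _ f g hf hg
  unfold nle
  (repeat' with_reducible first
    | exact T.const _ | exact T.var0 | exact T.var1 | exact T.var2 | exact T.var3
    | exact T.var4 | exact T.var5 | exact T.var6 | exact T.var7 | exact T.var8 | assumption
    | exact D.const _ | apply D.and | apply D.or | apply D.not | apply D.iff | apply D.imp
    | apply D.ex | apply D.all | apply D.mem | apply D.eq | apply tUpair | apply tPair
    | apply tSUnion | apply dSub | apply tPow | apply tCup | apply tProd | apply tApp
    | apply tSc | apply dInd | apply T.wk1 | apply T.wk2 | apply T.wk3 | apply T.wk4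
    | apply T.wk5 | apply T.wk6 | apply T.wk7 | apply T.wk8)

theorem nle_refl (m : M) : nle m m := Or.inr rfl

theorem nle_trans {a b c : M} (hc : E c (om M)) (h1 : nle a b) (h2 : nle b c) : nle a c := by
  rcases h1 with h1 | rfl
  · rcases h2 with h2 | rfl
    · exact Or.inl (om_lt_trans hc h1 h2)
    · exact Or.inl h1
  · exact h2

theorem nle_total {m n : M} (hm : E m (om M)) (hn : E n (om M)) : nle m n ∨ nle n m := by
  rcases om_total n hn m hm with h | h | h
  · exact Or.inl (Or.inl h)
  · exact Or.inl (Or.inr h)
  · exact Or.inr (Or.inl h)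

theorem lt_or_nle {m n : M} (hm : E m (om M)) (hn : E n (om M)) : E m n ∨ nle n m := by
  rcases om_total n hn m hm with h | h | h
  · exact Or.inl h
  · exact Or.inr (Or.inr h.symm)
  · exact Or.inr (Or.inl h)

theorem not_lt_nle {m n : M} (hm : E m (om M)) (h : E m n) (h' : nle n m) : False := by
  rcases h' with h' | rfl
  · exact not_self m (om_lt_trans hm h h')
  · exact not_self n h

theorem nle_sc (n : M) : nle n (sc n) := Or.inl (mem_sc.2 (Or.inr rfl))

theorem nle_zero {n : M} (hn : E n (om M)) : nle (emp M) n := by
  rcases zero_le n hn with h | h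
  · exact Or.inr h.symm
  · exact Or.inl h

theorem lt_sc {m n : M} : E m (sc n) ↔ nle m n := mem_sc

theorem sc_nle {m n : M} (hn : E n (om M)) (h : E m n) : nle (sc m) n := by
  rcases sc_le n hn m h with h' | h'
  · exact Or.inr h'
  · exact Or.inl h'

theorem sc_ne_zero (n : M) : sc n ≠ emp M := by
  intro h
  exact mem_emp (h ▸ (mem_sc.2 (Or.inr rfl) : E n (sc n)))

theorem sc_inj {m n : M} (hm : E m (om M)) (hn : E n (om M)) (h : sc m = sc n) : m = n := by
  have h1 : E m (sc n) := h ▸ mem_sc.2 (Or.inr rfl)
  have h2 : E n (sc m) := h ▸ mem_sc.2 (Or.inr rfl)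
  rcases mem_sc.1 h1 with h1 | h1
  · rcases mem_sc.1 h2 with h2 | h2
    · exact (not_self m (om_lt_trans hm h1 h2)).elim
    · exact h2.symm
  · exact h1

/-- maximum of two natural numbers -/
theorem exists_max {m n : M} (hm : E m (om M)) (hn : E n (om M)) :
    ∃ k, E k (om M) ∧ nle m k ∧ nle n k := by
  rcases nle_total hm hn with h | h
  · exact ⟨n, hn, h, nle_refl n⟩
  · exact ⟨m, hm, nle_refl m, h⟩

/-- strong induction -/
theorem om_strong (P : M → Prop) (hP : Def1 P)
    (h : ∀ n, E n (om M) → (∀ m, E m n → P m) → P n) : ∀ n, E n (om M) → P n := by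
  have h1 : ∀ n, E n (om M) → ∀ m, E m n → P m := by
    refine om_ind _ ?_ ?_ ?_
    · apply D.all
      apply D.imp
      · (repeat' with_reducible first
        | exact T.const _ | exact T.var0 | exact T.var1 | exact T.var2 | exact T.var3
        | exact T.var4 | exact T.var5 | exact T.var6 | exact T.var7 | exact T.var8 | assumption
        | exact D.const _ | apply D.and | apply D.or | apply D.not | apply D.iff | apply D.imp
        | apply D.ex | apply D.all | apply D.mem | apply D.eq | apply tUpair | apply tPair
        | apply tSUnion | apply dSub | apply tPow | apply tCup | apply tProd | apply tApp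
        | apply tSc | apply dInd | apply dNle | apply T.wk1 | apply T.wk2 | apply T.wk3
        | apply T.wk4 | apply T.wk5 | apply T.wk6 | apply T.wk7 | apply T.wk8)
      · exact hP _ _ T.var0
    · intro m hm; exact (mem_emp hm).elim
    · intro n hn ih m hm
      rcases mem_sc.1 hm with h' | rfl
      · exact ih m h'
      · exact h m hn ih
  intro n hn
  exact h n hn (h1 n hn)

/-! ### recursion -/

/-- `S` contains `(0, a)` and is closed under `(n, x) ↦ (n + 1, G n x)` -/
def RClosed (a : M) (G : M → M → M) (B S : M) : Prop :=
  E (pair (emp M) a) S ∧ ∀ n x, E n (om M) → E x B → E (pair n x) S → E (pair (sc n) (G n x)) S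

theorem recursion (B a : M) (G : M → M → M) (hG : TDef2 G) (ha : E a B)
    (hGB : ∀ n x, E n (om M) → E x B → E (G n x) B) :
    ∃ C : M, app C (emp M) = a ∧
      ∀ n, E n (om M) → E (app C n) B ∧ app C (sc n) = G n (app C n) := by
  have hDC : ∀ (Γ : Type u) [Ctx M Γ] (f : Γ → M), T f →
      D (M := M) (fun γ => RClosed a G B (f γ)) := by
    intro Γ _ f hf
    unfold RClosed
    apply D.and
    · (repeat' with_reducible first
      | exact T.const _ | exact T.var0 | exact T.var1 | exact T.var2 | exact T.var3
      | exact T.var4 | exact T.var5 | exact T.var6 | exact T.var7 | exact T.var8 | assumption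
      | exact D.const _ | apply D.and | apply D.or | apply D.not | apply D.iff | apply D.imp
      | apply D.ex | apply D.all | apply D.mem | apply D.eq | apply tUpair | apply tPair
      | apply tSUnion | apply dSub | apply tPow | apply tCup | apply tProd | apply tApp
      | apply tSc | apply dInd | apply dNle | apply T.wk1 | apply T.wk2 | apply T.wk3
      | apply T.wk4 | apply T.wk5 | apply T.wk6 | apply T.wk7 | apply T.wk8)
    · apply D.all
      apply D.all
      refine D.imp ?_ (D.imp ?_ (D.imp ?_ (D.mem (tPair _ _ _ ?_ (hG _ _ _ ?_ ?_)) ?_)))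
      all_goals (repeat' with_reducible first
        | exact T.const _ | exact T.var0 | exact T.var1 | exact T.var2 | exact T.var3
        | exact T.var4 | exact T.var5 | exact T.var6 | exact T.var7 | exact T.var8 | assumption
        | exact D.const _ | apply D.and | apply D.or | apply D.not | apply D.iff | apply D.imp
        | apply D.ex | apply D.all | apply D.mem | apply D.eq | apply tUpair | apply tPair
        | apply tSUnion | apply dSub | apply tPow | apply tCup | apply tProd | apply tApp
        | apply tSc | apply dInd | apply dNle | apply T.wk1 | apply T.wk2 | apply T.wk3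
        | apply T.wk4 | apply T.wk5 | apply T.wk6 | apply T.wk7 | apply T.wk8)
  have hset : IsSet (fun c => ∀ S, RClosed a G B S → E c S) := by
    refine isSet_sub (prod (om M) B) ?_ ?_
    · apply D.all
      refine D.imp (hDC _ _ T.var0) ?_
      (repeat' with_reducible first
        | exact T.const _ | exact T.var0 | exact T.var1 | exact T.var2 | exact T.var3
        | exact T.var4 | exact T.var5 | exact T.var6 | exact T.var7 | exact T.var8 | assumption
        | exact D.const _ | apply D.and | apply D.or | apply D.not | apply D.iff | apply D.imp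
        | apply D.ex | apply D.all | apply D.mem | apply D.eq | apply tUpair | apply tPair
        | apply tSUnion | apply dSub | apply tPow | apply tCup | apply tProd | apply tApp
        | apply tSc | apply dInd | apply dNle | apply T.wk1 | apply T.wk2 | apply T.wk3
        | apply T.wk4 | apply T.wk5 | apply T.wk6 | apply T.wk7 | apply T.wk8)
    · intro x hx
      refine hx _ ⟨pair_mem_prod.2 ⟨zero_mem, ha⟩, ?_⟩
      intro n x hn hx _
      exact pair_mem_prod.2 ⟨sc_mem hn, hGB n x hn hx⟩
  set C : M := cls (fun c => ∀ S, RClosed a G B S → E c S) with hCdef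
  have hC : ∀ c, E c C ↔ ∀ S, RClosed a G B S → E c S := fun c => mem_cls hset
  have hCsub : ∀ c, E c C → E c (prod (om M) B) := by
    intro c hc
    refine (hC c).1 hc _ ⟨pair_mem_prod.2 ⟨zero_mem, ha⟩, ?_⟩
    intro n x hn hx _
    exact pair_mem_prod.2 ⟨sc_mem hn, hGB n x hn hx⟩
  have hC0 : E (pair (emp M) a) C := (hC _).2 (fun S hS => hS.1)
  have hCs : ∀ n x, E (pair n x) C → E (pair (sc n) (G n x)) C := by
    intro n x h
    have h' := pair_mem_prod.1 (hCsub _ h)
    exact (hC _).2 (fun S hS => hS.2 n x h'.1 h'.2 ((hC _).1 h S hS))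
  -- inversion
  have hinv : ∀ c, E c C → (c = pair (emp M) a ∨ ∃ n x, E (pair n x) C ∧
      c = pair (sc n) (G n x)) := by
    have hset' : IsSet (fun c => E c C ∧ (c = pair (emp M) a ∨ ∃ n x, E (pair n x) C ∧
      c = pair (sc n) (G n x))) := by
      refine isSet_sub C ?_ (fun x hx => hx.1)
      refine D.and (D.mem T.var0 (T.const _)) (D.or ?_ ?_)
      · (repeat' with_reducible first
        | exact T.const _ | exact T.var0 | exact T.var1 | exact T.var2 | exact T.var3
        | exact T.var4 | exact T.var5 | exact T.var6 | exact T.var7 | exact T.var8 | assumption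
        | exact D.const _ | apply D.and | apply D.or | apply D.not | apply D.iff | apply D.imp
        | apply D.ex | apply D.all | apply D.mem | apply D.eq | apply tUpair | apply tPair
        | apply tSUnion | apply dSub | apply tPow | apply tCup | apply tProd | apply tApp
        | apply tSc | apply dInd | apply dNle | apply T.wk1 | apply T.wk2 | apply T.wk3
        | apply T.wk4 | apply T.wk5 | apply T.wk6 | apply T.wk7 | apply T.wk8)
      · apply D.ex
        apply D.ex
        refine D.and ?_ (D.eq ?_ (tPair _ _ _ ?_ (hG _ _ _ ?_ ?_)))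
        all_goals (repeat' with_reducible first
          | exact T.const _ | exact T.var0 | exact T.var1 | exact T.var2 | exact T.var3
          | exact T.var4 | exact T.var5 | exact T.var6 | exact T.var7 | exact T.var8
          | assumption | exact D.const _ | apply D.and | apply D.or | apply D.not | apply D.iff
          | apply D.imp | apply D.ex | apply D.all | apply D.mem | apply D.eq | apply tUpair
          | apply tPair | apply tSUnion | apply dSub | apply tPow | apply tCup | apply tProd
          | apply tApp | apply tSc | apply dInd | apply dNle | apply T.wk1 | apply T.wk2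
          | apply T.wk3 | apply T.wk4 | apply T.wk5 | apply T.wk6 | apply T.wk7 | apply T.wk8)
    have hcl : RClosed a G B (cls (fun c => E c C ∧ (c = pair (emp M) a ∨ ∃ n x,
        E (pair n x) C ∧ c = pair (sc n) (G n x)))) := by
      constructor
      · rw [mem_cls hset']; exact ⟨hC0, Or.inl rfl⟩
      · intro n x hn hx h
        rw [mem_cls hset'] at h ⊢
        exact ⟨hCs n x h.1, Or.inr ⟨n, x, h.1, rfl⟩⟩
    intro c hc
    have := (hC c).1 hc _ hcl
    rw [mem_cls hset'] at this
    exact this.2
  -- functionality
  have hfun : ∀ n, E n (om M) → ∃ y, E (pair n y) C ∧ ∀ y', E (pair n y') C → y' = y := by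
    refine om_ind _ ?_ ?_ ?_
    · (repeat' with_reducible first
      | exact T.const _ | exact T.var0 | exact T.var1 | exact T.var2 | exact T.var3
      | exact T.var4 | exact T.var5 | exact T.var6 | exact T.var7 | exact T.var8 | assumption
      | exact D.const _ | apply D.and | apply D.or | apply D.not | apply D.iff | apply D.imp
      | apply D.ex | apply D.all | apply D.mem | apply D.eq | apply tUpair | apply tPair
      | apply tSUnion | apply dSub | apply tPow | apply tCup | apply tProd | apply tApp
      | apply tSc | apply dInd | apply dNle | apply T.wk1 | apply T.wk2 | apply T.wk3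
      | apply T.wk4 | apply T.wk5 | apply T.wk6 | apply T.wk7 | apply T.wk8)
    · refine ⟨a, hC0, ?_⟩
      intro y' hy'
      rcases hinv _ hy' with h | ⟨n, x, _, h⟩
      · exact (pair_inj.1 h).2
      · exact (sc_ne_zero n (pair_inj.1 h).1.symm).elim
    · rintro n hn ⟨y, hy, hu⟩
      refine ⟨G n y, hCs n y hy, ?_⟩
      intro y' hy'
      rcases hinv _ hy' with h | ⟨m, x, hmx, h⟩
      · exact (sc_ne_zero n (pair_inj.1 h).1).elim
      · obtain ⟨h1, h2⟩ := pair_inj.1 h
        have hm := (pair_mem_prod.1 (hCsub _ hmx)).1
        have := sc_inj hn hm h1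
        subst this
        rw [h2, hu x hmx]
  have happ : ∀ n y, E n (om M) → E (pair n y) C → app C n = y := by
    intro n y hn h
    obtain ⟨y0, _, hu⟩ := hfun n hn
    exact app_eq h (fun y' hy' => (hu y' hy').trans (hu y h).symm)
  refine ⟨C, happ _ _ zero_mem hC0, ?_⟩
  intro n hn
  obtain ⟨y, hy, hu⟩ := hfun n hn
  rw [happ n y hn hy]
  exact ⟨(pair_mem_prod.1 (hCsub _ hy)).2, happ _ _ (sc_mem hn) (hCs n y hy)⟩

end Pool.Agent.ZFQ
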