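import Pool.Agent.ZFQ.YSpace

/-! Products inside a model of ZF, and the choice of quasi-metrics given by `CPQM`. -/

set_option linter.unusedSectionVars false
set_option linter.unusedVariables false
set_option linter.unusedTactic false
set_option linter.unreachableTactic false

namespace Pool.Agent.ZFQ

universe u

variable {M : Type u} [Z : ZFModel M]

open ZFModel

/-- `f` belongs to the product of the family `g` on `J` -/
def InProd (J g f : M) : Prop :=
  (∀ p, E p f → ∃ j x, E j J ∧ E x (app g j) ∧ p = pair j x) ∧
  ∀ j, E j J → ∃ x, E (pair j x) f ∧ ∀ x', E (pair j x') f → x' = x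

theorem dInProd {Γ : Type u} [c : Ctx M Γ] {J g f : Γ → M} (hJ : T J) (hg : T g)
    (hf : T f) : D (M := M) (fun γ => InProd (J γ) (g γ) (f γ)) := by
  unfold InProd
  (repeat' with_reducible first
    | exact T.const _ | exact T.var0 | exact T.var1 | exact T.var2 | exact T.var3
    | exact T.var4 | exact T.var5 | exact T.var6 | exact T.var7 | exact T.var8 | assumption
    | exact D.const _ | apply D.and | apply D.or | apply D.not | apply D.iff | apply D.imp
    | apply D.ex | apply D.all | apply D.mem | apply D.eq | apply tUpair | apply tPair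
    | apply tSUnion | apply dSub | apply tPow | apply tCup | apply tProd | apply tApp
    | apply tSc | apply dInd | apply dNle | apply tVal | apply tAddK | apply tHalfK
    | apply dLeK | apply dLtK | apply dEqK | apply dExK | apply dAllK | apply tHK | apply tCC
    | apply dRv | apply dTopology | apply tpQ | apply tpR | apply tpP | apply dAdm | apply dInY
    | apply tYY | apply dOpenY | apply tSig | apply dGood | apply T.wk1 | apply T.wk2
    | apply T.wk3 | apply T.wk4 | apply T.wk5 | apply T.wk6 | apply T.wk7 | apply T.wk8)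

theorem isSet_prodS (J g : M) : IsSet (InProd J g) := by
  obtain ⟨I, hI⟩ := isSet_image (fun j => app g j) J (by (repeat' with_reducible first
    | exact T.const _ | exact T.var0 | exact T.var1 | exact T.var2 | exact T.var3
    | exact T.var4 | exact T.var5 | exact T.var6 | exact T.var7 | exact T.var8 | assumption
    | exact D.const _ | apply D.and | apply D.or | apply D.not | apply D.iff | apply D.imp
    | apply D.ex | apply D.all | apply D.mem | apply D.eq | apply tUpair | apply tPair
    | apply tSUnion | apply dSub | apply tPow | apply tCup | apply tProd | apply tApp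
    | apply tSc | apply dInd | apply dNle | apply tVal | apply tAddK | apply tHalfK
    | apply dLeK | apply dLtK | apply dEqK | apply dExK | apply dAllK | apply tHK | apply tCC
    | apply dRv | apply dTopology | apply tpQ | apply tpR | apply tpP | apply dAdm | apply dInY
    | apply tYY | apply dOpenY | apply tSig | apply dGood | apply dInProd | apply T.wk1
    | apply T.wk2 | apply T.wk3 | apply T.wk4 | apply T.wk5 | apply T.wk6 | apply T.wk7
    | apply T.wk8))
  refine isSet_sub (pow (prod J (sUnion I))) ?_ ?_
  · (repeat' with_reducible first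
    | exact T.const _ | exact T.var0 | exact T.var1 | exact T.var2 | exact T.var3
    | exact T.var4 | exact T.var5 | exact T.var6 | exact T.var7 | exact T.var8 | assumption
    | exact D.const _ | apply D.and | apply D.or | apply D.not | apply D.iff | apply D.imp
    | apply D.ex | apply D.all | apply D.mem | apply D.eq | apply tUpair | apply tPair
    | apply tSUnion | apply dSub | apply tPow | apply tCup | apply tProd | apply tApp
    | apply tSc | apply dInd | apply dNle | apply tVal | apply tAddK | apply tHalfK
    | apply dLeK | apply dLtK | apply dEqK | apply dExK | apply dAllK | apply tHK | apply tCC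
    | apply dRv | apply dTopology | apply tpQ | apply tpR | apply tpP | apply dAdm | apply dInY
    | apply tYY | apply dOpenY | apply tSig | apply dGood | apply dInProd | apply T.wk1
    | apply T.wk2 | apply T.wk3 | apply T.wk4 | apply T.wk5 | apply T.wk6 | apply T.wk7
    | apply T.wk8)
  · intro f hf
    rw [mem_pow]
    intro p hp
    obtain ⟨j, x, hj, hx, rfl⟩ := hf.1 p hp
    exact pair_mem_prod.2 ⟨hj, mem_sUnion.2 ⟨_, (hI _).2 ⟨j, hj, rfl⟩, hx⟩⟩

noncomputable def prodS (J g : M) : M := cls (InProd J g)

theorem mem_prodS {J g f : M} : E f (prodS J g) ↔ InProd J g f := mem_cls (isSet_prodS J g)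

theorem InProd.app_spec {J g f j : M} (h : InProd J g f) (hj : E j J) :
    E (pair j (app f j)) f ∧ E (app f j) (app g j) ∧ ∀ x, E (pair j x) f → x = app f j := by
  obtain ⟨x, hx, hu⟩ := h.2 j hj
  have e : app f j = x := app_eq hx hu
  refine ⟨by rw [e]; exact hx, ?_, fun y hy => by rw [e]; exact hu y hy⟩
  rw [e]
  obtain ⟨j', x', _, hx', he⟩ := h.1 _ hx
  obtain ⟨rfl, rfl⟩ := pair_inj.1 he
  exact hx'

theorem InProd.ext {J g f f' : M} (h : InProd J g f) (h' : InProd J g f')
    (he : ∀ j, E j J → app f j = app f' j) : f = f' := by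
  apply ext'
  intro p
  constructor
  · intro hp
    obtain ⟨j, x, hj, hx, rfl⟩ := h.1 p hp
    rw [(h.app_spec hj).2.2 x hp, he j hj]
    exact (h'.app_spec hj).1
  · intro hp
    obtain ⟨j, x, hj, hx, rfl⟩ := h'.1 p hp
    rw [(h'.app_spec hj).2.2 x hp, ← he j hj]
    exact (h.app_spec hj).1

theorem isProduct_iff {J g P : M} {X : El Z.E J → M} (hX : ∀ j : El Z.E J, X j = app g j.1) :
    IsProduct Z.E X P ↔ ∀ f, E f P ↔ InProd J g f := by
  unfold IsProduct InProd
  refine forall_congr' fun f => ?_
  refine iff_congr Iff.rfl (and_congr ?_ ?_)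
  · refine forall_congr' fun p => imp_congr Iff.rfl ?_
    constructor
    · rintro ⟨j, x, h1, h2⟩
      exact ⟨j.1, x, j.2, by rw [← hX]; exact h2, isPair_iff.1 h1⟩
    · rintro ⟨j, x, hj, h2, h1⟩
      exact ⟨⟨j, hj⟩, x, isPair_iff.2 h1, by rw [hX]; exact h2⟩
  · constructor
    · intro h j hj
      obtain ⟨x, hx, hu⟩ := h ⟨j, hj⟩
      exact ⟨x, rel_iff.1 hx, fun y hy => hu y (rel_iff.2 hy)⟩
    · rintro h ⟨j, hj⟩
      obtain ⟨x, hx, hu⟩ := h j hj
      exact ⟨x, rel_iff.2 hx, fun y hy => hu y (rel_iff.1 hy)⟩

/-- the subbasis condition, untyped -/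
def HSub (J g P T' : M) : Prop :=
  ∀ j U, E j J → E U (app g j) → ∃ G, E G T' ∧ ∀ f, E f G ↔ (E f P ∧ E (app f j) U)

theorem dHSub {Γ : Type u} [c : Ctx M Γ] {J g P S : Γ → M} (hJ : T J) (hg : T g)
    (hP : T P) (hS : T S) : D (M := M) (fun γ => HSub (J γ) (g γ) (P γ) (S γ)) := by
  unfold HSub
  (repeat' with_reducible first
    | exact T.const _ | exact T.var0 | exact T.var1 | exact T.var2 | exact T.var3
    | exact T.var4 | exact T.var5 | exact T.var6 | exact T.var7 | exact T.var8 | assumption
    | exact D.const _ | apply D.and | apply D.or | apply D.not | apply D.iff | apply D.imp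
    | apply D.ex | apply D.all | apply D.mem | apply D.eq | apply tUpair | apply tPair
    | apply tSUnion | apply dSub | apply tPow | apply tCup | apply tProd | apply tApp
    | apply tSc | apply dInd | apply dNle | apply tVal | apply tAddK | apply tHalfK
    | apply dLeK | apply dLtK | apply dEqK | apply dExK | apply dAllK | apply tHK | apply tCC
    | apply dRv | apply dTopology | apply tpQ | apply tpR | apply tpP | apply dAdm | apply dInY
    | apply tYY | apply dOpenY | apply tSig | apply dGood | apply dInProd | apply T.wk1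
    | apply T.wk2 | apply T.wk3 | apply T.wk4 | apply T.wk5 | apply T.wk6 | apply T.wk7
    | apply T.wk8)

theorem hasSub_iff {J gX gτ P T' : M} {τ : El Z.E J → M} (hτ : ∀ j : El Z.E J, τ j = app gτ j.1)
    (hP : ∀ f, E f P → InProd J gX f) :
    HasSubbasis Z.E τ P T' ↔ HSub J gτ P T' := by
  have key : ∀ (j U f : M), E j J → ((E f P ∧ ∃ x, Rel Z.E f j x ∧ E x U) ↔
      (E f P ∧ E (app f j) U)) := by
    intro j U f hj
    refine and_congr_right fun hf => ?_
    have hs := (hP f hf).app_spec hj
    constructor
    · rintro ⟨x, hx, hxU⟩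
      rw [← hs.2.2 x (rel_iff.1 hx)]; exact hxU
    · intro h
      exact ⟨_, rel_iff.2 hs.1, h⟩
  unfold HasSubbasis HSub
  constructor
  · intro h j U hj hU
    obtain ⟨G, hG, hG'⟩ := h ⟨j, hj⟩ U (by rw [hτ]; exact hU)
    exact ⟨G, hG, fun f => (hG' f).trans (key j U f hj)⟩
  · rintro h ⟨j, hj⟩ U hU
    rw [hτ] at hU
    obtain ⟨G, hG, hG'⟩ := h j U hj hU
    exact ⟨G, hG, fun f => (hG' f).trans (key j U f hj).symm⟩

/-- the product topology -/
noncomputable def topS (J g P : M) : M :=
  cls (fun G => E G (pow P) ∧ ∀ T', IsTopology Z.E P T' → HSub J g P T' → E G T')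

theorem mem_topS {J g P G : M} : E G (topS J g P) ↔
    (E G (pow P) ∧ ∀ T', IsTopology Z.E P T' → HSub J g P T' → E G T') := by
  refine mem_cls ?_
  refine isSet_sub (pow P) ?_ (fun x hx => hx.1)
  (repeat' with_reducible first
    | exact T.const _ | exact T.var0 | exact T.var1 | exact T.var2 | exact T.var3
    | exact T.var4 | exact T.var5 | exact T.var6 | exact T.var7 | exact T.var8 | assumption
    | exact D.const _ | apply D.and | apply D.or | apply D.not | apply D.iff | apply D.imp
    | apply D.ex | apply D.all | apply D.mem | apply D.eq | apply tUpair | apply tPair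
    | apply tSUnion | apply dSub | apply tPow | apply tCup | apply tProd | apply tApp
    | apply tSc | apply dInd | apply dNle | apply tVal | apply tAddK | apply tHalfK
    | apply dLeK | apply dLtK | apply dEqK | apply dExK | apply dAllK | apply tHK | apply tCC
    | apply dRv | apply dTopology | apply tpQ | apply tpR | apply tpP | apply dAdm | apply dInY
    | apply tYY | apply dOpenY | apply tSig | apply dGood | apply dInProd | apply dHSub
    | apply T.wk1 | apply T.wk2 | apply T.wk3 | apply T.wk4 | apply T.wk5 | apply T.wk6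
    | apply T.wk7 | apply T.wk8)

theorem topS_topology (J g P : M) : IsTopology Z.E P (topS J g P) := by
  refine ⟨fun G hG => mem_pow.1 (mem_topS.1 hG).1, ?_, ?_, ?_⟩
  · rw [mem_topS]
    exact ⟨mem_pow.2 (fun x hx => hx), fun T' hT' _ => hT'.2.1⟩
  · intro A hA
    refine ⟨sUnion A, ?_, fun x => mem_sUnion⟩
    rw [mem_topS]
    constructor
    · rw [mem_pow]
      intro x hx
      obtain ⟨G, hG, hxG⟩ := mem_sUnion.1 hx
      exact mem_pow.1 (mem_topS.1 (hA G hG)).1 x hxG
    · intro T' hT' hs
      obtain ⟨U, hU, hU'⟩ := hT'.2.2.1 A (fun G hG => (mem_topS.1 (hA G hG)).2 T' hT' hs)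
      have : sUnion A = U := ext' (fun x => by rw [mem_sUnion, hU'])
      rw [this]; exact hU
  · intro G H hG hH
    have hset : IsSet (fun x => E x G ∧ E x H) := by
      refine isSet_sub G ?_ (fun x hx => hx.1)
      (repeat' with_reducible first
        | exact T.const _ | exact T.var0 | exact T.var1 | exact T.var2 | exact T.var3
        | exact T.var4 | exact T.var5 | exact T.var6 | exact T.var7 | exact T.var8 | assumption
        | exact D.const _ | apply D.and | apply D.or | apply D.not | apply D.iff | apply D.imp
        | apply D.ex | apply D.all | apply D.mem | apply D.eq | apply tUpair | apply tPair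
        | apply tSUnion | apply dSub | apply tPow | apply tCup | apply tProd | apply tApp
        | apply tSc | apply dInd | apply dNle | apply tVal | apply tAddK | apply tHalfK
        | apply dLeK | apply dLtK | apply dEqK | apply dExK | apply dAllK | apply tHK
        | apply tCC | apply dRv | apply dTopology | apply tpQ | apply tpR | apply tpP
        | apply dAdm | apply dInY | apply tYY | apply dOpenY | apply tSig | apply dGood
        | apply dInProd | apply dHSub | apply T.wk1 | apply T.wk2 | apply T.wk3 | apply T.wk4
        | apply T.wk5 | apply T.wk6 | apply T.wk7 | apply T.wk8)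
    obtain ⟨I, hI⟩ := hset
    refine ⟨I, ?_, hI⟩
    rw [mem_topS]
    constructor
    · rw [mem_pow]
      intro x hx
      exact mem_pow.1 (mem_topS.1 hG).1 x ((hI x).1 hx).1
    · intro T' hT' hs
      exact open_inter hT' ((mem_topS.1 hG).2 T' hT' hs) ((mem_topS.1 hH).2 T' hT' hs) hI

theorem topS_hsub (J g P : M) : HSub J g P (topS J g P) := by
  intro j U hj hU
  have hset : IsSet (fun f => E f P ∧ E (app f j) U) := by
    refine isSet_sub P ?_ (fun x hx => hx.1)
    (repeat' with_reducible first
      | exact T.const _ | exact T.var0 | exact T.var1 | exact T.var2 | exact T.var3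
      | exact T.var4 | exact T.var5 | exact T.var6 | exact T.var7 | exact T.var8 | assumption
      | exact D.const _ | apply D.and | apply D.or | apply D.not | apply D.iff | apply D.imp
      | apply D.ex | apply D.all | apply D.mem | apply D.eq | apply tUpair | apply tPair
      | apply tSUnion | apply dSub | apply tPow | apply tCup | apply tProd | apply tApp
      | apply tSc | apply dInd | apply dNle | apply tVal | apply tAddK | apply tHalfK
      | apply dLeK | apply dLtK | apply dEqK | apply dExK | apply dAllK | apply tHK | apply tCC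
      | apply dRv | apply dTopology | apply tpQ | apply tpR | apply tpP | apply dAdm
      | apply dInY | apply tYY | apply dOpenY | apply tSig | apply dGood | apply dInProd
      | apply dHSub | apply T.wk1 | apply T.wk2 | apply T.wk3 | apply T.wk4 | apply T.wk5
      | apply T.wk6 | apply T.wk7 | apply T.wk8)
  obtain ⟨G, hG⟩ := hset
  refine ⟨G, ?_, hG⟩
  rw [mem_topS]
  refine ⟨mem_pow.2 (fun x hx => ((hG x).1 hx).1), fun T' hT' hs => ?_⟩
  obtain ⟨G', hG', he⟩ := hs j U hj hU
  have : G = G' := ext' (fun x => by rw [hG, he])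
  rw [this]; exact hG'

/-! ### embedding a factor -/

/-- the point with `j`-th coordinate `a` and all other coordinates `s` -/
noncomputable def iota (J s j a : M) : M :=
  cls (fun p => ∃ i, E i J ∧ ((i = j ∧ p = pair i a) ∨ (i ≠ j ∧ p = pair i s)))

theorem mem_iota {J s j a p : M} : E p (iota J s j a) ↔
    ∃ i, E i J ∧ ((i = j ∧ p = pair i a) ∨ (i ≠ j ∧ p = pair i s)) := by
  refine mem_cls ?_
  refine isSet_sub (prod J (upair a s)) ?_ ?_
  · (repeat' with_reducible first
    | exact T.const _ | exact T.var0 | exact T.var1 | exact T.var2 | exact T.var3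
    | exact T.var4 | exact T.var5 | exact T.var6 | exact T.var7 | exact T.var8 | assumption
    | exact D.const _ | apply D.and | apply D.or | apply D.not | apply D.iff | apply D.imp
    | apply D.ex | apply D.all | apply D.mem | apply D.eq | apply tUpair | apply tPair
    | apply tSUnion | apply dSub | apply tPow | apply tCup | apply tProd | apply tApp
    | apply tSc | apply dInd | apply dNle | apply tVal | apply tAddK | apply tHalfK
    | apply dLeK | apply dLtK | apply dEqK | apply dExK | apply dAllK | apply tHK | apply tCC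
    | apply dRv | apply dTopology | apply tpQ | apply tpR | apply tpP | apply dAdm | apply dInY
    | apply tYY | apply dOpenY | apply tSig | apply dGood | apply dInProd | apply dHSub
    | apply T.wk1 | apply T.wk2 | apply T.wk3 | apply T.wk4 | apply T.wk5 | apply T.wk6
    | apply T.wk7 | apply T.wk8)
  · rintro p ⟨i, hi, ⟨_, rfl⟩ | ⟨_, rfl⟩⟩
    · exact pair_mem_prod.2 ⟨hi, mem_upair.2 (Or.inl rfl)⟩
    · exact pair_mem_prod.2 ⟨hi, mem_upair.2 (Or.inr rfl)⟩

theorem tIota {Γ : Type u} [c : Ctx M Γ] {J s j a : Γ → M} (hJ : T J) (hs : T s)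
    (hj : T j) (ha : T a) : T (fun γ => iota (J γ) (s γ) (j γ) (a γ)) := by
  refine T.of_mem_iff (Φ := fun γ p => ∃ i, E i (J γ) ∧ ((i = j γ ∧ p = pair i (a γ)) ∨
    (i ≠ j γ ∧ p = pair i (s γ)))) (fun γ z => mem_iota) ?_
  (repeat' with_reducible first
    | exact T.const _ | exact T.var0 | exact T.var1 | exact T.var2 | exact T.var3
    | exact T.var4 | exact T.var5 | exact T.var6 | exact T.var7 | exact T.var8 | assumption
    | exact D.const _ | apply D.and | apply D.or | apply D.not | apply D.iff | apply D.imp
    | apply D.ex | apply D.all | apply D.mem | apply D.eq | apply tUpair | apply tPair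
    | apply tSUnion | apply dSub | apply tPow | apply tCup | apply tProd | apply tApp
    | apply tSc | apply dInd | apply dNle | apply tVal | apply tAddK | apply tHalfK
    | apply dLeK | apply dLtK | apply dEqK | apply dExK | apply dAllK | apply tHK | apply tCC
    | apply dRv | apply dTopology | apply tpQ | apply tpR | apply tpP | apply dAdm | apply dInY
    | apply tYY | apply dOpenY | apply tSig | apply dGood | apply dInProd | apply dHSub
    | apply T.wk1 | apply T.wk2 | apply T.wk3 | apply T.wk4 | apply T.wk5 | apply T.wk6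
    | apply T.wk7 | apply T.wk8)

theorem iota_app_self {J s j a : M} (hj : E j J) : app (iota J s j a) j = a := by
  apply app_eq
  · exact mem_iota.2 ⟨j, hj, Or.inl ⟨rfl, rfl⟩⟩
  · intro y hy
    obtain ⟨i, _, ⟨_, h⟩ | ⟨h1, h2⟩⟩ := mem_iota.1 hy
    · exact (pair_inj.1 h).2
    · exact (h1 (pair_inj.1 h2).1.symm).elim

theorem iota_app_ne {J s j a i : M} (hi : E i J) (hij : i ≠ j) : app (iota J s j a) i = s := by
  apply app_eq
  · exact mem_iota.2 ⟨i, hi, Or.inr ⟨hij, rfl⟩⟩
  · intro y hy
    obtain ⟨i', _, ⟨h1, h⟩ | ⟨h1, h2⟩⟩ := mem_iota.1 hy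
    · exact (hij ((pair_inj.1 h).1.trans h1)).elim
    · exact (pair_inj.1 h2).2

theorem iota_mem {J g s j a : M} (hs : ∀ i, E i J → E s (app g i)) (hj : E j J)
    (ha : E a (app g j)) : E (iota J s j a) (prodS J g) := by
  rw [mem_prodS]
  constructor
  · intro p hp
    obtain ⟨i, hi, ⟨rfl, rfl⟩ | ⟨_, rfl⟩⟩ := mem_iota.1 hp
    · exact ⟨i, a, hi, ha, rfl⟩
    · exact ⟨i, s, hi, hs i hi, rfl⟩
  · intro i hi
    by_cases h : i = j
    · subst h
      refine ⟨a, mem_iota.2 ⟨i, hi, Or.inl ⟨rfl, rfl⟩⟩, ?_⟩
      intro y hy
      obtain ⟨i', _, ⟨_, h⟩ | ⟨h1, h2⟩⟩ := mem_iota.1 hy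
      · exact (pair_inj.1 h).2
      · exact (h1 (pair_inj.1 h2).1.symm).elim
    · refine ⟨s, mem_iota.2 ⟨i, hi, Or.inr ⟨h, rfl⟩⟩, ?_⟩
      intro y hy
      obtain ⟨i', _, ⟨h1, h'⟩ | ⟨h1, h2⟩⟩ := mem_iota.1 hy
      · exact (h ((pair_inj.1 h').1.trans h1)).elim
      · exact (pair_inj.1 h2).2

/-- the sets with open sections -/
theorem section_open {J gY gs s : M} (hs : ∀ i, E i J → E s (app gY i))
    (htop : ∀ j, E j J → IsTopology Z.E (app gY j) (app gs j)) {G : M}
    (hG : E G (topS J gs (prodS J gY))) : ∀ j, E j J →
    ∃ S, E S (app gs j) ∧ ∀ a, E a S ↔ (E a (app gY j) ∧ E (iota J s j a) G) := by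
  have hset : IsSet (fun G => E G (pow (prodS J gY)) ∧ ∀ j, E j J →
      ∃ S, E S (app gs j) ∧ ∀ a, E a S ↔ (E a (app gY j) ∧ E (iota J s j a) G)) := by
    refine isSet_sub (pow (prodS J gY)) ?_ (fun x hx => hx.1)
    (repeat' with_reducible first
      | exact T.const _ | exact T.var0 | exact T.var1 | exact T.var2 | exact T.var3
      | exact T.var4 | exact T.var5 | exact T.var6 | exact T.var7 | exact T.var8 | assumption
      | exact D.const _ | apply D.and | apply D.or | apply D.not | apply D.iff | apply D.imp
      | apply D.ex | apply D.all | apply D.mem | apply D.eq | apply tUpair | apply tPair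
      | apply tSUnion | apply dSub | apply tPow | apply tCup | apply tProd | apply tApp
      | apply tSc | apply dInd | apply dNle | apply tVal | apply tAddK | apply tHalfK
      | apply dLeK | apply dLtK | apply dEqK | apply dExK | apply dAllK | apply tHK | apply tCC
      | apply dRv | apply dTopology | apply tpQ | apply tpR | apply tpP | apply dAdm
      | apply dInY | apply tYY | apply dOpenY | apply tSig | apply dGood | apply dInProd
      | apply dHSub | apply tIota | apply T.wk1 | apply T.wk2 | apply T.wk3 | apply T.wk4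
      | apply T.wk5 | apply T.wk6 | apply T.wk7 | apply T.wk8)
  obtain ⟨T', hT'⟩ := hset
  have h1 : IsTopology Z.E (prodS J gY) T' := by
    refine ⟨fun G hG => mem_pow.1 ((hT' G).1 hG).1, ?_, ?_, ?_⟩
    · rw [hT']
      refine ⟨mem_pow.2 (fun x hx => hx), fun j hj => ⟨app gY j, (htop j hj).2.1, fun a => ?_⟩⟩
      exact ⟨fun ha => ⟨ha, iota_mem hs hj ha⟩, fun h => h.1⟩
    · intro A hA
      refine ⟨sUnion A, ?_, fun x => mem_sUnion⟩
      rw [hT']
      refine ⟨mem_pow.2 (fun x hx => ?_), fun j hj => ?_⟩
      · obtain ⟨G, hG, hxG⟩ := mem_sUnion.1 hx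
        exact mem_pow.1 ((hT' G).1 (hA G hG)).1 x hxG
      · have hset' : IsSet (fun a => E a (app gY j) ∧ E (iota J s j a) (sUnion A)) := by
          refine isSet_sub (app gY j) ?_ (fun x hx => hx.1)
          (repeat' with_reducible first
            | exact T.const _ | exact T.var0 | exact T.var1 | exact T.var2 | exact T.var3
            | exact T.var4 | exact T.var5 | exact T.var6 | exact T.var7 | exact T.var8
            | assumption | exact D.const _ | apply D.and | apply D.or | apply D.not
            | apply D.iff | apply D.imp | apply D.ex | apply D.all | apply D.mem | apply D.eq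
            | apply tUpair | apply tPair | apply tSUnion | apply dSub | apply tPow | apply tCup
            | apply tProd | apply tApp | apply tSc | apply dInd | apply dNle | apply tVal
            | apply tAddK | apply tHalfK | apply dLeK | apply dLtK | apply dEqK | apply dExK
            | apply dAllK | apply tHK | apply tCC | apply dRv | apply dTopology | apply tpQ
            | apply tpR | apply tpP | apply dAdm | apply dInY | apply tYY | apply dOpenY
            | apply tSig | apply dGood | apply dInProd | apply dHSub | apply tIota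
            | apply T.wk1 | apply T.wk2 | apply T.wk3 | apply T.wk4 | apply T.wk5 | apply T.wk6
            | apply T.wk7 | apply T.wk8)
        obtain ⟨S, hS⟩ := hset'
        refine ⟨S, ?_, hS⟩
        apply open_of_local (htop j hj)
        intro a ha
        obtain ⟨haY, haU⟩ := (hS a).1 ha
        obtain ⟨G, hG, haG⟩ := mem_sUnion.1 haU
        obtain ⟨S', hS', hS''⟩ := ((hT' G).1 (hA G hG)).2 j hj
        refine ⟨S', hS', (hS'' a).2 ⟨haY, haG⟩, fun b hb => ?_⟩
        obtain ⟨hb1, hb2⟩ := (hS'' b).1 hb
        exact (hS b).2 ⟨hb1, mem_sUnion.2 ⟨G, hG, hb2⟩⟩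
    · intro G H hG hH
      have hset' : IsSet (fun x => E x G ∧ E x H) := by
        refine isSet_sub G ?_ (fun x hx => hx.1)
        (repeat' with_reducible first
          | exact T.const _ | exact T.var0 | exact T.var1 | exact T.var2 | exact T.var3
          | exact T.var4 | exact T.var5 | exact T.var6 | exact T.var7 | exact T.var8
          | assumption | exact D.const _ | apply D.and | apply D.or | apply D.not | apply D.iff
          | apply D.imp | apply D.ex | apply D.all | apply D.mem | apply D.eq | apply tUpair
          | apply tPair | apply tSUnion | apply dSub | apply tPow | apply tCup | apply tProd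
          | apply tApp | apply tSc | apply dInd | apply dNle | apply tVal | apply tAddK
          | apply tHalfK | apply dLeK | apply dLtK | apply dEqK | apply dExK | apply dAllK
          | apply tHK | apply tCC | apply dRv | apply dTopology | apply tpQ | apply tpR
          | apply tpP | apply dAdm | apply dInY | apply tYY | apply dOpenY | apply tSig
          | apply dGood | apply dInProd | apply dHSub | apply tIota | apply T.wk1 | apply T.wk2
          | apply T.wk3 | apply T.wk4 | apply T.wk5 | apply T.wk6 | apply T.wk7 | apply T.wk8)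
      obtain ⟨I, hI⟩ := hset'
      refine ⟨I, ?_, hI⟩
      rw [hT']
      refine ⟨mem_pow.2 (fun x hx => mem_pow.1 ((hT' G).1 hG).1 x ((hI x).1 hx).1),
        fun j hj => ?_⟩
      obtain ⟨S1, hS1, h1⟩ := ((hT' G).1 hG).2 j hj
      obtain ⟨S2, hS2, h2⟩ := ((hT' H).1 hH).2 j hj
      obtain ⟨S, hS, h3⟩ := (htop j hj).2.2.2 S1 S2 hS1 hS2
      refine ⟨S, hS, fun a => ?_⟩
      rw [h3, h1, h2, hI]
      tauto
  have h2 : HSub J gs (prodS J gY) T' := by
    intro i U hi hU
    have hset' : IsSet (fun f => E f (prodS J gY) ∧ E (app f i) U) := by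
      refine isSet_sub (prodS J gY) ?_ (fun x hx => hx.1)
      (repeat' with_reducible first
        | exact T.const _ | exact T.var0 | exact T.var1 | exact T.var2 | exact T.var3
        | exact T.var4 | exact T.var5 | exact T.var6 | exact T.var7 | exact T.var8 | assumption
        | exact D.const _ | apply D.and | apply D.or | apply D.not | apply D.iff | apply D.imp
        | apply D.ex | apply D.all | apply D.mem | apply D.eq | apply tUpair | apply tPair
        | apply tSUnion | apply dSub | apply tPow | apply tCup | apply tProd | apply tApp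
        | apply tSc | apply dInd | apply dNle | apply tVal | apply tAddK | apply tHalfK
        | apply dLeK | apply dLtK | apply dEqK | apply dExK | apply dAllK | apply tHK
        | apply tCC | apply dRv | apply dTopology | apply tpQ | apply tpR | apply tpP
        | apply dAdm | apply dInY | apply tYY | apply dOpenY | apply tSig | apply dGood
        | apply dInProd | apply dHSub | apply tIota | apply T.wk1 | apply T.wk2 | apply T.wk3
        | apply T.wk4 | apply T.wk5 | apply T.wk6 | apply T.wk7 | apply T.wk8)
    obtain ⟨G, hG⟩ : ∃ G, ∀ f, E f G ↔ (E f (prodS J gY) ∧ E (app f i) U) := hset'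
    refine ⟨G, ?_, hG⟩
    rw [hT']
    refine ⟨mem_pow.2 (fun x hx => ((hG x).1 hx).1), fun j hj => ?_⟩
    by_cases hij : i = j
    · subst hij
      refine ⟨U, hU, fun a => ?_⟩
      rw [hG, iota_app_self hj]
      constructor
      · intro h
        have := (htop i hi).1 U hU a h
        exact ⟨this, iota_mem hs hj this, h⟩
      · intro h; exact h.2.2
    · by_cases hsU : E s U
      · refine ⟨app gY j, (htop j hj).2.1, fun a => ?_⟩
        rw [hG, iota_app_ne hi hij]
        exact ⟨fun h => ⟨h, iota_mem hs hj h, hsU⟩, fun h => h.1⟩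
      · refine ⟨emp M, topology_empty (htop j hj), fun a => ?_⟩
        rw [hG, iota_app_ne hi hij]
        exact ⟨fun h => (mem_emp h).elim, fun h => (hsU h.2.2).elim⟩
  exact ((hT' G).1 ((mem_topS.1 hG).2 T' h1 h2)).2

/-- families given by a set function -/
theorem isFamily_app {J g : M} : IsFamily Z.E (fun j : El Z.E J => app g j.1) := by
  refine ⟨lam J (fun j => app g j), fun j y => ?_⟩
  rw [rel_iff, pair_mem_lam (by (repeat' with_reducible first
    | exact T.const _ | exact T.var0 | exact T.var1 | exact T.var2 | exact T.var3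
    | exact T.var4 | exact T.var5 | exact T.var6 | exact T.var7 | exact T.var8 | assumption
    | exact D.const _ | apply D.and | apply D.or | apply D.not | apply D.iff | apply D.imp
    | apply D.ex | apply D.all | apply D.mem | apply D.eq | apply tUpair | apply tPair
    | apply tSUnion | apply dSub | apply tPow | apply tCup | apply tProd | apply tApp
    | apply tSc | apply dInd | apply dNle | apply tVal | apply tAddK | apply tHalfK
    | apply dLeK | apply dLtK | apply dEqK | apply dExK | apply dAllK | apply tHK | apply tCC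
    | apply dRv | apply dTopology | apply tpQ | apply tpR | apply tpP | apply dAdm | apply dInY
    | apply tYY | apply dOpenY | apply tSig | apply dGood | apply dInProd | apply dHSub
    | apply tIota | apply T.wk1 | apply T.wk2 | apply T.wk3 | apply T.wk4 | apply T.wk5
    | apply T.wk6 | apply T.wk7 | apply T.wk8))]
  constructor
  · rintro ⟨_, h⟩; exact h.symm
  · intro h; exact ⟨j.2, h.symm⟩

theorem family_app {J : M} {F : El Z.E J → M} (h : IsFamily Z.E F) :
    ∃ g : M, ∀ j : El Z.E J, F j = app g j.1 := by
  obtain ⟨g, hg⟩ := h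
  refine ⟨g, fun j => ?_⟩
  symm
  apply app_eq
  · exact rel_iff.1 ((hg j _).2 rfl)
  · intro y hy
    exact ((hg j y).1 (rel_iff.2 hy)).symm

variable (𝓡 : RealLine Z.E)

theorem qm_topology {X τ : M} (h : QuasiMetrizable 𝓡 X τ) : IsTopology Z.E X τ := by
  obtain ⟨ρ, hρ⟩ := h
  obtain ⟨v, hv, h1, _⟩ := exists_normal 𝓡 ρ
  exact (h1 τ hρ).isTopology hv.qbase

/-- `CPQM` gives a uniform choice of normal sequences -/
theorem choice (hC : CPQM 𝓡) {J : M} (hJ : IsCountable Z.E J) (gY gs s : M)
    (hs : ∀ j, E j J → E s (app gY j))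
    (hq : ∀ j, E j J → QuasiMetrizable 𝓡 (app gY j) (app gs j)) :
    ∃ w : M, (∀ j, E j J → QBase (app gY j)
        (fun k a b => rv w k (iota J s j a) (iota J s j b))) ∧
      (∀ j, E j J → ∀ a, E a (app gY j) → ∀ k, E k (om M) → ∃ S, E S (app gs j) ∧ E a S ∧
        ∀ b, E b S → rv w k (iota J s j a) (iota J s j b)) ∧
      (∀ j, E j J → ∀ S, E S (app gs j) → ∀ a, E a S → ∃ k, E k (om M) ∧
        ∀ b, E b (app gY j) → rv w k (iota J s j a) (iota J s j b) → E b S) := by
  have htop : ∀ j, E j J → IsTopology Z.E (app gY j) (app gs j) :=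
    fun j hj => qm_topology 𝓡 (hq j hj)
  have hPT : QuasiMetrizable 𝓡 (prodS J gY) (topS J gs (prodS J gY)) := by
    refine hC J hJ (fun j => app gY j.1) (fun j => app gs j.1) isFamily_app isFamily_app
      (fun j => hq j.1 j.2) _ _ ((isProduct_iff (fun j => rfl)).2 (fun f => mem_prodS)) ?_
    have hP : ∀ f, E f (prodS J gY) → InProd J gY f := fun f hf => mem_prodS.1 hf
    refine ⟨topS_topology _ _ _, ?_, ?_⟩
    · rw [hasSub_iff (gτ := gs) (fun j => rfl) hP]
      exact topS_hsub _ _ _
    · intro T' hT' hsub G hG
      rw [hasSub_iff (gτ := gs) (fun j => rfl) hP] at hsub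
      exact (mem_topS.1 hG).2 T' hT' hsub
  obtain ⟨ρ, hρ⟩ := hPT
  obtain ⟨w, hw, h1, _⟩ := exists_normal 𝓡 ρ
  have hgen := h1 _ hρ
  refine ⟨w, ?_, ?_, ?_⟩
  · intro j hj
    refine ⟨?_, ?_, ?_⟩
    · intro Γ _ f g h hf hg hh
      (repeat' with_reducible first
        | exact T.const _ | exact T.var0 | exact T.var1 | exact T.var2 | exact T.var3
        | exact T.var4 | exact T.var5 | exact T.var6 | exact T.var7 | exact T.var8 | assumption
        | exact D.const _ | apply D.and | apply D.or | apply D.not | apply D.iff | apply D.imp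
        | apply D.ex | apply D.all | apply D.mem | apply D.eq | apply tUpair | apply tPair
        | apply tSUnion | apply dSub | apply tPow | apply tCup | apply tProd | apply tApp
        | apply tSc | apply dInd | apply dNle | apply tVal | apply tAddK | apply tHalfK
        | apply dLeK | apply dLtK | apply dEqK | apply dExK | apply dAllK | apply tHK
        | apply tCC | apply dRv | apply dTopology | apply tpQ | apply tpR | apply tpP
        | apply dAdm | apply dInY | apply tYY | apply dOpenY | apply tSig | apply dGood
        | apply dInProd | apply dHSub | apply tIota | apply T.wk1 | apply T.wk2 | apply T.wk3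
        | apply T.wk4 | apply T.wk5 | apply T.wk6 | apply T.wk7 | apply T.wk8)
    · intro k x hk hx
      exact hw.refl k _ hk (iota_mem hs hj hx)
    · intro k x y z hk hx hy hz e1 e2
      exact hw.comp k _ _ _ hk e1 e2
  · intro j hj a ha k hk
    obtain ⟨G, hG, haG, hG'⟩ := hw.qbase.exists_open hgen (iota_mem hs hj ha) hk
    obtain ⟨S, hS, hS'⟩ := section_open hs htop hG j hj
    exact ⟨S, hS, (hS' a).2 ⟨ha, haG⟩, fun b hb => hG' _ ((hS' b).1 hb).2⟩
  · intro j hj S hS a ha
    obtain ⟨G, hG, hG'⟩ := topS_hsub J gs (prodS J gY) j S hj hS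
    have haY := (htop j hj).1 S hS a ha
    have haG : E (iota J s j a) G := (hG' _).2 ⟨iota_mem hs hj haY, by
      rw [iota_app_self hj]; exact ha⟩
    obtain ⟨k, hk, hk'⟩ := ((hgen G).1 hG).2 _ haG
    refine ⟨k, hk, fun b hb hV => ?_⟩
    have := ((hG' _).1 (hk' _ (iota_mem hs hj hb) hV)).2
    rwa [iota_app_self hj] at this

end Pool.Agent.ZFQ
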