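import Pool.Agent.ZFQ.Nat

/-! The real line of a model of ZF. -/

set_option linter.unusedSectionVars false
set_option linter.unusedVariables false
set_option linter.unusedTactic false
set_option linter.unreachableTactic false

namespace Pool.Agent.ZFQ

universe u

variable {M : Type u} [Z : ZFModel M]

open ZFModel

theorem isPair_iff {p x y : M} : IsPair Z.E p x y ↔ p = pair x y := by
  have key : ∀ z : M, ((∀ t, E t z ↔ t = x) ∨ (∀ t, E t z ↔ (t = x ∨ t = y))) ↔
      E z (pair x y) := by
    intro z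
    unfold pair
    rw [mem_upair]
    refine or_congr ?_ ?_
    · constructor
      · intro h; apply ext'; intro t; rw [h, mem_upair]; tauto
      · rintro rfl t; rw [mem_upair]; tauto
    · constructor
      · intro h; apply ext'; intro t; rw [h, mem_upair]
      · rintro rfl t; rw [mem_upair]
  constructor
  · intro h; apply ext'; intro z; rw [h z, key]
  · rintro rfl z; exact (key z).symm

theorem rel_iff {f x y : M} : Rel Z.E f x y ↔ E (pair x y) f := by
  unfold Rel
  constructor
  · rintro ⟨p, hp, h⟩; rw [isPair_iff] at hp; subst hp; exact h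
  · intro h; exact ⟨_, isPair_iff.2 rfl, h⟩

theorem rel2_iff {f x y z : M} : Rel2 Z.E f x y z ↔ E (pair (pair x y) z) f := by
  unfold Rel2
  constructor
  · rintro ⟨p, hp, h⟩; rw [isPair_iff] at hp; subst hp; exact rel_iff.1 h
  · intro h; exact ⟨_, isPair_iff.2 rfl, rel_iff.2 h⟩

variable (𝓡 : RealLine Z.E)

open Classical in
/-- a total function onto the real line -/
noncomputable def val (x : M) : El Z.E 𝓡.R := if h : E x 𝓡.R then ⟨x, h⟩ else 0

theorem val_coe (x : El Z.E 𝓡.R) : val 𝓡 x.1 = x := by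
  unfold val; rw [dif_pos x.2]

theorem coe_val {x : M} (h : E x 𝓡.R) : (val 𝓡 x).1 = x := by
  unfold val; rw [dif_pos h]

section
variable {Γ : Type u} [c : Ctx M Γ]

theorem tVal {f : Γ → M} (hf : T f) : T (fun γ => (val 𝓡 (f γ)).1) := by
  refine T.of_eq_iff (Φ := fun γ z => (E (f γ) 𝓡.R ∧ z = f γ) ∨
    (¬ E (f γ) 𝓡.R ∧ z = (0 : El Z.E 𝓡.R).1)) ?_ ?_
  · intro γ z
    by_cases h : E (f γ) 𝓡.R
    · rw [coe_val 𝓡 h]; simp [h]
    · have : val 𝓡 (f γ) = 0 := by unfold val; rw [dif_neg h]
      rw [this]; simp [h]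
  · (repeat' with_reducible first
    | exact T.const _ | exact T.var0 | exact T.var1 | exact T.var2 | exact T.var3
    | exact T.var4 | exact T.var5 | exact T.var6 | exact T.var7 | exact T.var8 | assumption
    | exact D.const _ | apply D.and | apply D.or | apply D.not | apply D.iff | apply D.imp
    | apply D.ex | apply D.all | apply D.mem | apply D.eq | apply tUpair | apply tPair
    | apply tSUnion | apply dSub | apply tPow | apply tCup | apply tProd | apply tApp
    | apply tSc | apply dInd | apply dNle | apply T.wk1 | apply T.wk2 | apply T.wk3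
    | apply T.wk4 | apply T.wk5 | apply T.wk6 | apply T.wk7 | apply T.wk8)

theorem tAddK {f g : Γ → El Z.E 𝓡.R} (hf : T (fun γ => (f γ).1)) (hg : T (fun γ => (g γ).1)) :
    T (fun γ => (f γ + g γ).1) := by
  obtain ⟨a, ha⟩ := 𝓡.add_mem
  refine T.of_eq_iff (Φ := fun γ z => E z 𝓡.R ∧ E (pair (pair (f γ).1 (g γ).1) z) a) ?_ ?_
  · intro γ z
    constructor
    · rintro rfl
      exact ⟨(f γ + g γ).2, rel2_iff.1 ((ha _ _ _).2 rfl)⟩
    · rintro ⟨hz, h⟩
      have := (ha (f γ) (g γ) ⟨z, hz⟩).1 (rel2_iff.2 h)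
      rw [this]
  · refine D.and (D.mem T.var0 (T.const _)) (D.mem (tPair _ _ _ (tPair _ _ _ ?_ ?_) T.var0)
      (T.const _))
    · exact T.wk1 hf
    · exact T.wk1 hg

theorem tMulK {f g : Γ → El Z.E 𝓡.R} (hf : T (fun γ => (f γ).1)) (hg : T (fun γ => (g γ).1)) :
    T (fun γ => (f γ * g γ).1) := by
  obtain ⟨a, ha⟩ := 𝓡.mul_mem
  refine T.of_eq_iff (Φ := fun γ z => E z 𝓡.R ∧ E (pair (pair (f γ).1 (g γ).1) z) a) ?_ ?_
  · intro γ z
    constructor
    · rintro rfl
      exact ⟨(f γ * g γ).2, rel2_iff.1 ((ha _ _ _).2 rfl)⟩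
    · rintro ⟨hz, h⟩
      have := (ha (f γ) (g γ) ⟨z, hz⟩).1 (rel2_iff.2 h)
      rw [this]
  · refine D.and (D.mem T.var0 (T.const _)) (D.mem (tPair _ _ _ (tPair _ _ _ ?_ ?_) T.var0)
      (T.const _))
    · exact T.wk1 hf
    · exact T.wk1 hg

theorem tHalfK {f : Γ → El Z.E 𝓡.R} (hf : T (fun γ => (f γ).1)) :
    T (fun γ => (f γ / 2).1) := by
  have h := tMulK 𝓡 (g := fun _ => (2 : El Z.E 𝓡.R)⁻¹) hf (T.const _)
  have e : (fun γ => (f γ / 2).1) = (fun γ => (f γ * (2 : El Z.E 𝓡.R)⁻¹).1) := by
    funext γ; rw [div_eq_mul_inv]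
  rw [e]; exact h

theorem dLeK {f g : Γ → El Z.E 𝓡.R} (hf : T (fun γ => (f γ).1)) (hg : T (fun γ => (g γ).1)) :
    D (M := M) (fun γ => f γ ≤ g γ) := by
  obtain ⟨a, ha⟩ := 𝓡.le_mem
  refine (D.mem (tPair _ _ _ hf hg) (T.const a)).congr (fun γ => ?_)
  rw [← rel_iff, ha]

theorem dLtK {f g : Γ → El Z.E 𝓡.R} (hf : T (fun γ => (f γ).1)) (hg : T (fun γ => (g γ).1)) :
    D (M := M) (fun γ => f γ < g γ) :=
  (D.not (dLeK 𝓡 hg hf)).congr (fun γ => not_le)

theorem dEqK {f g : Γ → El Z.E 𝓡.R} (hf : T (fun γ => (f γ).1)) (hg : T (fun γ => (g γ).1)) :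
    D (M := M) (fun γ => f γ = g γ) :=
  (D.eq hf hg).congr (fun γ => Subtype.ext_iff.symm)

theorem dExK {P : Γ → El Z.E 𝓡.R → Prop}
    (h : D (M := M) (fun p : Γ × M => P p.1 (val 𝓡 p.2))) : D (M := M) (fun γ => ∃ t, P γ t) :=
  (D.ex (P := fun γ t => P γ (val 𝓡 t)) h).congr (fun γ => by
    constructor
    · rintro ⟨t, ht⟩; exact ⟨_, ht⟩
    · rintro ⟨t, ht⟩; exact ⟨t.1, by rw [val_coe]; exact ht⟩)

theorem dAllK {P : Γ → El Z.E 𝓡.R → Prop}
    (h : D (M := M) (fun p : Γ × M => P p.1 (val 𝓡 p.2))) : D (M := M) (fun γ => ∀ t, P γ t) :=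
  (D.all (P := fun γ t => P γ (val 𝓡 t)) h).congr (fun γ => by
    constructor
    · intro H t; have := H t.1; rwa [val_coe] at this
    · intro H t; exact H _)

end

theorem exists_glb (P : M → Prop) (hP : D (M := M) (fun p : PUnit.{u+1} × M => P p.2))
    (hne : ∃ x : El Z.E 𝓡.R, P x) (hb : ∃ b : El Z.E 𝓡.R, ∀ x : El Z.E 𝓡.R, P x → b ≤ x) :
    ∃ c : El Z.E 𝓡.R, IsGLB {x : El Z.E 𝓡.R | P x} c := by
  have hP' : D (M := M) (fun q : (PUnit.{u+1} × M) × M => P q.2) :=
    D.ren (ρ := fun q : (PUnit.{u+1} × M) × M => ((q.1.1, q.2) : PUnit.{u+1} × M))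
      (Ren.lift Ren.fst) hP
  have hset : IsSet (fun b : M => E b 𝓡.R ∧ ∀ x, E x 𝓡.R → P x → val 𝓡 b ≤ val 𝓡 x) := by
    refine isSet_sub 𝓡.R ?_ (fun x hx => hx.1)
    refine D.and ?_ (D.all (D.imp ?_ (D.imp hP' ?_)))
    all_goals (repeat' with_reducible first
      | exact T.const _ | exact T.var0 | exact T.var1 | exact T.var2 | exact T.var3
      | exact T.var4 | exact T.var5 | exact T.var6 | exact T.var7 | exact T.var8 | assumption
      | exact D.const _ | apply D.and | apply D.or | apply D.not | apply D.iff | apply D.imp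
      | apply D.ex | apply D.all | apply D.mem | apply D.eq | apply tUpair | apply tPair
      | apply tSUnion | apply dSub | apply tPow | apply tCup | apply tProd | apply tApp
      | apply tSc | apply dInd | apply dNle | apply tVal | apply tAddK | apply tHalfK
      | apply dLeK | apply dLtK | apply dEqK | apply dExK | apply dAllK | apply T.wk1
      | apply T.wk2 | apply T.wk3 | apply T.wk4 | apply T.wk5 | apply T.wk6 | apply T.wk7
      | apply T.wk8)
  set s : M := cls (fun b : M => E b 𝓡.R ∧ ∀ x, E x 𝓡.R → P x → val 𝓡 b ≤ val 𝓡 x) with hs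
  have hms : ∀ b : El Z.E 𝓡.R, E b.1 s ↔ ∀ x : El Z.E 𝓡.R, P x → b ≤ x := by
    intro b
    rw [hs, mem_cls hset]
    constructor
    · rintro ⟨_, h⟩ x hx
      have := h x.1 x.2 hx
      rwa [val_coe, val_coe] at this
    · intro h
      refine ⟨b.2, fun x hx hPx => ?_⟩
      rw [val_coe]
      refine h _ ?_
      rw [coe_val 𝓡 hx]; exact hPx
  obtain ⟨c, hc⟩ := 𝓡.complete s (fun x hx => ((mem_cls hset).1 hx).1)
    (by obtain ⟨b, hb⟩ := hb; exact ⟨b.1, (hms b).2 hb⟩)
    (by obtain ⟨x, hx⟩ := hne; exact ⟨x, fun b hb => (hms b).1 hb x hx⟩)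
  refine ⟨c, ?_, ?_⟩
  · intro x hx
    exact hc.2 (fun b hb => (hms b).1 hb x hx)
  · intro b hb
    exact hc.1 ((hms b).2 (fun x hx => hb hx))

theorem exists_hh : ∃ C : M, app C (emp M) = (1 : El Z.E 𝓡.R).1 ∧
    ∀ n, E n (om M) → E (app C n) 𝓡.R ∧ app C (sc n) = (val 𝓡 (app C n) / 2).1 :=
  recursion 𝓡.R (1 : El Z.E 𝓡.R).1 (fun n x => (val 𝓡 x / 2).1)
    (by
      intro Γ _ f g hf hg
      (repeat' with_reducible first
        | exact T.const _ | exact T.var0 | exact T.var1 | exact T.var2 | exact T.var3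
        | exact T.var4 | exact T.var5 | exact T.var6 | exact T.var7 | exact T.var8 | assumption
        | exact D.const _ | apply D.and | apply D.or | apply D.not | apply D.iff | apply D.imp
        | apply D.ex | apply D.all | apply D.mem | apply D.eq | apply tUpair | apply tPair
        | apply tSUnion | apply dSub | apply tPow | apply tCup | apply tProd | apply tApp
        | apply tSc | apply dInd | apply dNle | apply tVal | apply tAddK | apply tHalfK
        | apply dLeK | apply dLtK | apply dEqK | apply dExK | apply dAllK | apply T.wk1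
        | apply T.wk2 | apply T.wk3 | apply T.wk4 | apply T.wk5 | apply T.wk6 | apply T.wk7
        | apply T.wk8)) (1 : El Z.E 𝓡.R).2 (fun n x _ _ => (val 𝓡 x / 2).2)

/-- the sequence `2⁻ⁿ` as an element of the model -/
noncomputable def hh : M := Classical.choose (exists_hh 𝓡)

/-- `2⁻ⁿ` -/
noncomputable def hK (n : M) : El Z.E 𝓡.R := val 𝓡 (app (hh 𝓡) n)

theorem tHK {Γ : Type u} [c : Ctx M Γ] {f : Γ → M} (hf : T f) : T (fun γ => (hK 𝓡 (f γ)).1) := by
  unfold hK
  (repeat' with_reducible first
    | exact T.const _ | exact T.var0 | exact T.var1 | exact T.var2 | exact T.var3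
    | exact T.var4 | exact T.var5 | exact T.var6 | exact T.var7 | exact T.var8 | assumption
    | exact D.const _ | apply D.and | apply D.or | apply D.not | apply D.iff | apply D.imp
    | apply D.ex | apply D.all | apply D.mem | apply D.eq | apply tUpair | apply tPair
    | apply tSUnion | apply dSub | apply tPow | apply tCup | apply tProd | apply tApp
    | apply tSc | apply dInd | apply dNle | apply tVal | apply tAddK | apply tHalfK
    | apply dLeK | apply dLtK | apply dEqK | apply dExK | apply dAllK | apply T.wk1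
    | apply T.wk2 | apply T.wk3 | apply T.wk4 | apply T.wk5 | apply T.wk6 | apply T.wk7
    | apply T.wk8)

theorem hK_zero : hK 𝓡 (emp M) = 1 := by
  unfold hK
  rw [hh, (Classical.choose_spec (exists_hh 𝓡)).1, val_coe]

theorem hK_sc {n : M} (hn : E n (om M)) : hK 𝓡 (sc n) = hK 𝓡 n / 2 := by
  unfold hK
  have := ((Classical.choose_spec (exists_hh 𝓡)).2 n hn).2
  rw [hh, this, val_coe]

theorem hK_pos : ∀ n : M, E n (om M) → 0 < hK 𝓡 n := by
  refine om_ind _ ?_ ?_ ?_
  · apply dLtK 𝓡
    · (repeat' with_reducible first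
      | exact T.const _ | exact T.var0 | exact T.var1 | exact T.var2 | exact T.var3
      | exact T.var4 | exact T.var5 | exact T.var6 | exact T.var7 | exact T.var8 | assumption
      | exact D.const _ | apply D.and | apply D.or | apply D.not | apply D.iff | apply D.imp
      | apply D.ex | apply D.all | apply D.mem | apply D.eq | apply tUpair | apply tPair
      | apply tSUnion | apply dSub | apply tPow | apply tCup | apply tProd | apply tApp
      | apply tSc | apply dInd | apply dNle | apply tVal | apply tAddK | apply tHalfK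
      | apply dLeK | apply dLtK | apply dEqK | apply dExK | apply dAllK | apply tHK
      | apply T.wk1 | apply T.wk2 | apply T.wk3 | apply T.wk4 | apply T.wk5 | apply T.wk6
      | apply T.wk7 | apply T.wk8)
    · (repeat' with_reducible first
      | exact T.const _ | exact T.var0 | exact T.var1 | exact T.var2 | exact T.var3
      | exact T.var4 | exact T.var5 | exact T.var6 | exact T.var7 | exact T.var8 | assumption
      | exact D.const _ | apply D.and | apply D.or | apply D.not | apply D.iff | apply D.imp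
      | apply D.ex | apply D.all | apply D.mem | apply D.eq | apply tUpair | apply tPair
      | apply tSUnion | apply dSub | apply tPow | apply tCup | apply tProd | apply tApp
      | apply tSc | apply dInd | apply dNle | apply tVal | apply tAddK | apply tHalfK
      | apply dLeK | apply dLtK | apply dEqK | apply dExK | apply dAllK | apply tHK
      | apply T.wk1 | apply T.wk2 | apply T.wk3 | apply T.wk4 | apply T.wk5 | apply T.wk6
      | apply T.wk7 | apply T.wk8)
  · rw [hK_zero]; exact zero_lt_one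
  · intro n hn ih
    rw [hK_sc 𝓡 hn]; exact half_pos ih

theorem hK_anti : ∀ n : M, E n (om M) → ∀ m, nle m n → hK 𝓡 n ≤ hK 𝓡 m := by
  refine om_ind _ ?_ ?_ ?_
  · (repeat' with_reducible first
    | exact T.const _ | exact T.var0 | exact T.var1 | exact T.var2 | exact T.var3
    | exact T.var4 | exact T.var5 | exact T.var6 | exact T.var7 | exact T.var8 | assumption
    | exact D.const _ | apply D.and | apply D.or | apply D.not | apply D.iff | apply D.imp
    | apply D.ex | apply D.all | apply D.mem | apply D.eq | apply tUpair | apply tPair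
    | apply tSUnion | apply dSub | apply tPow | apply tCup | apply tProd | apply tApp
    | apply tSc | apply dInd | apply dNle | apply tVal | apply tAddK | apply tHalfK
    | apply dLeK | apply dLtK | apply dEqK | apply dExK | apply dAllK | apply tHK | apply T.wk1
    | apply T.wk2 | apply T.wk3 | apply T.wk4 | apply T.wk5 | apply T.wk6 | apply T.wk7
    | apply T.wk8)
  · intro m hm
    rcases hm with hm | rfl
    · exact (mem_emp hm).elim
    · exact le_rfl
  · intro n hn ih m hm
    rcases hm with hm | rfl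
    · have h1 := ih m (lt_sc.1 hm)
      have h2 := hK_pos 𝓡 n hn
      rw [hK_sc 𝓡 hn]
      linarith
    · exact le_rfl

theorem hK_arch (ε : El Z.E 𝓡.R) (hε : 0 < ε) : ∃ n, E n (om M) ∧ hK 𝓡 n < ε := by
  by_contra hcon
  push Not at hcon
  obtain ⟨c, hc⟩ := exists_glb 𝓡 (fun t => ∃ n, E n (om M) ∧ t = (hK 𝓡 n).1)
    (by (repeat' with_reducible first
      | exact T.const _ | exact T.var0 | exact T.var1 | exact T.var2 | exact T.var3
      | exact T.var4 | exact T.var5 | exact T.var6 | exact T.var7 | exact T.var8 | assumption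
      | exact D.const _ | apply D.and | apply D.or | apply D.not | apply D.iff | apply D.imp
      | apply D.ex | apply D.all | apply D.mem | apply D.eq | apply tUpair | apply tPair
      | apply tSUnion | apply dSub | apply tPow | apply tCup | apply tProd | apply tApp
      | apply tSc | apply dInd | apply dNle | apply tVal | apply tAddK | apply tHalfK
      | apply dLeK | apply dLtK | apply dEqK | apply dExK | apply dAllK | apply tHK
      | apply T.wk1 | apply T.wk2 | apply T.wk3 | apply T.wk4 | apply T.wk5 | apply T.wk6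
      | apply T.wk7 | apply T.wk8)) ⟨hK 𝓡 (emp M), _, zero_mem, rfl⟩
    ⟨ε, by
      rintro x ⟨n, hn, h⟩
      have : x = hK 𝓡 n := Subtype.ext h
      rw [this]; exact hcon n hn⟩
  have hcε : ε ≤ c := by
    refine hc.2 ?_
    rintro x ⟨n, hn, h⟩
    have : x = hK 𝓡 n := Subtype.ext h
    rw [this]; exact hcon n hn
  have hc2 : 2 * c ≤ c := by
    refine hc.2 ?_
    rintro x ⟨n, hn, h⟩
    have hx : x = hK 𝓡 n := Subtype.ext h
    have h1 : c ≤ hK 𝓡 (sc n) := hc.1 ⟨sc n, sc_mem hn, rfl⟩
    rw [hK_sc 𝓡 hn] at h1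
    rw [hx]; linarith
  linarith

end Pool.Agent.ZFQ
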