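import Pool.Agent.ZFQ.Core

/-! Basic set operations inside a model of ZF. -/

set_option linter.unusedSectionVars false
set_option linter.unusedVariables false
set_option linter.unusedTactic false
set_option linter.unreachableTactic false

namespace Pool.Agent.ZFQ

universe u

variable {M : Type u} [Z : ZFModel M]

open ZFModel

theorem ext' {a b : M} (h : ∀ x, E x a ↔ E x b) : a = b := Z.ax.ext a b h

instance : Nonempty M := ⟨(Z.ax.infinity).choose⟩

/-- definable classes, in hereditary form -/
abbrev Def1 (P : M → Prop) : Prop :=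
  ∀ (Γ : Type u) [Ctx M Γ] (f : Γ → M), T f → D (M := M) (fun γ => P (f γ))
abbrev Def2 (P : M → M → Prop) : Prop :=
  ∀ (Γ : Type u) [Ctx M Γ] (f g : Γ → M), T f → T g → D (M := M) (fun γ => P (f γ) (g γ))
abbrev TDef1 (F : M → M) : Prop :=
  ∀ (Γ : Type u) [Ctx M Γ] (f : Γ → M), T f → T (fun γ => F (f γ))
abbrev TDef2 (F : M → M → M) : Prop :=
  ∀ (Γ : Type u) [Ctx M Γ] (f g : Γ → M), T f → T g → T (fun γ => F (f γ) (g γ))

/-- a class which is a set -/
def IsSet (P : M → Prop) : Prop := ∃ c, ∀ x, E x c ↔ P x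

/-- the set of all elements satisfying `P` (if there is such a set) -/
noncomputable def cls (P : M → Prop) : M := Classical.epsilon (fun c => ∀ x, E x c ↔ P x)

theorem mem_cls {P : M → Prop} (h : IsSet P) {x : M} : E x (cls P) ↔ P x :=
  Classical.epsilon_spec (p := fun c => ∀ x, E x c ↔ P x) h x

section
variable {Γ : Type u} [c : Ctx M Γ]

theorem T.of_mem_iff {f : Γ → M} {Φ : Γ → M → Prop} (h : ∀ γ z, E z (f γ) ↔ Φ γ z)
    (hΦ : D (M := M) (fun p : Γ × M => Φ p.1 p.2)) : T f := by
  have h1 : D (M := M) (fun q : (Γ × M) × M => Φ q.1.1 q.2) :=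
    D.ren (ρ := fun q : (Γ × M) × M => ((q.1.1, q.2) : Γ × M)) (Ren.lift Ren.fst) hΦ
  have h2 : D (M := M) (fun p : Γ × M => ∀ z, E z p.2 ↔ Φ p.1 z) := by
    apply D.all
    apply D.iff
    · exact D.mem T.var0 T.var1
    · exact h1
  refine h2.congr (fun p => ?_)
  constructor
  · intro H; apply ext'; intro x; rw [H, h]
  · intro H z; rw [H, h]

theorem T.of_eq_iff {f : Γ → M} {Φ : Γ → M → Prop} (h : ∀ γ z, z = f γ ↔ Φ γ z)
    (hΦ : D (M := M) (fun p : Γ × M => Φ p.1 p.2)) : T f :=
  hΦ.congr (fun p => (h p.1 p.2).symm)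

end

/-- separation, for definable classes -/
theorem isSet_sub {P : M → Prop} (a : M) (hP : D (M := M) (fun p : PUnit.{u+1} × M => P p.2))
    (h : ∀ x, P x → E x a) : IsSet P := by
  have h1 : Dfn (Z.E) 1 (fun v => P (v 0)) := hP
  obtain ⟨c, hc⟩ := Z.ax.separation _ h1 a
  refine ⟨c, fun x => ?_⟩
  rw [hc]
  constructor
  · intro h'; exact h'.2
  · intro h'; exact ⟨h x h', h'⟩

/-- replacement, for definable class functions -/
theorem isSet_image (F : M → M) (a : M)
    (hF : T (fun p : PUnit.{u+1} × M => F p.2)) :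
    IsSet (fun y => ∃ x, E x a ∧ y = F x) := by
  have h1 : Dfn (Z.E) 2 (fun v => v 0 = F (v 1)) := hF
  have h2 := Dfn.rename h1 (n := 2) (Fin.cases 1 (fun _ => 0))
  obtain ⟨c, hc⟩ := Z.ax.replacement _ h2 a (fun x hx => ⟨F x, rfl, fun y hy => hy⟩)
  refine ⟨c, fun y => ?_⟩
  rw [hc]
  rfl

theorem isSet_or {P Q : M → Prop} (hP : IsSet P) (hQ : IsSet Q) : IsSet (fun x => P x ∨ Q x) := by
  obtain ⟨a, ha⟩ := hP
  obtain ⟨b, hb⟩ := hQ
  obtain ⟨c, hc⟩ := Z.ax.pairing a b
  obtain ⟨d, hd⟩ := Z.ax.union c
  refine ⟨d, fun x => ?_⟩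
  rw [hd]
  constructor
  · rintro ⟨y, hy, hxy⟩
    rcases (hc y).1 hy with rfl | rfl
    · exact Or.inl ((ha x).1 hxy)
    · exact Or.inr ((hb x).1 hxy)
  · rintro (h | h)
    · exact ⟨a, (hc a).2 (Or.inl rfl), (ha x).2 h⟩
    · exact ⟨b, (hc b).2 (Or.inr rfl), (hb x).2 h⟩

/-! empty set -/

theorem isSet_empty : IsSet (fun _ : M => False) := by
  obtain ⟨w, ⟨e, he, he'⟩, _⟩ := Z.ax.infinity
  exact ⟨e, fun x => ⟨fun h => he' x h, fun h => h.elim⟩⟩

variable (M) in
/-- empty set -/
noncomputable def emp : M := cls (fun _ => False)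

theorem mem_emp {x : M} : ¬ E x (emp M) := fun h => (mem_cls isSet_empty).1 h

/-! unordered pairs -/

noncomputable def upair (a b : M) : M := cls (fun x => x = a ∨ x = b)

theorem mem_upair {a b x : M} : E x (upair a b) ↔ (x = a ∨ x = b) :=
  mem_cls (Z.ax.pairing a b)

theorem tUpair : TDef2 (upair (M := M)) := by
  intro Γ _ f g hf hg
  refine T.of_mem_iff (Φ := fun γ z => z = f γ ∨ z = g γ) (fun γ z => mem_upair) ?_
  (repeat' with_reducible first
    | exact T.const _ | exact T.var0 | exact T.var1 | exact T.var2 | exact T.var3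
    | exact T.var4 | exact T.var5 | exact T.var6 | exact T.var7 | exact T.var8 | assumption
    | exact D.const _ | apply D.and | apply D.or | apply D.not | apply D.iff | apply D.imp
    | apply D.ex | apply D.all | apply D.mem | apply D.eq | apply T.wk1 | apply T.wk2
    | apply T.wk3 | apply T.wk4 | apply T.wk5 | apply T.wk6 | apply T.wk7 | apply T.wk8)

noncomputable def pair (a b : M) : M := upair (upair a a) (upair a b)

theorem tPair : TDef2 (pair (M := M)) := by
  intro Γ _ f g hf hg
  unfold pair
  (repeat' with_reducible first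
    | exact T.const _ | exact T.var0 | exact T.var1 | exact T.var2 | exact T.var3
    | exact T.var4 | exact T.var5 | exact T.var6 | exact T.var7 | exact T.var8 | assumption
    | exact D.const _ | apply D.and | apply D.or | apply D.not | apply D.iff | apply D.imp
    | apply D.ex | apply D.all | apply D.mem | apply D.eq | apply tUpair | apply T.wk1
    | apply T.wk2 | apply T.wk3 | apply T.wk4 | apply T.wk5 | apply T.wk6 | apply T.wk7
    | apply T.wk8)

theorem upair_inj {a b c d : M} (h : upair a b = upair c d) :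
    (a = c ∧ b = d) ∨ (a = d ∧ b = c) := by
  have h1 : a = c ∨ a = d := mem_upair.1 (h ▸ mem_upair.2 (Or.inl rfl))
  have h2 : b = c ∨ b = d := mem_upair.1 (h ▸ mem_upair.2 (Or.inr rfl))
  have h3 : c = a ∨ c = b := mem_upair.1 (h ▸ mem_upair.2 (Or.inl rfl))
  have h4 : d = a ∨ d = b := mem_upair.1 (h ▸ mem_upair.2 (Or.inr rfl))
  rcases h1 with h1 | h1 <;> rcases h2 with h2 | h2 <;> rcases h3 with h3 | h3 <;>
    rcases h4 with h4 | h4 <;> subst_vars <;> simp

theorem pair_inj {a b c d : M} : pair a b = pair c d ↔ (a = c ∧ b = d) := by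
  constructor
  · intro h
    rcases upair_inj h with ⟨h1, h2⟩ | ⟨h1, h2⟩
    · rcases upair_inj h1 with ⟨h3, _⟩ | ⟨h3, _⟩ <;> rcases upair_inj h2 with ⟨h5, h6⟩ | ⟨h5, h6⟩ <;>
        subst_vars <;> simp
    · rcases upair_inj h1 with ⟨h3, h4⟩ | ⟨h3, h4⟩ <;>
        rcases upair_inj h2 with ⟨h5, h6⟩ | ⟨h5, h6⟩ <;> subst_vars <;> simp
  · rintro ⟨rfl, rfl⟩; rfl

/-! union and power set -/

noncomputable def sUnion (a : M) : M := cls (fun x => ∃ y, E y a ∧ E x y)

theorem mem_sUnion {a x : M} : E x (sUnion a) ↔ ∃ y, E y a ∧ E x y :=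
  mem_cls (Z.ax.union a)

theorem tSUnion : TDef1 (sUnion (M := M)) := by
  intro Γ _ f hf
  refine T.of_mem_iff (Φ := fun γ z => ∃ y, E y (f γ) ∧ E z y) (fun γ z => mem_sUnion) ?_
  (repeat' with_reducible first
    | exact T.const _ | exact T.var0 | exact T.var1 | exact T.var2 | exact T.var3
    | exact T.var4 | exact T.var5 | exact T.var6 | exact T.var7 | exact T.var8 | assumption
    | exact D.const _ | apply D.and | apply D.or | apply D.not | apply D.iff | apply D.imp
    | apply D.ex | apply D.all | apply D.mem | apply D.eq | apply tUpair | apply tPair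
    | apply T.wk1 | apply T.wk2 | apply T.wk3 | apply T.wk4 | apply T.wk5 | apply T.wk6
    | apply T.wk7 | apply T.wk8)

def Sub (a b : M) : Prop := ∀ z, E z a → E z b

theorem dSub : Def2 (Sub (M := M)) := by
  intro Γ _ f g hf hg
  unfold Sub
  (repeat' with_reducible first
    | exact T.const _ | exact T.var0 | exact T.var1 | exact T.var2 | exact T.var3
    | exact T.var4 | exact T.var5 | exact T.var6 | exact T.var7 | exact T.var8 | assumption
    | exact D.const _ | apply D.and | apply D.or | apply D.not | apply D.iff | apply D.imp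
    | apply D.ex | apply D.all | apply D.mem | apply D.eq | apply tUpair | apply tPair
    | apply tSUnion | apply T.wk1 | apply T.wk2 | apply T.wk3 | apply T.wk4 | apply T.wk5
    | apply T.wk6 | apply T.wk7 | apply T.wk8)

noncomputable def pow (a : M) : M := cls (fun x => Sub x a)

theorem mem_pow {a x : M} : E x (pow a) ↔ Sub x a :=
  mem_cls (Z.ax.power a)

theorem tPow : TDef1 (pow (M := M)) := by
  intro Γ _ f hf
  refine T.of_mem_iff (Φ := fun γ z => Sub z (f γ)) (fun γ z => mem_pow) ?_
  (repeat' with_reducible first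
    | exact T.const _ | exact T.var0 | exact T.var1 | exact T.var2 | exact T.var3
    | exact T.var4 | exact T.var5 | exact T.var6 | exact T.var7 | exact T.var8 | assumption
    | exact D.const _ | apply D.and | apply D.or | apply D.not | apply D.iff | apply D.imp
    | apply D.ex | apply D.all | apply D.mem | apply D.eq | apply tUpair | apply tPair
    | apply tSUnion | apply dSub | apply T.wk1 | apply T.wk2 | apply T.wk3 | apply T.wk4
    | apply T.wk5 | apply T.wk6 | apply T.wk7 | apply T.wk8)

noncomputable def cup (a b : M) : M := cls (fun x => E x a ∨ E x b)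

theorem mem_cup {a b x : M} : E x (cup a b) ↔ E x a ∨ E x b :=
  mem_cls (isSet_or ⟨a, fun _ => Iff.rfl⟩ ⟨b, fun _ => Iff.rfl⟩)

theorem tCup : TDef2 (cup (M := M)) := by
  intro Γ _ f g hf hg
  refine T.of_mem_iff (Φ := fun γ z => E z (f γ) ∨ E z (g γ)) (fun γ z => mem_cup) ?_
  (repeat' with_reducible first
    | exact T.const _ | exact T.var0 | exact T.var1 | exact T.var2 | exact T.var3
    | exact T.var4 | exact T.var5 | exact T.var6 | exact T.var7 | exact T.var8 | assumption
    | exact D.const _ | apply D.and | apply D.or | apply D.not | apply D.iff | apply D.imp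
    | apply D.ex | apply D.all | apply D.mem | apply D.eq | apply tUpair | apply tPair
    | apply tSUnion | apply dSub | apply tPow | apply T.wk1 | apply T.wk2 | apply T.wk3
    | apply T.wk4 | apply T.wk5 | apply T.wk6 | apply T.wk7 | apply T.wk8)

/-! products -/

theorem isSet_prod (a b : M) : IsSet (fun p => ∃ x y, E x a ∧ E y b ∧ p = pair x y) := by
  refine isSet_sub (pow (pow (cup a b))) ?_ ?_
  · (repeat' with_reducible first
    | exact T.const _ | exact T.var0 | exact T.var1 | exact T.var2 | exact T.var3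
    | exact T.var4 | exact T.var5 | exact T.var6 | exact T.var7 | exact T.var8 | assumption
    | exact D.const _ | apply D.and | apply D.or | apply D.not | apply D.iff | apply D.imp
    | apply D.ex | apply D.all | apply D.mem | apply D.eq | apply tUpair | apply tPair
    | apply tSUnion | apply dSub | apply tPow | apply tCup | apply T.wk1 | apply T.wk2
    | apply T.wk3 | apply T.wk4 | apply T.wk5 | apply T.wk6 | apply T.wk7 | apply T.wk8)
  · rintro p ⟨x, y, hx, hy, rfl⟩
    rw [mem_pow]
    intro z hz
    rw [mem_pow]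
    intro t ht
    rw [mem_cup]
    rcases mem_upair.1 hz with rfl | rfl
    · rcases mem_upair.1 ht with rfl | rfl <;> exact Or.inl hx
    · rcases mem_upair.1 ht with rfl | rfl
      · exact Or.inl hx
      · exact Or.inr hy

noncomputable def prod (a b : M) : M := cls (fun p => ∃ x y, E x a ∧ E y b ∧ p = pair x y)

theorem mem_prod {a b p : M} : E p (prod a b) ↔ ∃ x y, E x a ∧ E y b ∧ p = pair x y :=
  mem_cls (isSet_prod a b)

theorem pair_mem_prod {a b x y : M} : E (pair x y) (prod a b) ↔ E x a ∧ E y b := by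
  rw [mem_prod]
  constructor
  · rintro ⟨x', y', hx, hy, h⟩
    obtain ⟨rfl, rfl⟩ := pair_inj.1 h
    exact ⟨hx, hy⟩
  · rintro ⟨hx, hy⟩; exact ⟨x, y, hx, hy, rfl⟩

theorem tProd : TDef2 (prod (M := M)) := by
  intro Γ _ f g hf hg
  refine T.of_mem_iff (Φ := fun γ z => ∃ x y, E x (f γ) ∧ E y (g γ) ∧ z = pair x y)
    (fun γ z => mem_prod) ?_
  (repeat' with_reducible first
    | exact T.const _ | exact T.var0 | exact T.var1 | exact T.var2 | exact T.var3
    | exact T.var4 | exact T.var5 | exact T.var6 | exact T.var7 | exact T.var8 | assumption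
    | exact D.const _ | apply D.and | apply D.or | apply D.not | apply D.iff | apply D.imp
    | apply D.ex | apply D.all | apply D.mem | apply D.eq | apply tUpair | apply tPair
    | apply tSUnion | apply dSub | apply tPow | apply tCup | apply T.wk1 | apply T.wk2
    | apply T.wk3 | apply T.wk4 | apply T.wk5 | apply T.wk6 | apply T.wk7 | apply T.wk8)

/-! application of a set function -/

theorem isSet_app (f x : M) : IsSet (fun z => ∃ y, E (pair x y) f ∧ E z y) := by
  refine isSet_sub (sUnion (sUnion (sUnion f))) ?_ ?_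
  · (repeat' with_reducible first
    | exact T.const _ | exact T.var0 | exact T.var1 | exact T.var2 | exact T.var3
    | exact T.var4 | exact T.var5 | exact T.var6 | exact T.var7 | exact T.var8 | assumption
    | exact D.const _ | apply D.and | apply D.or | apply D.not | apply D.iff | apply D.imp
    | apply D.ex | apply D.all | apply D.mem | apply D.eq | apply tUpair | apply tPair
    | apply tSUnion | apply dSub | apply tPow | apply tCup | apply tProd | apply T.wk1
    | apply T.wk2 | apply T.wk3 | apply T.wk4 | apply T.wk5 | apply T.wk6 | apply T.wk7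
    | apply T.wk8)
  · rintro z ⟨y, hy, hz⟩
    rw [mem_sUnion]
    refine ⟨y, ?_, hz⟩
    rw [mem_sUnion]
    refine ⟨upair x y, ?_, mem_upair.2 (Or.inr rfl)⟩
    rw [mem_sUnion]
    exact ⟨pair x y, hy, mem_upair.2 (Or.inr rfl)⟩

/-- `app f x` is the value `f(x)` -/
noncomputable def app (f x : M) : M := cls (fun z => ∃ y, E (pair x y) f ∧ E z y)

theorem mem_app {f x z : M} : E z (app f x) ↔ ∃ y, E (pair x y) f ∧ E z y :=
  mem_cls (isSet_app f x)

theorem tApp : TDef2 (app (M := M)) := by
  intro Γ _ f g hf hg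
  refine T.of_mem_iff (Φ := fun γ z => ∃ y, E (pair (g γ) y) (f γ) ∧ E z y)
    (fun γ z => mem_app) ?_
  (repeat' with_reducible first
    | exact T.const _ | exact T.var0 | exact T.var1 | exact T.var2 | exact T.var3
    | exact T.var4 | exact T.var5 | exact T.var6 | exact T.var7 | exact T.var8 | assumption
    | exact D.const _ | apply D.and | apply D.or | apply D.not | apply D.iff | apply D.imp
    | apply D.ex | apply D.all | apply D.mem | apply D.eq | apply tUpair | apply tPair
    | apply tSUnion | apply dSub | apply tPow | apply tCup | apply tProd | apply T.wk1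
    | apply T.wk2 | apply T.wk3 | apply T.wk4 | apply T.wk5 | apply T.wk6 | apply T.wk7
    | apply T.wk8)

theorem app_eq {f x y : M} (h : E (pair x y) f) (hu : ∀ y', E (pair x y') f → y' = y) :
    app f x = y := by
  apply ext'
  intro z
  rw [mem_app]
  constructor
  · rintro ⟨y', hy', hz⟩; rw [hu y' hy'] at hz; exact hz
  · intro hz; exact ⟨y, h, hz⟩

/-- the graph of a definable class function on a set -/
theorem isSet_graph (F : M → M) (a : M) (hF : T (fun p : PUnit.{u+1} × M => F p.2)) :
    IsSet (fun p => ∃ x, E x a ∧ p = pair x (F x)) := by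
  refine isSet_image (fun x => pair x (F x)) a ?_
  exact tPair _ _ _ T.var0 hF

/-- the restriction of a definable class function to a set -/
noncomputable def lam (a : M) (F : M → M) : M := cls (fun p => ∃ x, E x a ∧ p = pair x (F x))

theorem pair_mem_lam {F : M → M} {a x y : M} (hF : T (fun p : PUnit.{u+1} × M => F p.2)) :
    E (pair x y) (lam a F) ↔ E x a ∧ y = F x := by
  rw [lam, mem_cls (isSet_graph F a hF)]
  constructor
  · rintro ⟨x', hx, h⟩
    obtain ⟨rfl, rfl⟩ := pair_inj.1 h
    exact ⟨hx, rfl⟩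
  · rintro ⟨hx, rfl⟩; exact ⟨x, hx, rfl⟩

theorem app_lam {F : M → M} {a x : M} (hF : T (fun p : PUnit.{u+1} × M => F p.2))
    (hx : E x a) : app (lam a F) x = F x := by
  apply app_eq
  · rw [pair_mem_lam hF]; exact ⟨hx, rfl⟩
  · intro y' h; rw [pair_mem_lam hF] at h; exact h.2

end Pool.Agent.ZFQ
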