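import Pool.Agent.ZFQ.Frink

/-! Topologies given by sequences of relations, inside a model of ZF. -/

set_option linter.unusedSectionVars false
set_option linter.unusedVariables false
set_option linter.unusedTactic false
set_option linter.unreachableTactic false

namespace Pool.Agent.ZFQ

universe u

variable {M : Type u} [Z : ZFModel M]

open ZFModel

/-- `V` is a sequence of reflexive relations on `X` with `V (k+1) ∘ V (k+1) ⊆ V k` -/
structure QBase (X : M) (V : M → M → M → Prop) : Prop where
  dfn : Def3 V
  refl : ∀ k x, E k (om M) → E x X → V k x x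
  comp : ∀ k x y z, E k (om M) → E x X → E y X → E z X → V (sc k) x y → V (sc k) y z → V k x z

theorem QBase.step {X : M} {V : M → M → M → Prop} (h : QBase X V) {k x y : M}
    (hk : E k (om M)) (hx : E x X) (hy : E y X) (hV : V (sc k) x y) : V k x y :=
  h.comp k x y y hk hx hy hy hV (h.refl _ _ (sc_mem hk) hy)

theorem QBase.anti {X : M} {V : M → M → M → Prop} (h : QBase X V) :
    ∀ l, E l (om M) → ∀ k, nle k l → ∀ x y, E x X → E y X → V l x y → V k x y := by
  refine om_ind _ ?_ ?_ ?_
  · have hD := h.dfn
    apply D.all
    apply D.imp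
    · (repeat' with_reducible first
      | exact T.const _ | exact T.var0 | exact T.var1 | exact T.var2 | exact T.var3
      | exact T.var4 | exact T.var5 | exact T.var6 | exact T.var7 | exact T.var8 | assumption
      | exact D.const _ | apply D.and | apply D.or | apply D.not | apply D.iff | apply D.imp
      | apply D.ex | apply D.all | apply D.mem | apply D.eq | apply tUpair | apply tPair
      | apply tSUnion | apply dSub | apply tPow | apply tCup | apply tProd | apply tApp
      | apply tSc | apply dInd | apply dNle | apply tVal | apply tAddK | apply tHalfK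
      | apply dLeK | apply dLtK | apply dEqK | apply dExK | apply dAllK | apply tHK | apply tCC
      | apply dRv | apply T.wk1 | apply T.wk2 | apply T.wk3 | apply T.wk4 | apply T.wk5
      | apply T.wk6 | apply T.wk7 | apply T.wk8)
    · apply D.all
      apply D.all
      refine D.imp ?_ (D.imp ?_ (D.imp (hD _ _ _ _ ?_ ?_ ?_) (hD _ _ _ _ ?_ ?_ ?_)))
      all_goals (repeat' with_reducible first
        | exact T.const _ | exact T.var0 | exact T.var1 | exact T.var2 | exact T.var3
        | exact T.var4 | exact T.var5 | exact T.var6 | exact T.var7 | exact T.var8 | assumption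
        | exact D.const _ | apply D.and | apply D.or | apply D.not | apply D.iff | apply D.imp
        | apply D.ex | apply D.all | apply D.mem | apply D.eq | apply tUpair | apply tPair
        | apply tSUnion | apply dSub | apply tPow | apply tCup | apply tProd | apply tApp
        | apply tSc | apply dInd | apply dNle | apply tVal | apply tAddK | apply tHalfK
        | apply dLeK | apply dLtK | apply dEqK | apply dExK | apply dAllK | apply tHK
        | apply tCC | apply dRv | apply T.wk1 | apply T.wk2 | apply T.wk3 | apply T.wk4
        | apply T.wk5 | apply T.wk6 | apply T.wk7 | apply T.wk8)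
  · intro k hk x y hx hy hV
    rcases hk with hk | rfl
    · exact (mem_emp hk).elim
    · exact hV
  · intro l hl ih k hk x y hx hy hV
    rcases hk with hk | rfl
    · exact ih k (lt_sc.1 hk) x y hx hy (h.step hl hx hy hV)
    · exact hV

theorem QBase.exists_open {X : M} {V : M → M → M → Prop} (h : QBase X V) {τ : M}
    (hτ : GenTop X V τ) {x k : M} (hx : E x X) (hk : E k (om M)) :
    ∃ G, E G τ ∧ E x G ∧ ∀ y, E y G → V k x y := by
  have hD := h.dfn
  have hset : IsSet (fun y => E y X ∧ ∃ l, E l (om M) ∧ ∀ t, E t X → V l y t → V k x t) := by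
    refine isSet_sub X ?_ (fun y hy => hy.1)
    refine D.and ?_ (D.ex (D.and ?_ (D.all (D.imp ?_ (D.imp (hD _ _ _ _ ?_ ?_ ?_)
      (hD _ _ _ _ ?_ ?_ ?_))))))
    all_goals (repeat' with_reducible first
      | exact T.const _ | exact T.var0 | exact T.var1 | exact T.var2 | exact T.var3
      | exact T.var4 | exact T.var5 | exact T.var6 | exact T.var7 | exact T.var8 | assumption
      | exact D.const _ | apply D.and | apply D.or | apply D.not | apply D.iff | apply D.imp
      | apply D.ex | apply D.all | apply D.mem | apply D.eq | apply tUpair | apply tPair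
      | apply tSUnion | apply dSub | apply tPow | apply tCup | apply tProd | apply tApp
      | apply tSc | apply dInd | apply dNle | apply tVal | apply tAddK | apply tHalfK
      | apply dLeK | apply dLtK | apply dEqK | apply dExK | apply dAllK | apply tHK | apply tCC
      | apply dRv | apply T.wk1 | apply T.wk2 | apply T.wk3 | apply T.wk4 | apply T.wk5
      | apply T.wk6 | apply T.wk7 | apply T.wk8)
  obtain ⟨G, hG⟩ := hset
  refine ⟨G, ?_, ?_, ?_⟩
  · rw [hτ G]
    refine ⟨fun y hy => ((hG y).1 hy).1, fun y hy => ?_⟩
    obtain ⟨hyX, l, hl, hl'⟩ := (hG y).1 hy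
    refine ⟨sc l, sc_mem hl, fun z hz hyz => ?_⟩
    rw [hG]
    exact ⟨hz, sc l, sc_mem hl, fun t ht hzt => hl' t ht (h.comp l y z t hl hyX hz ht hyz hzt)⟩
  · rw [hG]
    exact ⟨hx, k, hk, fun t ht h => h⟩
  · intro y hy
    obtain ⟨hyX, l, hl, hl'⟩ := (hG y).1 hy
    exact hl' y hyX (h.refl l y hl hyX)

theorem dTopology : Def2 (IsTopology (M := M) Z.E) := by
  intro Γ _ f g hf hg
  unfold IsTopology
  (repeat' with_reducible first
    | exact T.const _ | exact T.var0 | exact T.var1 | exact T.var2 | exact T.var3
    | exact T.var4 | exact T.var5 | exact T.var6 | exact T.var7 | exact T.var8 | assumption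
    | exact D.const _ | apply D.and | apply D.or | apply D.not | apply D.iff | apply D.imp
    | apply D.ex | apply D.all | apply D.mem | apply D.eq | apply tUpair | apply tPair
    | apply tSUnion | apply dSub | apply tPow | apply tCup | apply tProd | apply tApp
    | apply tSc | apply dInd | apply dNle | apply tVal | apply tAddK | apply tHalfK
    | apply dLeK | apply dLtK | apply dEqK | apply dExK | apply dAllK | apply tHK | apply tCC
    | apply dRv | apply T.wk1 | apply T.wk2 | apply T.wk3 | apply T.wk4 | apply T.wk5
    | apply T.wk6 | apply T.wk7 | apply T.wk8)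

theorem GenTop.isTopology {X τ : M} {V : M → M → M → Prop} (h : QBase X V)
    (hτ : GenTop X V τ) : IsTopology Z.E X τ := by
  refine ⟨fun G hG x hx => ((hτ G).1 hG).1 x hx, ?_, ?_, ?_⟩
  · rw [hτ]
    exact ⟨fun x hx => hx, fun x hx => ⟨emp M, zero_mem, fun y hy _ => hy⟩⟩
  · intro A hA
    refine ⟨sUnion A, ?_, fun x => mem_sUnion⟩
    rw [hτ]
    constructor
    · intro x hx
      obtain ⟨G, hG, hxG⟩ := mem_sUnion.1 hx
      exact ((hτ G).1 (hA G hG)).1 x hxG
    · intro x hx
      obtain ⟨G, hG, hxG⟩ := mem_sUnion.1 hx
      obtain ⟨k, hk, h'⟩ := ((hτ G).1 (hA G hG)).2 x hxG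
      exact ⟨k, hk, fun y hy hV => mem_sUnion.2 ⟨G, hG, h' y hy hV⟩⟩
  · intro G H hG hH
    have hset : IsSet (fun x => E x G ∧ E x H) := by
      refine isSet_sub G ?_ (fun x hx => hx.1)
      (repeat' with_reducible first
        | exact T.const _ | exact T.var0 | exact T.var1 | exact T.var2 | exact T.var3
        | exact T.var4 | exact T.var5 | exact T.var6 | exact T.var7 | exact T.var8 | assumption
        | exact D.const _ | apply D.and | apply D.or | apply D.not | apply D.iff | apply D.imp
        | apply D.ex | apply D.all | apply D.mem | apply D.eq | apply tUpair | apply tPair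
        | apply tSUnion | apply dSub | apply tPow | apply tCup | apply tProd | apply tApp
        | apply tSc | apply dInd | apply dNle | apply tVal | apply tAddK | apply tHalfK
        | apply dLeK | apply dLtK | apply dEqK | apply dExK | apply dAllK | apply tHK
        | apply tCC | apply dRv | apply dTopology | apply T.wk1 | apply T.wk2 | apply T.wk3
        | apply T.wk4 | apply T.wk5 | apply T.wk6 | apply T.wk7 | apply T.wk8)
    obtain ⟨I, hI⟩ := hset
    refine ⟨I, ?_, hI⟩
    rw [hτ]
    refine ⟨fun x hx => ((hτ G).1 hG).1 x ((hI x).1 hx).1, fun x hx => ?_⟩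
    obtain ⟨hxG, hxH⟩ := (hI x).1 hx
    have hxX := ((hτ G).1 hG).1 x hxG
    obtain ⟨k, hk, h1⟩ := ((hτ G).1 hG).2 x hxG
    obtain ⟨l, hl, h2⟩ := ((hτ H).1 hH).2 x hxH
    obtain ⟨m, hm, hkm, hlm⟩ := exists_max hk hl
    refine ⟨m, hm, fun y hy hV => (hI y).2 ⟨h1 y hy ?_, h2 y hy ?_⟩⟩
    · exact h.anti m hm k hkm x y hxX hy hV
    · exact h.anti m hm l hlm x y hxX hy hV

theorem NormalSet.qbase {X v : M} (h : NormalSet X v) : QBase X (rv v) where
  dfn := by
    intro Γ _ f g k hf hg hk
    (repeat' with_reducible first
      | exact T.const _ | exact T.var0 | exact T.var1 | exact T.var2 | exact T.var3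
      | exact T.var4 | exact T.var5 | exact T.var6 | exact T.var7 | exact T.var8 | assumption
      | exact D.const _ | apply D.and | apply D.or | apply D.not | apply D.iff | apply D.imp
      | apply D.ex | apply D.all | apply D.mem | apply D.eq | apply tUpair | apply tPair
      | apply tSUnion | apply dSub | apply tPow | apply tCup | apply tProd | apply tApp
      | apply tSc | apply dInd | apply dNle | apply tVal | apply tAddK | apply tHalfK
      | apply dLeK | apply dLtK | apply dEqK | apply dExK | apply dAllK | apply tHK | apply tCC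
      | apply dRv | apply dTopology | apply T.wk1 | apply T.wk2 | apply T.wk3 | apply T.wk4
      | apply T.wk5 | apply T.wk6 | apply T.wk7 | apply T.wk8)
  refl := h.refl
  comp := fun k x y z hk _ _ _ h1 h2 => h.comp k x y z hk h1 h2

theorem NormalSet.qbase_conj {X v : M} (h : NormalSet X v) :
    QBase X (fun k x y => rv v k y x) where
  dfn := by
    intro Γ _ f g k hf hg hk
    (repeat' with_reducible first
      | exact T.const _ | exact T.var0 | exact T.var1 | exact T.var2 | exact T.var3
      | exact T.var4 | exact T.var5 | exact T.var6 | exact T.var7 | exact T.var8 | assumption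
      | exact D.const _ | apply D.and | apply D.or | apply D.not | apply D.iff | apply D.imp
      | apply D.ex | apply D.all | apply D.mem | apply D.eq | apply tUpair | apply tPair
      | apply tSUnion | apply dSub | apply tPow | apply tCup | apply tProd | apply tApp
      | apply tSc | apply dInd | apply dNle | apply tVal | apply tAddK | apply tHalfK
      | apply dLeK | apply dLtK | apply dEqK | apply dExK | apply dAllK | apply tHK | apply tCC
      | apply dRv | apply dTopology | apply T.wk1 | apply T.wk2 | apply T.wk3 | apply T.wk4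
      | apply T.wk5 | apply T.wk6 | apply T.wk7 | apply T.wk8)
  refl := h.refl
  comp := fun k x y z hk _ _ _ h1 h2 => h.comp k z y x hk h2 h1

theorem Normal3.qbase {X : M} {V : M → M → M → Prop} (hV : Def3 V) (h : Normal3 X V) :
    QBase X V where
  dfn := hV
  refl := h.refl
  comp := fun k x y z hk hx hy hz h1 h2 => h.comp k x y z z hk hx hy hz hz h1 h2
    (h.refl _ _ (sc_mem hk) hz)

theorem topology_empty {X τ : M} (h : IsTopology Z.E X τ) : E (emp M) τ := by
  obtain ⟨U, hU, hU'⟩ := h.2.2.1 (emp M) (fun G hG => (mem_emp hG).elim)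
  have : emp M = U := ext' (fun x => ⟨fun hx => (mem_emp hx).elim, fun hx => by
    obtain ⟨G, hG, _⟩ := (hU' x).1 hx
    exact (mem_emp hG).elim⟩)
  rw [this]; exact hU

/-- a set which is a neighbourhood of all its points is open -/
theorem open_of_local {X τ : M} (h : IsTopology Z.E X τ) (G : M)
    (hG : ∀ x, E x G → ∃ U, E U τ ∧ E x U ∧ Sub U G) : E G τ := by
  have hset : IsSet (fun U => E U τ ∧ Sub U G) := by
    refine isSet_sub τ ?_ (fun x hx => hx.1)
    (repeat' with_reducible first
      | exact T.const _ | exact T.var0 | exact T.var1 | exact T.var2 | exact T.var3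
      | exact T.var4 | exact T.var5 | exact T.var6 | exact T.var7 | exact T.var8 | assumption
      | exact D.const _ | apply D.and | apply D.or | apply D.not | apply D.iff | apply D.imp
      | apply D.ex | apply D.all | apply D.mem | apply D.eq | apply tUpair | apply tPair
      | apply tSUnion | apply dSub | apply tPow | apply tCup | apply tProd | apply tApp
      | apply tSc | apply dInd | apply dNle | apply tVal | apply tAddK | apply tHalfK
      | apply dLeK | apply dLtK | apply dEqK | apply dExK | apply dAllK | apply tHK | apply tCC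
      | apply dRv | apply dTopology | apply T.wk1 | apply T.wk2 | apply T.wk3 | apply T.wk4
      | apply T.wk5 | apply T.wk6 | apply T.wk7 | apply T.wk8)
  obtain ⟨A, hA⟩ := hset
  obtain ⟨U, hU, hU'⟩ := h.2.2.1 A (fun G' hG' => ((hA G').1 hG').1)
  have : G = U := by
    apply ext'
    intro x
    constructor
    · intro hx
      obtain ⟨V, hV, hxV, hVG⟩ := hG x hx
      exact (hU' x).2 ⟨V, (hA V).2 ⟨hV, hVG⟩, hxV⟩
    · intro hx
      obtain ⟨V, hV, hxV⟩ := (hU' x).1 hx
      exact ((hA V).1 hV).2 x hxV
  rw [this]; exact hU

theorem open_inter {X τ : M} (h : IsTopology Z.E X τ) {G H I : M} (hG : E G τ) (hH : E H τ)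
    (hI : ∀ x, E x I ↔ (E x G ∧ E x H)) : E I τ := by
  obtain ⟨I', hI', he⟩ := h.2.2.2 G H hG hH
  have : I = I' := ext' (fun x => by rw [hI, he])
  rw [this]; exact hI'

end Pool.Agent.ZFQ
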