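import Pool.Agent.ZFQ.Extract

/-! The uniformization: canonical normal sequences. -/

set_option linter.unusedSectionVars false
set_option linter.unusedVariables false
set_option linter.unusedTactic false
set_option linter.unreachableTactic false

namespace Pool.Agent.ZFQ

universe u

variable {M : Type u} [Z : ZFModel M]

open ZFModel

abbrev Def4 (P : M → M → M → M → Prop) : Prop :=
  ∀ (Γ : Type u) [Ctx M Γ] (f g h k : Γ → M), T f → T g → T h → T k →
    D (M := M) (fun γ => P (f γ) (g γ) (h γ) (k γ))

/-- coded triples -/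
noncomputable def tr (j x y : M) : M := pair j (pair x y)

theorem tTr {Γ : Type u} [c : Ctx M Γ] {j x y : Γ → M} (hj : T j) (hx : T x)
    (hy : T y) : T (fun γ => tr (j γ) (x γ) (y γ)) := by
  unfold tr
  (repeat' with_reducible first
    | exact T.const _ | exact T.var0 | exact T.var1 | exact T.var2 | exact T.var3
    | exact T.var4 | exact T.var5 | exact T.var6 | exact T.var7 | exact T.var8 | assumption
    | exact D.const _ | apply D.and | apply D.or | apply D.not | apply D.iff | apply D.imp
    | apply D.ex | apply D.all | apply D.mem | apply D.eq | apply tUpair | apply tPair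
    | apply tSUnion | apply dSub | apply tPow | apply tCup | apply tProd | apply tApp
    | apply tSc | apply dInd | apply dNle | apply tVal | apply tAddK | apply tHalfK
    | apply dLeK | apply dLtK | apply dEqK | apply dExK | apply dAllK | apply tHK | apply tCC
    | apply dRv | apply dTopology | apply tpQ | apply tpR | apply tpP | apply dAdm | apply dInY
    | apply tYY | apply dOpenY | apply tSig | apply dGood | apply dInProd | apply dHSub
    | apply tIota | apply hA | apply hB | apply hMM | apply hD4 | apply T.wk1 | apply T.wk2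
    | apply T.wk3 | apply T.wk4 | apply T.wk5 | apply T.wk6 | apply T.wk7 | apply T.wk8)

theorem tr_inj {j x y j' x' y' : M} (h : tr j x y = tr j' x' y') : j = j' ∧ x = x' ∧ y = y' := by
  obtain ⟨h1, h2⟩ := pair_inj.1 h
  obtain ⟨h3, h4⟩ := pair_inj.1 h2
  exact ⟨h1, h3, h4⟩

/-- the conclusion: a family of normal sequences for the family of bitopological spaces -/
structure Unif (J gX g1 g2 : M) (V : M → M → M → M → Prop) : Prop where
  dfn : Def4 V
  refl : ∀ j k x, E j J → E k (om M) → E x (app gX j) → V j k x x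
  comp : ∀ j k x y z t, E j J → E k (om M) → E x (app gX j) → E y (app gX j) →
    E z (app gX j) → E t (app gX j) → V j (sc k) x y → V j (sc k) y z → V j (sc k) z t →
    V j k x t
  conv1 : ∀ j x U, E j J → E U (app g1 j) → E x U → ∃ k, E k (om M) ∧
    ∀ y, E y (app gX j) → V j k x y → E y U
  conv2 : ∀ j x U, E j J → E U (app g2 j) → E x U → ∃ k, E k (om M) ∧
    ∀ y, E y (app gX j) → V j k y x → E y U
  nb1 : ∀ j k x, E j J → E k (om M) → E x (app gX j) → ∃ G, E G (app g1 j) ∧ E x G ∧
    ∀ y, E y G → V j k x y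
  nb2 : ∀ j k x, E j J → E k (om M) → E x (app gX j) → ∃ G, E G (app g2 j) ∧ E x G ∧
    ∀ y, E y G → V j k y x

section

variable (J gX : M) (A B : M → M → M → M → M → Prop)

def MM (j k z u v : M) : Prop := A j k z u v ∧ B j k z v u

def Gd (w j z n : M) : Prop :=
  (∀ u t z' y, E u (app gX j) → E t (app gX j) → E z' (app gX j) → E y (app gX j) →
    B j n z z u → A j n z z t → MM A B j n z' t y → E (tr j u y) w) ∧
  (∀ y t z' x, E y (app gX j) → E t (app gX j) → E z' (app gX j) → E x (app gX j) →
    A j n z z y → B j n z z t → MM A B j n z' x t → E (tr j x y) w)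

def Ph (w j u v : M) : Prop :=
  ∃ z n, E z (app gX j) ∧ E n (om M) ∧ Gd gX A B w j z n ∧ MM A B j n z u v ∧ B j n z z u ∧
    A j n z z v

def InPh (w p : M) : Prop :=
  ∃ j u v, (E j J ∧ E u (app gX j) ∧ E v (app gX j) ∧ p = tr j u v) ∧ Ph gX A B w j u v

variable {A B}

theorem dMM (hA : Def5 A) (hB : Def5 B) : Def5 (MM A B) := by
  intro Γ _ f g h k l hf hg hh hk hl
  unfold MM
  (repeat' with_reducible first
    | exact T.const _ | exact T.var0 | exact T.var1 | exact T.var2 | exact T.var3
    | exact T.var4 | exact T.var5 | exact T.var6 | exact T.var7 | exact T.var8 | assumption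
    | exact D.const _ | apply D.and | apply D.or | apply D.not | apply D.iff | apply D.imp
    | apply D.ex | apply D.all | apply D.mem | apply D.eq | apply tUpair | apply tPair
    | apply tSUnion | apply dSub | apply tPow | apply tCup | apply tProd | apply tApp
    | apply tSc | apply dInd | apply dNle | apply tVal | apply tAddK | apply tHalfK
    | apply dLeK | apply dLtK | apply dEqK | apply dExK | apply dAllK | apply tHK | apply tCC
    | apply dRv | apply dTopology | apply tpQ | apply tpR | apply tpP | apply dAdm | apply dInY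
    | apply tYY | apply dOpenY | apply tSig | apply dGood | apply dInProd | apply dHSub
    | apply tIota | apply hA | apply hB | apply hMM | apply hD4 | apply tTr | apply T.wk1
    | apply T.wk2 | apply T.wk3 | apply T.wk4 | apply T.wk5 | apply T.wk6 | apply T.wk7
    | apply T.wk8)

theorem dGd (hA : Def5 A) (hB : Def5 B) : Def4 (Gd gX A B) := by
  have hMM := dMM hA hB
  intro Γ _ f g h k hf hg hh hk
  unfold Gd
  (repeat' with_reducible first
    | exact T.const _ | exact T.var0 | exact T.var1 | exact T.var2 | exact T.var3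
    | exact T.var4 | exact T.var5 | exact T.var6 | exact T.var7 | exact T.var8 | assumption
    | exact D.const _ | apply D.and | apply D.or | apply D.not | apply D.iff | apply D.imp
    | apply D.ex | apply D.all | apply D.mem | apply D.eq | apply tUpair | apply tPair
    | apply tSUnion | apply dSub | apply tPow | apply tCup | apply tProd | apply tApp
    | apply tSc | apply dInd | apply dNle | apply tVal | apply tAddK | apply tHalfK
    | apply dLeK | apply dLtK | apply dEqK | apply dExK | apply dAllK | apply tHK | apply tCC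
    | apply dRv | apply dTopology | apply tpQ | apply tpR | apply tpP | apply dAdm | apply dInY
    | apply tYY | apply dOpenY | apply tSig | apply dGood | apply dInProd | apply dHSub
    | apply tIota | apply hA | apply hB | apply hMM | apply hD4 | apply tTr | apply T.wk1
    | apply T.wk2 | apply T.wk3 | apply T.wk4 | apply T.wk5 | apply T.wk6 | apply T.wk7
    | apply T.wk8)

theorem dPh (hA : Def5 A) (hB : Def5 B) : Def4 (Ph gX A B) := by
  have hMM := dMM hA hB
  have hD4 := dGd gX hA hB
  intro Γ _ f g h k hf hg hh hk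
  unfold Ph
  (repeat' with_reducible first
    | exact T.const _ | exact T.var0 | exact T.var1 | exact T.var2 | exact T.var3
    | exact T.var4 | exact T.var5 | exact T.var6 | exact T.var7 | exact T.var8 | assumption
    | exact D.const _ | apply D.and | apply D.or | apply D.not | apply D.iff | apply D.imp
    | apply D.ex | apply D.all | apply D.mem | apply D.eq | apply tUpair | apply tPair
    | apply tSUnion | apply dSub | apply tPow | apply tCup | apply tProd | apply tApp
    | apply tSc | apply dInd | apply dNle | apply tVal | apply tAddK | apply tHalfK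
    | apply dLeK | apply dLtK | apply dEqK | apply dExK | apply dAllK | apply tHK | apply tCC
    | apply dRv | apply dTopology | apply tpQ | apply tpR | apply tpP | apply dAdm | apply dInY
    | apply tYY | apply dOpenY | apply tSig | apply dGood | apply dInProd | apply dHSub
    | apply tIota | apply hA | apply hB | apply hMM | apply hD4 | apply tTr | apply T.wk1
    | apply T.wk2 | apply T.wk3 | apply T.wk4 | apply T.wk5 | apply T.wk6 | apply T.wk7
    | apply T.wk8)

theorem dInPh (hA : Def5 A) (hB : Def5 B) : Def2 (InPh J gX A B) := by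
  have hD4 := dPh gX hA hB
  intro Γ _ f g hf hg
  unfold InPh
  (repeat' with_reducible first
    | exact T.const _ | exact T.var0 | exact T.var1 | exact T.var2 | exact T.var3
    | exact T.var4 | exact T.var5 | exact T.var6 | exact T.var7 | exact T.var8 | assumption
    | exact D.const _ | apply D.and | apply D.or | apply D.not | apply D.iff | apply D.imp
    | apply D.ex | apply D.all | apply D.mem | apply D.eq | apply tUpair | apply tPair
    | apply tSUnion | apply dSub | apply tPow | apply tCup | apply tProd | apply tApp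
    | apply tSc | apply dInd | apply dNle | apply tVal | apply tAddK | apply tHalfK
    | apply dLeK | apply dLtK | apply dEqK | apply dExK | apply dAllK | apply tHK | apply tCC
    | apply dRv | apply dTopology | apply tpQ | apply tpR | apply tpP | apply dAdm | apply dInY
    | apply tYY | apply dOpenY | apply tSig | apply dGood | apply dInProd | apply dHSub
    | apply tIota | apply hA | apply hB | apply hMM | apply hD4 | apply tTr | apply T.wk1
    | apply T.wk2 | apply T.wk3 | apply T.wk4 | apply T.wk5 | apply T.wk6 | apply T.wk7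
    | apply T.wk8)

variable (A B) in
noncomputable def PhS (w : M) : M := cls (InPh J gX A B w)

/-- the full relation -/
def InFull (p : M) : Prop := ∃ j u v, E j J ∧ E u (app gX j) ∧ E v (app gX j) ∧ p = tr j u v

theorem isSet_full : IsSet (InFull J gX) := by
  obtain ⟨I, hI⟩ := isSet_image (fun j => app gX j) J (by (repeat' with_reducible first
    | exact T.const _ | exact T.var0 | exact T.var1 | exact T.var2 | exact T.var3
    | exact T.var4 | exact T.var5 | exact T.var6 | exact T.var7 | exact T.var8 | assumption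
    | exact D.const _ | apply D.and | apply D.or | apply D.not | apply D.iff | apply D.imp
    | apply D.ex | apply D.all | apply D.mem | apply D.eq | apply tUpair | apply tPair
    | apply tSUnion | apply dSub | apply tPow | apply tCup | apply tProd | apply tApp
    | apply tSc | apply dInd | apply dNle | apply tVal | apply tAddK | apply tHalfK
    | apply dLeK | apply dLtK | apply dEqK | apply dExK | apply dAllK | apply tHK | apply tCC
    | apply dRv | apply dTopology | apply tpQ | apply tpR | apply tpP | apply dAdm | apply dInY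
    | apply tYY | apply dOpenY | apply tSig | apply dGood | apply dInProd | apply dHSub
    | apply tIota | apply hA | apply hB | apply hMM | apply hD4 | apply tTr | apply T.wk1
    | apply T.wk2 | apply T.wk3 | apply T.wk4 | apply T.wk5 | apply T.wk6 | apply T.wk7
    | apply T.wk8))
  refine isSet_sub (prod J (prod (sUnion I) (sUnion I))) ?_ ?_
  · unfold InFull
    (repeat' with_reducible first
      | exact T.const _ | exact T.var0 | exact T.var1 | exact T.var2 | exact T.var3
      | exact T.var4 | exact T.var5 | exact T.var6 | exact T.var7 | exact T.var8 | assumption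
      | exact D.const _ | apply D.and | apply D.or | apply D.not | apply D.iff | apply D.imp
      | apply D.ex | apply D.all | apply D.mem | apply D.eq | apply tUpair | apply tPair
      | apply tSUnion | apply dSub | apply tPow | apply tCup | apply tProd | apply tApp
      | apply tSc | apply dInd | apply dNle | apply tVal | apply tAddK | apply tHalfK
      | apply dLeK | apply dLtK | apply dEqK | apply dExK | apply dAllK | apply tHK | apply tCC
      | apply dRv | apply dTopology | apply tpQ | apply tpR | apply tpP | apply dAdm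
      | apply dInY | apply tYY | apply dOpenY | apply tSig | apply dGood | apply dInProd
      | apply dHSub | apply tIota | apply hA | apply hB | apply hMM | apply hD4 | apply tTr
      | apply T.wk1 | apply T.wk2 | apply T.wk3 | apply T.wk4 | apply T.wk5 | apply T.wk6
      | apply T.wk7 | apply T.wk8)
  · rintro p ⟨j, u, v, hj, hu, hv, rfl⟩
    exact pair_mem_prod.2 ⟨hj, pair_mem_prod.2 ⟨mem_sUnion.2 ⟨_, (hI _).2 ⟨j, hj, rfl⟩, hu⟩,
      mem_sUnion.2 ⟨_, (hI _).2 ⟨j, hj, rfl⟩, hv⟩⟩⟩

noncomputable def FULL : M := cls (InFull J gX)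

theorem mem_FULL {p : M} : E p (FULL J gX) ↔ InFull J gX p := mem_cls (isSet_full J gX)

variable {J gX}

theorem mem_PhS (hA : Def5 A) (hB : Def5 B) {w p : M} :
    E p (PhS J gX A B w) ↔ InPh J gX A B w p := by
  refine mem_cls ?_
  have hI := dInPh J gX hA hB
  refine isSet_sub (FULL J gX) (hI _ _ _ (T.const _) T.var0) ?_
  rintro p ⟨j, u, v, ⟨hj, hu, hv, rfl⟩, _⟩
  exact (mem_FULL J gX).2 ⟨j, u, v, hj, hu, hv, rfl⟩

theorem tPhS (hA : Def5 A) (hB : Def5 B) : TDef1 (PhS J gX A B) := by
  intro Γ _ f hf
  have hI := dInPh J gX hA hB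
  exact T.of_mem_iff (Φ := fun γ z => InPh J gX A B (f γ) z) (fun γ z => mem_PhS hA hB)
    (hI _ _ _ (T.wk1 hf) T.var0)

theorem tr_mem_PhS (hA : Def5 A) (hB : Def5 B) {w j u v : M} :
    E (tr j u v) (PhS J gX A B w) ↔ (E j J ∧ E u (app gX j) ∧ E v (app gX j) ∧
      Ph gX A B w j u v) := by
  rw [mem_PhS hA hB]
  constructor
  · rintro ⟨j', u', v', ⟨hj, hu, hv, e⟩, h⟩
    obtain ⟨rfl, rfl, rfl⟩ := tr_inj e
    exact ⟨hj, hu, hv, h⟩
  · rintro ⟨hj, hu, hv, h⟩
    exact ⟨j, u, v, ⟨hj, hu, hv, rfl⟩, h⟩

variable {g1 g2 : M}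

/-- composition: `Φ(w) ∘ Φ(w) ⊆ w` -/
theorem PhS_comp (oA : OneSide J gX g1 g2 A) (oB : OneSide J gX g2 g1 B) {w j x t y : M}
    (h1 : E (tr j x t) (PhS J gX A B w)) (h2 : E (tr j t y) (PhS J gX A B w)) :
    E (tr j x y) w := by
  rw [tr_mem_PhS oA.dfn oB.dfn] at h1 h2
  obtain ⟨hj, hx, ht, z1, n1, hz1, hn1, hg1, hM1, hQ1, hP1⟩ := h1
  obtain ⟨_, _, hy, z2, n2, hz2, hn2, hg2, hM2, hQ2, hP2⟩ := h2
  rcases nle_total hn1 hn2 with h | h
  · refine hg1.1 x t z2 y hx ht hz2 hy hQ1 hP1 ⟨?_, ?_⟩
    · exact oA.anti j n2 n1 z2 t y hj hn2 h hn1 hz2 ht hy hM2.1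
    · exact oB.anti j n2 n1 z2 y t hj hn2 h hn1 hz2 hy ht hM2.2
  · refine hg2.2 y t z1 x hy ht hz1 hx hP2 hQ2 ⟨?_, ?_⟩
    · exact oA.anti j n1 n2 z1 x t hj hn1 h hn2 hz1 hx ht hM1.1
    · exact oB.anti j n1 n2 z1 t x hj hn1 h hn2 hz1 ht hx hM1.2

variable (J gX g1 g2) in
/-- `w` is a neighbourhood of the diagonal in `τ₂ × τ₁` -/
def Nb (w : M) : Prop := ∀ j z, E j J → E z (app gX j) → ∃ O G, E O (app g2 j) ∧
  E G (app g1 j) ∧ E z O ∧ E z G ∧ ∀ u v, E u O → E v G → E (tr j u v) w

theorem dNb : Def1 (Nb J gX g1 g2) := by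
  intro Γ _ f hf
  unfold Nb
  (repeat' with_reducible first
    | exact T.const _ | exact T.var0 | exact T.var1 | exact T.var2 | exact T.var3
    | exact T.var4 | exact T.var5 | exact T.var6 | exact T.var7 | exact T.var8 | assumption
    | exact D.const _ | apply D.and | apply D.or | apply D.not | apply D.iff | apply D.imp
    | apply D.ex | apply D.all | apply D.mem | apply D.eq | apply tUpair | apply tPair
    | apply tSUnion | apply dSub | apply tPow | apply tCup | apply tProd | apply tApp
    | apply tSc | apply dInd | apply dNle | apply tVal | apply tAddK | apply tHalfK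
    | apply dLeK | apply dLtK | apply dEqK | apply dExK | apply dAllK | apply tHK | apply tCC
    | apply dRv | apply dTopology | apply tpQ | apply tpR | apply tpP | apply dAdm | apply dInY
    | apply tYY | apply dOpenY | apply tSig | apply dGood | apply dInProd | apply dHSub
    | apply tIota | apply hA | apply hB | apply hMM | apply hD4 | apply tTr | apply T.wk1
    | apply T.wk2 | apply T.wk3 | apply T.wk4 | apply T.wk5 | apply T.wk6 | apply T.wk7
    | apply T.wk8)

theorem nbMM (oA : OneSide J gX g1 g2 A) (oB : OneSide J gX g2 g1 B)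
    (hT1 : ∀ j, E j J → IsTopology Z.E (app gX j) (app g1 j))
    (hT2 : ∀ j, E j J → IsTopology Z.E (app gX j) (app g2 j)) {j z k : M} (hj : E j J)
    (hz : E z (app gX j)) (hk : E k (om M)) : ∃ O G, E O (app g2 j) ∧ E G (app g1 j) ∧
    E z O ∧ E z G ∧ ∀ u v, E u O → E v G → MM A B j k z u v := by
  obtain ⟨O1, G1, hO1, hG1, hzO1, hzG1, h1⟩ := oA.nb j z k hj hz hk
  obtain ⟨G2, O2, hG2, hO2, hzG2, hzO2, h2⟩ := oB.nb j z k hj hz hk
  obtain ⟨O, hO, eO⟩ := (hT2 j hj).2.2.2 O1 O2 hO1 hO2
  obtain ⟨G, hG, eG⟩ := (hT1 j hj).2.2.2 G1 G2 hG1 hG2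
  refine ⟨O, G, hO, hG, (eO z).2 ⟨hzO1, hzO2⟩, (eG z).2 ⟨hzG1, hzG2⟩, fun u v hu hv => ?_⟩
  have hu' := (eO u).1 hu
  have hv' := (eG v).1 hv
  exact ⟨h1 u v hu'.1 hv'.1, h2 v u hv'.2 hu'.2⟩

theorem OneSide.refl (oA : OneSide J gX g1 g2 A) {j k z : M} (hj : E j J)
    (hz : E z (app gX j)) (hk : E k (om M)) : A j k z z z := by
  obtain ⟨O, G, _, _, h1, h2, h⟩ := oA.nb j z k hj hz hk
  exact h z z h1 h2

theorem exists_Gd (oA : OneSide J gX g1 g2 A) (oB : OneSide J gX g2 g1 B)
    (hT1 : ∀ j, E j J → IsTopology Z.E (app gX j) (app g1 j))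
    (hT2 : ∀ j, E j J → IsTopology Z.E (app gX j) (app g2 j)) {w : M} (hw : Nb J gX g1 g2 w)
    {j z : M} (hj : E j J) (hz : E z (app gX j)) : ∃ n, E n (om M) ∧ Gd gX A B w j z n := by
  obtain ⟨O, G, hO, hG, hzO, hzG, h⟩ := hw j z hj hz
  obtain ⟨K1, hK1, h1⟩ := oA.conv j z G hj hG hzG
  obtain ⟨K2, hK2, h2⟩ := oB.conv j z O hj hO hzO
  obtain ⟨n, hn, hn1, hn2⟩ := exists_max hK1 hK2
  refine ⟨n, hn, ?_, ?_⟩
  · intro u t z' y hu ht hz' hy e1 e2 e3
    apply h
    · exact h2 z z u hz hz hu (oB.refl hj hz hK2) (oB.anti j n K2 z z u hj hn hn2 hK2 hz hz hu e1)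
    · exact h1 z' t y hz' ht hy (oA.anti j n K1 z z t hj hn hn1 hK1 hz hz ht e2)
        (oA.anti j n K1 z' t y hj hn hn1 hK1 hz' ht hy e3.1)
  · intro y t z' x hy ht hz' hx e1 e2 e3
    apply h
    · exact h2 z' t x hz' ht hx (oB.anti j n K2 z z t hj hn hn2 hK2 hz hz ht e2)
        (oB.anti j n K2 z' t x hj hn hn2 hK2 hz' ht hx e3.2)
    · exact h1 z z y hz hz hy (oA.refl hj hz hK1) (oA.anti j n K1 z z y hj hn hn1 hK1 hz hz hy e1)

theorem Nb_PhS (oA : OneSide J gX g1 g2 A) (oB : OneSide J gX g2 g1 B)
    (hT1 : ∀ j, E j J → IsTopology Z.E (app gX j) (app g1 j))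
    (hT2 : ∀ j, E j J → IsTopology Z.E (app gX j) (app g2 j)) {w : M} (hw : Nb J gX g1 g2 w) :
    Nb J gX g1 g2 (PhS J gX A B w) := by
  intro j z hj hz
  obtain ⟨n, hn, hg⟩ := exists_Gd oA oB hT1 hT2 hw hj hz
  obtain ⟨O, G, hO, hG, hzO, hzG, h⟩ := nbMM oA oB hT1 hT2 hj hz hn
  refine ⟨O, G, hO, hG, hzO, hzG, fun u v hu hv => ?_⟩
  rw [tr_mem_PhS oA.dfn oB.dfn]
  exact ⟨hj, (hT2 j hj).1 O hO u hu, (hT1 j hj).1 G hG v hv, z, n, hz, hn, hg, h u v hu hv,
    (h u z hu hzG).2, (h z v hzO hv).1⟩

theorem Nb_refl {w j x : M} (hw : Nb J gX g1 g2 w) (hj : E j J) (hx : E x (app gX j)) :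
    E (tr j x x) w := by
  obtain ⟨O, G, _, _, h1, h2, h⟩ := hw j x hj hx
  exact h x x h1 h2

variable (gX A B) in
def InDD (k p : M) : Prop := ∃ j u v z, p = tr j u v ∧ E z (app gX j) ∧ MM A B j k z u v

theorem dInDD (hA : Def5 A) (hB : Def5 B) : Def2 (InDD gX A B) := by
  have hMM := dMM hA hB
  intro Γ _ f g hf hg
  unfold InDD
  (repeat' with_reducible first
    | exact T.const _ | exact T.var0 | exact T.var1 | exact T.var2 | exact T.var3
    | exact T.var4 | exact T.var5 | exact T.var6 | exact T.var7 | exact T.var8 | assumption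
    | exact D.const _ | apply D.and | apply D.or | apply D.not | apply D.iff | apply D.imp
    | apply D.ex | apply D.all | apply D.mem | apply D.eq | apply tUpair | apply tPair
    | apply tSUnion | apply dSub | apply tPow | apply tCup | apply tProd | apply tApp
    | apply tSc | apply dInd | apply dNle | apply tVal | apply tAddK | apply tHalfK
    | apply dLeK | apply dLtK | apply dEqK | apply dExK | apply dAllK | apply tHK | apply tCC
    | apply dRv | apply dTopology | apply tpQ | apply tpR | apply tpP | apply dAdm | apply dInY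
    | apply tYY | apply dOpenY | apply tSig | apply dGood | apply dInProd | apply dHSub
    | apply tIota | apply hA | apply hB | apply hMM | apply hD4 | apply tTr | apply T.wk1
    | apply T.wk2 | apply T.wk3 | apply T.wk4 | apply T.wk5 | apply T.wk6 | apply T.wk7
    | apply T.wk8)

theorem exists_unif (oA : OneSide J gX g1 g2 A) (oB : OneSide J gX g2 g1 B)
    (hT1 : ∀ j, E j J → IsTopology Z.E (app gX j) (app g1 j))
    (hT2 : ∀ j, E j J → IsTopology Z.E (app gX j) (app g2 j)) :
    ∃ V, Unif J gX g1 g2 V := by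
  have hA := oA.dfn
  have hB := oB.dfn
  have hDD := dInDD (gX := gX) hA hB
  have hS : ∀ k w : M, IsSet (fun p => E p (PhS J gX A B (PhS J gX A B w)) ∧
      InDD gX A B (sc k) p) := by
    intro k w
    refine isSet_sub (PhS J gX A B (PhS J gX A B w)) ?_ (fun p hp => hp.1)
    refine D.and ?_ (hDD _ _ _ ?_ ?_)
    all_goals (repeat' with_reducible first
      | exact T.const _ | exact T.var0 | exact T.var1 | exact T.var2 | exact T.var3
      | exact T.var4 | exact T.var5 | exact T.var6 | exact T.var7 | exact T.var8 | assumption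
      | exact D.const _ | apply D.and | apply D.or | apply D.not | apply D.iff | apply D.imp
      | apply D.ex | apply D.all | apply D.mem | apply D.eq | apply tUpair | apply tPair
      | apply tSUnion | apply dSub | apply tPow | apply tCup | apply tProd | apply tApp
      | apply tSc | apply dInd | apply dNle | apply tVal | apply tAddK | apply tHalfK
      | apply dLeK | apply dLtK | apply dEqK | apply dExK | apply dAllK | apply tHK | apply tCC
      | apply dRv | apply dTopology | apply tpQ | apply tpR | apply tpP | apply dAdm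
      | apply dInY | apply tYY | apply dOpenY | apply tSig | apply dGood | apply dInProd
      | apply dHSub | apply tIota | apply hA | apply hB | apply hMM | apply hD4 | apply tTr
      | apply T.wk1 | apply T.wk2 | apply T.wk3 | apply T.wk4 | apply T.wk5 | apply T.wk6
      | apply T.wk7 | apply T.wk8)
  set Gf : M → M → M := fun k w => cls (fun p => E p (PhS J gX A B (PhS J gX A B w)) ∧
      InDD gX A B (sc k) p) with hGf
  have hGm : ∀ k w p, E p (Gf k w) ↔ (E p (PhS J gX A B (PhS J gX A B w)) ∧
      InDD gX A B (sc k) p) := fun k w p => mem_cls (hS k w)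
  have hTG : TDef2 Gf := by
    intro Γ _ f g hf hg
    refine T.of_mem_iff (Φ := fun γ p => E p (PhS J gX A B (PhS J gX A B (g γ))) ∧
      InDD gX A B (sc (f γ)) p) (fun γ z => hGm _ _ _) ?_
    have hPh := tPhS (J := J) (gX := gX) hA hB
    refine D.and (D.mem T.var0 (hPh _ _ (hPh _ _ ?_))) (hDD _ _ _ (tSc _ _ ?_) T.var0)
    all_goals (repeat' with_reducible first
      | exact T.const _ | exact T.var0 | exact T.var1 | exact T.var2 | exact T.var3
      | exact T.var4 | exact T.var5 | exact T.var6 | exact T.var7 | exact T.var8 | assumption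
      | exact D.const _ | apply D.and | apply D.or | apply D.not | apply D.iff | apply D.imp
      | apply D.ex | apply D.all | apply D.mem | apply D.eq | apply tUpair | apply tPair
      | apply tSUnion | apply dSub | apply tPow | apply tCup | apply tProd | apply tApp
      | apply tSc | apply dInd | apply dNle | apply tVal | apply tAddK | apply tHalfK
      | apply dLeK | apply dLtK | apply dEqK | apply dExK | apply dAllK | apply tHK | apply tCC
      | apply dRv | apply dTopology | apply tpQ | apply tpR | apply tpP | apply dAdm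
      | apply dInY | apply tYY | apply dOpenY | apply tSig | apply dGood | apply dInProd
      | apply dHSub | apply tIota | apply hA | apply hB | apply hMM | apply hD4 | apply tTr
      | apply T.wk1 | apply T.wk2 | apply T.wk3 | apply T.wk4 | apply T.wk5 | apply T.wk6
      | apply T.wk7 | apply T.wk8)
  obtain ⟨C, hC0, hCs⟩ := recursion (pow (FULL J gX)) (FULL J gX) Gf hTG
    (mem_pow.2 (fun x hx => hx)) (by
      intro k w _ _
      rw [mem_pow]
      intro p hp
      obtain ⟨j, u, v, h, _⟩ := (mem_PhS hA hB).1 ((hGm _ _ _).1 hp).1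
      exact (mem_FULL J gX).2 ⟨j, u, v, h⟩)
  have hNb : ∀ k, E k (om M) → Nb J gX g1 g2 (app C k) := by
    refine om_ind _ ?_ ?_ ?_
    · exact dNb _ _ (by (repeat' with_reducible first
      | exact T.const _ | exact T.var0 | exact T.var1 | exact T.var2 | exact T.var3
      | exact T.var4 | exact T.var5 | exact T.var6 | exact T.var7 | exact T.var8 | assumption
      | exact D.const _ | apply D.and | apply D.or | apply D.not | apply D.iff | apply D.imp
      | apply D.ex | apply D.all | apply D.mem | apply D.eq | apply tUpair | apply tPair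
      | apply tSUnion | apply dSub | apply tPow | apply tCup | apply tProd | apply tApp
      | apply tSc | apply dInd | apply dNle | apply tVal | apply tAddK | apply tHalfK
      | apply dLeK | apply dLtK | apply dEqK | apply dExK | apply dAllK | apply tHK | apply tCC
      | apply dRv | apply dTopology | apply tpQ | apply tpR | apply tpP | apply dAdm
      | apply dInY | apply tYY | apply dOpenY | apply tSig | apply dGood | apply dInProd
      | apply dHSub | apply tIota | apply hA | apply hB | apply hMM | apply hD4 | apply tTr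
      | apply T.wk1 | apply T.wk2 | apply T.wk3 | apply T.wk4 | apply T.wk5 | apply T.wk6
      | apply T.wk7 | apply T.wk8))
    · rw [hC0]
      intro j z hj hz
      exact ⟨app gX j, app gX j, (hT2 j hj).2.1, (hT1 j hj).2.1, hz, hz,
        fun u v hu hv => (mem_FULL J gX).2 ⟨j, u, v, hj, hu, hv, rfl⟩⟩
    · intro k hk ih
      rw [(hCs k hk).2]
      intro j z hj hz
      obtain ⟨O1, G1, hO1, hG1, hzO1, hzG1, h1⟩ :=
        Nb_PhS oA oB hT1 hT2 (Nb_PhS oA oB hT1 hT2 ih) j z hj hz
      obtain ⟨O2, G2, hO2, hG2, hzO2, hzG2, h2⟩ := nbMM oA oB hT1 hT2 hj hz (sc_mem hk)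
      obtain ⟨O, hO, eO⟩ := (hT2 j hj).2.2.2 O1 O2 hO1 hO2
      obtain ⟨G, hG, eG⟩ := (hT1 j hj).2.2.2 G1 G2 hG1 hG2
      refine ⟨O, G, hO, hG, (eO z).2 ⟨hzO1, hzO2⟩, (eG z).2 ⟨hzG1, hzG2⟩, fun u v hu hv => ?_⟩
      have hu' := (eO u).1 hu
      have hv' := (eG v).1 hv
      rw [hGm]
      exact ⟨h1 u v hu'.1 hv'.1, j, u, v, z, rfl, hz, h2 u v hu'.2 hv'.2⟩
  refine ⟨fun j k x y => E (tr j x y) (app C k), ?_, ?_, ?_, ?_, ?_, ?_, ?_⟩
  · intro Γ _ f g h k hf hg hh hk
    (repeat' with_reducible first
      | exact T.const _ | exact T.var0 | exact T.var1 | exact T.var2 | exact T.var3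
      | exact T.var4 | exact T.var5 | exact T.var6 | exact T.var7 | exact T.var8 | assumption
      | exact D.const _ | apply D.and | apply D.or | apply D.not | apply D.iff | apply D.imp
      | apply D.ex | apply D.all | apply D.mem | apply D.eq | apply tUpair | apply tPair
      | apply tSUnion | apply dSub | apply tPow | apply tCup | apply tProd | apply tApp
      | apply tSc | apply dInd | apply dNle | apply tVal | apply tAddK | apply tHalfK
      | apply dLeK | apply dLtK | apply dEqK | apply dExK | apply dAllK | apply tHK | apply tCC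
      | apply dRv | apply dTopology | apply tpQ | apply tpR | apply tpP | apply dAdm
      | apply dInY | apply tYY | apply dOpenY | apply tSig | apply dGood | apply dInProd
      | apply dHSub | apply tIota | apply hA | apply hB | apply hMM | apply hD4 | apply tTr
      | apply T.wk1 | apply T.wk2 | apply T.wk3 | apply T.wk4 | apply T.wk5 | apply T.wk6
      | apply T.wk7 | apply T.wk8)
  · intro j k x hj hk hx
    exact Nb_refl (hNb k hk) hj hx
  · intro j k x y z t hj hk hx hy hz ht e1 e2 e3
    rw [(hCs k hk).2, hGm] at e1 e2 e3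
    have f1 := PhS_comp oA oB e1.1 e2.1
    have f3 := Nb_refl (Nb_PhS oA oB hT1 hT2 (Nb_PhS oA oB hT1 hT2 (hNb k hk))) hj ht
    have f2 := PhS_comp oA oB e3.1 f3
    exact PhS_comp oA oB f1 f2
  · intro j x U hj hU hx
    have hxX := (hT1 j hj).1 U hU x hx
    obtain ⟨K, hK, h⟩ := oA.conv j x U hj hU hx
    refine ⟨sc K, sc_mem hK, fun y hy e => ?_⟩
    rw [(hCs K hK).2, hGm] at e
    obtain ⟨_, j', u, v, z, he, hz, hM⟩ := e
    obtain ⟨rfl, rfl, rfl⟩ := tr_inj he
    exact h z x y hz hxX hy (oA.refl hj hxX hK)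
      (oA.anti j _ K z x y hj (sc_mem hK) (nle_sc K) hK hz hxX hy hM.1)
  · intro j x U hj hU hx
    have hxX := (hT2 j hj).1 U hU x hx
    obtain ⟨K, hK, h⟩ := oB.conv j x U hj hU hx
    refine ⟨sc K, sc_mem hK, fun y hy e => ?_⟩
    rw [(hCs K hK).2, hGm] at e
    obtain ⟨_, j', u, v, z, he, hz, hM⟩ := e
    obtain ⟨rfl, rfl, rfl⟩ := tr_inj he
    exact h z x y hz hxX hy (oB.refl hj hxX hK)
      (oB.anti j _ K z x y hj (sc_mem hK) (nle_sc K) hK hz hxX hy hM.2)
  · intro j k x hj hk hx
    obtain ⟨O, G, hO, hG, hxO, hxG, h⟩ := hNb k hk j x hj hx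
    exact ⟨G, hG, hxG, fun y hy => h x y hxO hy⟩
  · intro j k x hj hk hx
    obtain ⟨O, G, hO, hG, hxO, hxG, h⟩ := hNb k hk j x hj hx
    exact ⟨O, hO, hxO, fun y hy => h y x hy hxG⟩

end

end Pool.Agent.ZFQ
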