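import Pool.Agent.ZFQ.Top

/-! The space `Y` coding a bitopological space `(X, τ₁, τ₂)`. -/

set_option linter.unusedSectionVars false
set_option linter.unusedVariables false
set_option linter.unusedTactic false
set_option linter.unreachableTactic false

namespace Pool.Agent.ZFQ

universe u

variable {M : Type u} [Z : ZFModel M]

open ZFModel

variable (M) in
noncomputable def t0 : M := emp M
variable (M) in
noncomputable def t1 : M := upair (t0 M) (t0 M)
variable (M) in
noncomputable def t2 : M := upair (t1 M) (t1 M)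
variable (M) in
noncomputable def t3 : M := upair (t2 M) (t2 M)

theorem sing_inj {a b : M} (h : upair a a = upair b b) : a = b := by
  rcases upair_inj h with ⟨h, _⟩ | ⟨h, _⟩ <;> exact h

theorem sing_ne {a : M} : upair a a ≠ emp M := by
  intro h
  exact mem_emp (h ▸ mem_upair.2 (Or.inl rfl) : E a (emp M))

theorem t10 : t1 M ≠ t0 M := sing_ne
theorem t20 : t2 M ≠ t0 M := sing_ne
theorem t30 : t3 M ≠ t0 M := sing_ne
theorem t21 : t2 M ≠ t1 M := fun h => sing_ne (sing_inj h)
theorem t31 : t3 M ≠ t1 M := fun h => sing_ne (sing_inj h)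
theorem t32 : t3 M ≠ t2 M := fun h => sing_ne (sing_inj (sing_inj h))

variable (M) in
noncomputable def pS : M := pair (t0 M) (t0 M)
noncomputable def pQ (z m : M) : M := pair (t1 M) (pair z m)
noncomputable def pR (u v m : M) : M := pair (t2 M) (pair (pair u v) m)
noncomputable def pP (x U H : M) : M := pair (t3 M) (pair (pair x U) H)

section
variable {Γ : Type u} [c : Ctx M Γ]

theorem tpQ {z m : Γ → M} (hz : T z) (hm : T m) : T (fun γ => pQ (z γ) (m γ)) := by
  unfold pQ
  (repeat' with_reducible first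
    | exact T.const _ | exact T.var0 | exact T.var1 | exact T.var2 | exact T.var3
    | exact T.var4 | exact T.var5 | exact T.var6 | exact T.var7 | exact T.var8 | assumption
    | exact D.const _ | apply D.and | apply D.or | apply D.not | apply D.iff | apply D.imp
    | apply D.ex | apply D.all | apply D.mem | apply D.eq | apply tUpair | apply tPair
    | apply tSUnion | apply dSub | apply tPow | apply tCup | apply tProd | apply tApp
    | apply tSc | apply dInd | apply dNle | apply tVal | apply tAddK | apply tHalfK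
    | apply dLeK | apply dLtK | apply dEqK | apply dExK | apply dAllK | apply tHK | apply tCC
    | apply dRv | apply dTopology | apply T.wk1 | apply T.wk2 | apply T.wk3 | apply T.wk4
    | apply T.wk5 | apply T.wk6 | apply T.wk7 | apply T.wk8)
theorem tpR {z w m : Γ → M} (hz : T z) (hw : T w) (hm : T m) :
    T (fun γ => pR (z γ) (w γ) (m γ)) := by
  unfold pR
  (repeat' with_reducible first
    | exact T.const _ | exact T.var0 | exact T.var1 | exact T.var2 | exact T.var3
    | exact T.var4 | exact T.var5 | exact T.var6 | exact T.var7 | exact T.var8 | assumption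
    | exact D.const _ | apply D.and | apply D.or | apply D.not | apply D.iff | apply D.imp
    | apply D.ex | apply D.all | apply D.mem | apply D.eq | apply tUpair | apply tPair
    | apply tSUnion | apply dSub | apply tPow | apply tCup | apply tProd | apply tApp
    | apply tSc | apply dInd | apply dNle | apply tVal | apply tAddK | apply tHalfK
    | apply dLeK | apply dLtK | apply dEqK | apply dExK | apply dAllK | apply tHK | apply tCC
    | apply dRv | apply dTopology | apply tpQ | apply T.wk1 | apply T.wk2 | apply T.wk3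
    | apply T.wk4 | apply T.wk5 | apply T.wk6 | apply T.wk7 | apply T.wk8)
theorem tpP {z w m : Γ → M} (hz : T z) (hw : T w) (hm : T m) :
    T (fun γ => pP (z γ) (w γ) (m γ)) := by
  unfold pP
  (repeat' with_reducible first
    | exact T.const _ | exact T.var0 | exact T.var1 | exact T.var2 | exact T.var3
    | exact T.var4 | exact T.var5 | exact T.var6 | exact T.var7 | exact T.var8 | assumption
    | exact D.const _ | apply D.and | apply D.or | apply D.not | apply D.iff | apply D.imp
    | apply D.ex | apply D.all | apply D.mem | apply D.eq | apply tUpair | apply tPair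
    | apply tSUnion | apply dSub | apply tPow | apply tCup | apply tProd | apply tApp
    | apply tSc | apply dInd | apply dNle | apply tVal | apply tAddK | apply tHalfK
    | apply dLeK | apply dLtK | apply dEqK | apply dExK | apply dAllK | apply tHK | apply tCC
    | apply dRv | apply dTopology | apply tpQ | apply tpR | apply T.wk1 | apply T.wk2
    | apply T.wk3 | apply T.wk4 | apply T.wk5 | apply T.wk6 | apply T.wk7 | apply T.wk8)
end

theorem pS_ne_pQ {z m : M} : pS M ≠ pQ z m := fun h => t10 (pair_inj.1 h).1.symm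
theorem pS_ne_pR {u v m : M} : pS M ≠ pR u v m := fun h => t20 (pair_inj.1 h).1.symm
theorem pS_ne_pP {x U H : M} : pS M ≠ pP x U H := fun h => t30 (pair_inj.1 h).1.symm
theorem pQ_ne_pR {z m u v n : M} : pQ z m ≠ pR u v n := fun h => t21 (pair_inj.1 h).1.symm
theorem pQ_ne_pP {z m u v n : M} : pQ z m ≠ pP u v n := fun h => t31 (pair_inj.1 h).1.symm
theorem pR_ne_pP {z w m u v n : M} : pR z w m ≠ pP u v n := fun h => t32 (pair_inj.1 h).1.symm

theorem pQ_inj {z m z' m' : M} (h : pQ z m = pQ z' m') : z = z' ∧ m = m' :=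
  pair_inj.1 (pair_inj.1 h).2

theorem pR_inj {u v m u' v' m' : M} (h : pR u v m = pR u' v' m') : u = u' ∧ v = v' ∧ m = m' := by
  obtain ⟨h1, h2⟩ := pair_inj.1 (pair_inj.1 h).2
  obtain ⟨h3, h4⟩ := pair_inj.1 h1
  exact ⟨h3, h4, h2⟩

theorem pP_inj {u v m u' v' m' : M} (h : pP u v m = pP u' v' m') : u = u' ∧ v = v' ∧ m = m' := by
  obtain ⟨h1, h2⟩ := pair_inj.1 (pair_inj.1 h).2
  obtain ⟨h3, h4⟩ := pair_inj.1 h1
  exact ⟨h3, h4, h2⟩

/-- admissible sequences: decreasing sequences of subsets of `X` converging to `x` -/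
def Adm (X τ x H : M) : Prop :=
  (∀ c, E c H → E c (prod (om M) X)) ∧
  (∀ m l u, E l (om M) → nle l m → E (pair m u) H → E (pair l u) H) ∧
  (∀ G, E G τ → E x G → ∃ m, E m (om M) ∧ ∀ u, E (pair m u) H → E u G)

theorem dAdm {Γ : Type u} [c : Ctx M Γ] {X τ x H : Γ → M} (hX : T X) (hτ : T τ) (hx : T x)
    (hH : T H) : D (M := M) (fun γ => Adm (X γ) (τ γ) (x γ) (H γ)) := by
  unfold Adm
  (repeat' with_reducible first
    | exact T.const _ | exact T.var0 | exact T.var1 | exact T.var2 | exact T.var3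
    | exact T.var4 | exact T.var5 | exact T.var6 | exact T.var7 | exact T.var8 | assumption
    | exact D.const _ | apply D.and | apply D.or | apply D.not | apply D.iff | apply D.imp
    | apply D.ex | apply D.all | apply D.mem | apply D.eq | apply tUpair | apply tPair
    | apply tSUnion | apply dSub | apply tPow | apply tCup | apply tProd | apply tApp
    | apply tSc | apply dInd | apply dNle | apply tVal | apply tAddK | apply tHalfK
    | apply dLeK | apply dLtK | apply dEqK | apply dExK | apply dAllK | apply tHK | apply tCC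
    | apply dRv | apply dTopology | apply tpQ | apply tpR | apply tpP | apply T.wk1
    | apply T.wk2 | apply T.wk3 | apply T.wk4 | apply T.wk5 | apply T.wk6 | apply T.wk7
    | apply T.wk8)

/-- membership in the space `Y` -/
def InY (X τ a : M) : Prop :=
  a = pS M ∨ (∃ z m, E z X ∧ E m (om M) ∧ a = pQ z m) ∨
  (∃ u v m, E u X ∧ E v X ∧ E m (om M) ∧ u ≠ v ∧ a = pR u v m) ∨
  (∃ x U H, E x U ∧ E U τ ∧ Adm X τ x H ∧ a = pP x U H)

theorem dInY {Γ : Type u} [c : Ctx M Γ] {X τ a : Γ → M} (hX : T X) (hτ : T τ) (ha : T a) :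
    D (M := M) (fun γ => InY (X γ) (τ γ) (a γ)) := by
  unfold InY
  (repeat' with_reducible first
    | exact T.const _ | exact T.var0 | exact T.var1 | exact T.var2 | exact T.var3
    | exact T.var4 | exact T.var5 | exact T.var6 | exact T.var7 | exact T.var8 | assumption
    | exact D.const _ | apply D.and | apply D.or | apply D.not | apply D.iff | apply D.imp
    | apply D.ex | apply D.all | apply D.mem | apply D.eq | apply tUpair | apply tPair
    | apply tSUnion | apply dSub | apply tPow | apply tCup | apply tProd | apply tApp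
    | apply tSc | apply dInd | apply dNle | apply tVal | apply tAddK | apply tHalfK
    | apply dLeK | apply dLtK | apply dEqK | apply dExK | apply dAllK | apply tHK | apply tCC
    | apply dRv | apply dTopology | apply tpQ | apply tpR | apply tpP | apply dAdm
    | apply T.wk1 | apply T.wk2 | apply T.wk3 | apply T.wk4 | apply T.wk5 | apply T.wk6
    | apply T.wk7 | apply T.wk8)

theorem isSet_Y (X τ : M) : IsSet (InY X τ) := by
  refine isSet_sub (cup (upair (pS M) (pS M)) (cup (prod (upair (t1 M) (t1 M)) (prod X (om M)))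
    (cup (prod (upair (t2 M) (t2 M)) (prod (prod X X) (om M)))
      (prod (upair (t3 M) (t3 M)) (prod (prod (sUnion τ) τ) (pow (prod (om M) X))))))) ?_ ?_
  · (repeat' with_reducible first
    | exact T.const _ | exact T.var0 | exact T.var1 | exact T.var2 | exact T.var3
    | exact T.var4 | exact T.var5 | exact T.var6 | exact T.var7 | exact T.var8 | assumption
    | exact D.const _ | apply D.and | apply D.or | apply D.not | apply D.iff | apply D.imp
    | apply D.ex | apply D.all | apply D.mem | apply D.eq | apply tUpair | apply tPair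
    | apply tSUnion | apply dSub | apply tPow | apply tCup | apply tProd | apply tApp
    | apply tSc | apply dInd | apply dNle | apply tVal | apply tAddK | apply tHalfK
    | apply dLeK | apply dLtK | apply dEqK | apply dExK | apply dAllK | apply tHK | apply tCC
    | apply dRv | apply dTopology | apply tpQ | apply tpR | apply tpP | apply dAdm | apply dInY
    | apply T.wk1 | apply T.wk2 | apply T.wk3 | apply T.wk4 | apply T.wk5 | apply T.wk6
    | apply T.wk7 | apply T.wk8)
  · intro a ha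
    rw [mem_cup, mem_cup, mem_cup]
    rcases ha with rfl | ⟨z, m, hz, hm, rfl⟩ | ⟨u, v, m, hu, hv, hm, _, rfl⟩ |
      ⟨x, U, H, hx, hU, hH, rfl⟩
    · exact Or.inl (mem_upair.2 (Or.inl rfl))
    · exact Or.inr (Or.inl (pair_mem_prod.2 ⟨mem_upair.2 (Or.inl rfl),
        pair_mem_prod.2 ⟨hz, hm⟩⟩))
    · exact Or.inr (Or.inr (Or.inl (pair_mem_prod.2 ⟨mem_upair.2 (Or.inl rfl),
        pair_mem_prod.2 ⟨pair_mem_prod.2 ⟨hu, hv⟩, hm⟩⟩)))
    · exact Or.inr (Or.inr (Or.inr (pair_mem_prod.2 ⟨mem_upair.2 (Or.inl rfl),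
        pair_mem_prod.2 ⟨pair_mem_prod.2 ⟨mem_sUnion.2 ⟨U, hU, hx⟩, hU⟩, mem_pow.2 hH.1⟩⟩)))

/-- the underlying set of `Y` -/
noncomputable def YY (X τ : M) : M := cls (InY X τ)

theorem mem_YY {X τ a : M} : E a (YY X τ) ↔ InY X τ a := mem_cls (isSet_Y X τ)

theorem tYY : TDef2 (YY (M := M)) := by
  intro Γ _ f g hf hg
  refine T.of_mem_iff (Φ := fun γ z => InY (f γ) (g γ) z) (fun γ z => mem_YY) ?_
  (repeat' with_reducible first
    | exact T.const _ | exact T.var0 | exact T.var1 | exact T.var2 | exact T.var3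
    | exact T.var4 | exact T.var5 | exact T.var6 | exact T.var7 | exact T.var8 | assumption
    | exact D.const _ | apply D.and | apply D.or | apply D.not | apply D.iff | apply D.imp
    | apply D.ex | apply D.all | apply D.mem | apply D.eq | apply tUpair | apply tPair
    | apply tSUnion | apply dSub | apply tPow | apply tCup | apply tProd | apply tApp
    | apply tSc | apply dInd | apply dNle | apply tVal | apply tAddK | apply tHalfK
    | apply dLeK | apply dLtK | apply dEqK | apply dExK | apply dAllK | apply tHK | apply tCC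
    | apply dRv | apply dTopology | apply tpQ | apply tpR | apply tpP | apply dAdm | apply dInY
    | apply T.wk1 | apply T.wk2 | apply T.wk3 | apply T.wk4 | apply T.wk5 | apply T.wk6
    | apply T.wk7 | apply T.wk8)

theorem pS_mem (X τ : M) : E (pS M) (YY X τ) := mem_YY.2 (Or.inl rfl)

theorem pQ_mem {X τ z m : M} (hz : E z X) (hm : E m (om M)) : E (pQ z m) (YY X τ) :=
  mem_YY.2 (Or.inr (Or.inl ⟨z, m, hz, hm, rfl⟩))

theorem pR_mem {X τ u v m : M} (hu : E u X) (hv : E v X) (hm : E m (om M)) (h : u ≠ v) :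
    E (pR u v m) (YY X τ) :=
  mem_YY.2 (Or.inr (Or.inr (Or.inl ⟨u, v, m, hu, hv, hm, h, rfl⟩)))

theorem pP_mem {X τ x U H : M} (hx : E x U) (hU : E U τ) (hH : Adm X τ x H) :
    E (pP x U H) (YY X τ) :=
  mem_YY.2 (Or.inr (Or.inr (Or.inr ⟨x, U, H, hx, hU, hH, rfl⟩)))

/-- the open sets of `Y` -/
def OpenY (X τ₁ τ₂ S : M) : Prop :=
  Sub S (YY X τ₁) ∧
  (∀ z m, E (pQ z m) S → ∃ O G, E O τ₂ ∧ E G τ₁ ∧ E z O ∧ E z G ∧
    ∀ u v, E u O → E v G → u ≠ v → E (pR u v m) S) ∧
  (∀ x U H, E (pP x U H) S → ∃ n, E n (om M) ∧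
    (∀ m z, nle n m → E m (om M) → E z X → E (pQ z m) S) ∧
    (∀ m u v, nle n m → E m (om M) → E u X → E v X → u ≠ v → (E (pair m u) H → E v U) →
      E (pR u v m) S))

theorem dOpenY {Γ : Type u} [c : Ctx M Γ] {X τ₁ τ₂ S : Γ → M} (hX : T X) (hτ₁ : T τ₁)
    (hτ₂ : T τ₂) (hS : T S) : D (M := M) (fun γ => OpenY (X γ) (τ₁ γ) (τ₂ γ) (S γ)) := by
  unfold OpenY
  (repeat' with_reducible first
    | exact T.const _ | exact T.var0 | exact T.var1 | exact T.var2 | exact T.var3
    | exact T.var4 | exact T.var5 | exact T.var6 | exact T.var7 | exact T.var8 | assumption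
    | exact D.const _ | apply D.and | apply D.or | apply D.not | apply D.iff | apply D.imp
    | apply D.ex | apply D.all | apply D.mem | apply D.eq | apply tUpair | apply tPair
    | apply tSUnion | apply dSub | apply tPow | apply tCup | apply tProd | apply tApp
    | apply tSc | apply dInd | apply dNle | apply tVal | apply tAddK | apply tHalfK
    | apply dLeK | apply dLtK | apply dEqK | apply dExK | apply dAllK | apply tHK | apply tCC
    | apply dRv | apply dTopology | apply tpQ | apply tpR | apply tpP | apply dAdm | apply dInY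
    | apply tYY | apply T.wk1 | apply T.wk2 | apply T.wk3 | apply T.wk4 | apply T.wk5
    | apply T.wk6 | apply T.wk7 | apply T.wk8)

theorem isSet_sig (X τ₁ τ₂ : M) : IsSet (OpenY X τ₁ τ₂) := by
  refine isSet_sub (pow (YY X τ₁)) ?_ (fun S hS => mem_pow.2 hS.1)
  (repeat' with_reducible first
    | exact T.const _ | exact T.var0 | exact T.var1 | exact T.var2 | exact T.var3
    | exact T.var4 | exact T.var5 | exact T.var6 | exact T.var7 | exact T.var8 | assumption
    | exact D.const _ | apply D.and | apply D.or | apply D.not | apply D.iff | apply D.imp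
    | apply D.ex | apply D.all | apply D.mem | apply D.eq | apply tUpair | apply tPair
    | apply tSUnion | apply dSub | apply tPow | apply tCup | apply tProd | apply tApp
    | apply tSc | apply dInd | apply dNle | apply tVal | apply tAddK | apply tHalfK
    | apply dLeK | apply dLtK | apply dEqK | apply dExK | apply dAllK | apply tHK | apply tCC
    | apply dRv | apply dTopology | apply tpQ | apply tpR | apply tpP | apply dAdm | apply dInY
    | apply tYY | apply dOpenY | apply T.wk1 | apply T.wk2 | apply T.wk3 | apply T.wk4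
    | apply T.wk5 | apply T.wk6 | apply T.wk7 | apply T.wk8)

/-- the topology of `Y` -/
noncomputable def sig (X τ₁ τ₂ : M) : M := cls (OpenY X τ₁ τ₂)

theorem mem_sig {X τ₁ τ₂ S : M} : E S (sig X τ₁ τ₂) ↔ OpenY X τ₁ τ₂ S :=
  mem_cls (isSet_sig X τ₁ τ₂)

theorem tSig {Γ : Type u} [c : Ctx M Γ] {X τ₁ τ₂ : Γ → M} (hX : T X) (hτ₁ : T τ₁)
    (hτ₂ : T τ₂) : T (fun γ => sig (X γ) (τ₁ γ) (τ₂ γ)) := by
  refine T.of_mem_iff (Φ := fun γ z => OpenY (X γ) (τ₁ γ) (τ₂ γ) z) (fun γ z => mem_sig) ?_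
  (repeat' with_reducible first
    | exact T.const _ | exact T.var0 | exact T.var1 | exact T.var2 | exact T.var3
    | exact T.var4 | exact T.var5 | exact T.var6 | exact T.var7 | exact T.var8 | assumption
    | exact D.const _ | apply D.and | apply D.or | apply D.not | apply D.iff | apply D.imp
    | apply D.ex | apply D.all | apply D.mem | apply D.eq | apply tUpair | apply tPair
    | apply tSUnion | apply dSub | apply tPow | apply tCup | apply tProd | apply tApp
    | apply tSc | apply dInd | apply dNle | apply tVal | apply tAddK | apply tHalfK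
    | apply dLeK | apply dLtK | apply dEqK | apply dExK | apply dAllK | apply tHK | apply tCC
    | apply dRv | apply dTopology | apply tpQ | apply tpR | apply tpP | apply dAdm | apply dInY
    | apply tYY | apply dOpenY | apply T.wk1 | apply T.wk2 | apply T.wk3 | apply T.wk4
    | apply T.wk5 | apply T.wk6 | apply T.wk7 | apply T.wk8)

/-! ### quasi-metrizability of `Y` -/

section
variable (v : M)

def good (U H n : M) : Prop := ∀ u z w, rv v n u z → rv v n z w → E (pair n u) H → E w U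

theorem dGood {Γ : Type u} [c : Ctx M Γ] {U H n : Γ → M} (hU : T U) (hH : T H)
    (hn : T n) : D (M := M) (fun γ => good v (U γ) (H γ) (n γ)) := by
  unfold good
  (repeat' with_reducible first
    | exact T.const _ | exact T.var0 | exact T.var1 | exact T.var2 | exact T.var3
    | exact T.var4 | exact T.var5 | exact T.var6 | exact T.var7 | exact T.var8 | assumption
    | exact D.const _ | apply D.and | apply D.or | apply D.not | apply D.iff | apply D.imp
    | apply D.ex | apply D.all | apply D.mem | apply D.eq | apply tUpair | apply tPair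
    | apply tSUnion | apply dSub | apply tPow | apply tCup | apply tProd | apply tApp
    | apply tSc | apply dInd | apply dNle | apply tVal | apply tAddK | apply tHalfK
    | apply dLeK | apply dLtK | apply dEqK | apply dExK | apply dAllK | apply tHK | apply tCC
    | apply dRv | apply dTopology | apply tpQ | apply tpR | apply tpP | apply dAdm | apply dInY
    | apply tYY | apply dOpenY | apply tSig | apply T.wk1 | apply T.wk2 | apply T.wk3
    | apply T.wk4 | apply T.wk5 | apply T.wk6 | apply T.wk7 | apply T.wk8)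

/-- the normal sequence on `Y` -/
def VY (X k a b : M) : Prop :=
  a = b ∨
  (∃ z m u w, a = pQ z m ∧ b = pR u w m ∧ u ≠ w ∧ rv v k u z ∧ rv v m u z ∧ rv v k z w ∧
    rv v m z w) ∨
  (∃ x U H n, a = pP x U H ∧ E n (om M) ∧ good v U H n ∧
    ((∃ z m, E z X ∧ E m (om M) ∧ nle k m ∧ nle n m ∧ b = pQ z m) ∨
     (∃ u w m, E u X ∧ E w X ∧ u ≠ w ∧ E m (om M) ∧ nle k m ∧ nle n m ∧
       (E (pair m u) H → E w U) ∧ b = pR u w m)))

theorem dVY (X : M) : Def3 (VY v X) := by
  intro Γ _ f g h hf hg hh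
  unfold VY
  (repeat' with_reducible first
    | exact T.const _ | exact T.var0 | exact T.var1 | exact T.var2 | exact T.var3
    | exact T.var4 | exact T.var5 | exact T.var6 | exact T.var7 | exact T.var8 | assumption
    | exact D.const _ | apply D.and | apply D.or | apply D.not | apply D.iff | apply D.imp
    | apply D.ex | apply D.all | apply D.mem | apply D.eq | apply tUpair | apply tPair
    | apply tSUnion | apply dSub | apply tPow | apply tCup | apply tProd | apply tApp
    | apply tSc | apply dInd | apply dNle | apply tVal | apply tAddK | apply tHalfK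
    | apply dLeK | apply dLtK | apply dEqK | apply dExK | apply dAllK | apply tHK | apply tCC
    | apply dRv | apply dTopology | apply tpQ | apply tpR | apply tpP | apply dAdm | apply dInY
    | apply tYY | apply dOpenY | apply tSig | apply dGood | apply T.wk1 | apply T.wk2
    | apply T.wk3 | apply T.wk4 | apply T.wk5 | apply T.wk6 | apply T.wk7 | apply T.wk8)

variable {v} {X τ₁ τ₂ : M}

theorem good_mono (hv : NormalSet X v) {x U H n m : M} (hH : Adm X τ₁ x H) (hn : E n (om M))
    (hm : E m (om M)) (hnm : nle n m) (h : good v U H n) : good v U H m := by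
  intro u z w h1 h2 h3
  exact h u z w (hv.anti m hm n hnm _ _ h1) (hv.anti m hm n hnm _ _ h2)
    (hH.2.1 m n u hn hnm h3)

theorem VY_trans (hv : NormalSet X v) {k a b c : M} (hk : E k (om M)) (ha : E a (YY X τ₁))
    (h1 : VY v X k a b) (h2 : VY v X k b c) : VY v X k a c := by
  rcases h1 with rfl | ⟨z, m, u, w, rfl, rfl, huw, e1, e2, e3, e4⟩ |
    ⟨x, U, H, n, rfl, hn, hg, ⟨z, m, hz, hm, hkm, hnm, rfl⟩ |
      ⟨u, w, m, hu, hw, huw, hm, hkm, hnm, hH, rfl⟩⟩
  · exact h2
  · rcases h2 with rfl | ⟨z', m', u', w', e, _⟩ | ⟨x, U, H, n, e, _⟩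
    · exact Or.inr (Or.inl ⟨z, m, u, w, rfl, rfl, huw, e1, e2, e3, e4⟩)
    · exact (pQ_ne_pR e.symm).elim
    · exact (pR_ne_pP e).elim
  · rcases h2 with rfl | ⟨z', m', u', w', e, rfl, huw', e1, e2, e3, e4⟩ | ⟨x, U, H, n, e, _⟩
    · exact Or.inr (Or.inr ⟨x, U, H, n, rfl, hn, hg, Or.inl ⟨z, m, hz, hm, hkm, hnm, rfl⟩⟩)
    · obtain ⟨rfl, rfl⟩ := pQ_inj e
      refine Or.inr (Or.inr ⟨x, U, H, n, rfl, hn, hg, Or.inr ⟨u', w', m, (hv.sub _ _ _ e1).2.1,
        (hv.sub _ _ _ e3).2.2, huw', hm, hkm, hnm, ?_, rfl⟩⟩)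
      rcases mem_YY.1 ha with e | ⟨_, _, _, _, e⟩ | ⟨_, _, _, _, _, _, _, e⟩ |
        ⟨x', U', H', hx', hU', hH', e⟩
      · exact (pS_ne_pP e.symm).elim
      · exact (pQ_ne_pP e.symm).elim
      · exact (pR_ne_pP e.symm).elim
      · obtain ⟨rfl, rfl, rfl⟩ := pP_inj e
        exact good_mono hv hH' hn hm hnm hg u' z w' e2 e4
    · exact (pQ_ne_pP e).elim
  · rcases h2 with rfl | ⟨z', m', u', w', e, _⟩ | ⟨x, U, H, n, e, _⟩
    · exact Or.inr (Or.inr ⟨x, U, H, n, rfl, hn, hg,
        Or.inr ⟨u, w, m, hu, hw, huw, hm, hkm, hnm, hH, rfl⟩⟩)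
    · exact (pQ_ne_pR e.symm).elim
    · exact (pR_ne_pP e).elim

theorem VY_step (hv : NormalSet X v) {k a b : M} (hk : E k (om M))
    (h : VY v X (sc k) a b) : VY v X k a b := by
  rcases h with rfl | ⟨z, m, u, w, rfl, rfl, huw, e1, e2, e3, e4⟩ |
    ⟨x, U, H, n, rfl, hn, hg, ⟨z, m, hz, hm, hkm, hnm, rfl⟩ |
      ⟨u, w, m, hu, hw, huw, hm, hkm, hnm, hH, rfl⟩⟩
  · exact Or.inl rfl
  · exact Or.inr (Or.inl ⟨z, m, u, w, rfl, rfl, huw, hv.step hk e1, e2, hv.step hk e3, e4⟩)
  · exact Or.inr (Or.inr ⟨x, U, H, n, rfl, hn, hg,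
      Or.inl ⟨z, m, hz, hm, nle_trans hm (nle_sc k) hkm, hnm, rfl⟩⟩)
  · exact Or.inr (Or.inr ⟨x, U, H, n, rfl, hn, hg,
      Or.inr ⟨u, w, m, hu, hw, huw, hm, nle_trans hm (nle_sc k) hkm, hnm, hH, rfl⟩⟩)

theorem VY_normal (hv : NormalSet X v) : Normal3 (YY X τ₁) (VY v X) where
  refl := fun k x _ _ => Or.inl rfl
  comp := by
    intro k x y z w hk hx hy hz hw h1 h2 h3
    exact VY_step hv hk (VY_trans hv (sc_mem hk) hx (VY_trans hv (sc_mem hk) hx h1 h2) h3)
  sep := by
    intro a b ha hb h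
    by_contra hab
    rcases mem_YY.1 ha with rfl | ⟨z, m, hz, hm, rfl⟩ | ⟨u, w, m, hu, hw, hm, huw, rfl⟩ |
      ⟨x, U, H, hx, hU, hH, rfl⟩
    · rcases h _ zero_mem with e | ⟨_, _, _, _, e, _⟩ | ⟨_, _, _, _, e, _⟩
      · exact hab e
      · exact pS_ne_pQ e
      · exact pS_ne_pP e
    · -- a = pQ z m
      rcases mem_YY.1 hb with rfl | ⟨z', m', hz', hm', rfl⟩ | ⟨u, w, m', hu, hw, hm', huw, rfl⟩ |
        ⟨x, U, H, hx, hU, hH, rfl⟩
      · rcases h _ zero_mem with e | ⟨_, _, _, _, _, e, _⟩ | ⟨_, _, _, _, e, _⟩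
        · exact hab e
        · exact pS_ne_pR e
        · exact pQ_ne_pP e
      · rcases h _ zero_mem with e | ⟨_, _, _, _, _, e, _⟩ | ⟨_, _, _, _, e, _⟩
        · exact hab e
        · exact pQ_ne_pR e
        · exact pQ_ne_pP e
      · have key : ∀ k, E k (om M) → rv v k u z ∧ rv v k z w := by
          intro k hk
          rcases h k hk with e | ⟨z1, m1, u1, w1, e, e', _, e1, _, e2, _⟩ | ⟨_, _, _, _, e, _⟩
          · exact (pQ_ne_pR e).elim
          · obtain ⟨rfl, rfl⟩ := pQ_inj e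
            obtain ⟨rfl, rfl, _⟩ := pR_inj e'
            exact ⟨e1, e2⟩
          · exact (pQ_ne_pP e).elim
        have h1 := hv.sep u z hu hz (fun k hk => (key k hk).1)
        have h2 := hv.sep z w hz hw (fun k hk => (key k hk).2)
        exact huw (h1.trans h2)
      · rcases h _ zero_mem with e | ⟨_, _, _, _, _, e, _⟩ | ⟨_, _, _, _, e, _⟩
        · exact hab e
        · exact pR_ne_pP e.symm
        · exact pQ_ne_pP e
    · rcases h _ zero_mem with e | ⟨_, _, _, _, e, _⟩ | ⟨_, _, _, _, e, _⟩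
      · exact hab e
      · exact pQ_ne_pR e.symm
      · exact pR_ne_pP e
    · -- a = pP x U H
      rcases mem_YY.1 hb with rfl | ⟨z', m', hz', hm', rfl⟩ | ⟨u, w, m', hu, hw, hm', huw, rfl⟩ |
        ⟨x', U', H', hx', hU', hH', rfl⟩
      · rcases h _ zero_mem with e | ⟨_, _, _, _, e, _⟩ | ⟨_, _, _, _, _, _, _,
          ⟨_, _, _, _, _, _, e⟩ | ⟨_, _, _, _, _, _, _, _, _, _, e⟩⟩
        · exact hab e
        · exact pQ_ne_pP e.symm
        · exact pS_ne_pQ e
        · exact pS_ne_pR e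
      · rcases h (sc m') (sc_mem hm') with e | ⟨_, _, _, _, e, _⟩ | ⟨_, _, _, _, _, _, _,
          ⟨_, _, _, hm1, hle, _, e⟩ | ⟨_, _, _, _, _, _, _, _, _, _, e⟩⟩
        · exact hab e
        · exact pQ_ne_pP e.symm
        · obtain ⟨rfl, rfl⟩ := pQ_inj e
          exact not_lt_nle hm' (mem_sc.2 (Or.inr rfl)) hle
        · exact pQ_ne_pR e
      · rcases h (sc m') (sc_mem hm') with e | ⟨_, _, _, _, e, _⟩ | ⟨_, _, _, _, _, _, _,
          ⟨_, _, _, _, _, _, e⟩ | ⟨_, _, _, _, _, _, _, hle, _, _, e⟩⟩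
        · exact hab e
        · exact pQ_ne_pP e.symm
        · exact pQ_ne_pR e.symm
        · obtain ⟨rfl, rfl, rfl⟩ := pR_inj e
          exact not_lt_nle hm' (mem_sc.2 (Or.inr rfl)) hle
      · rcases h _ zero_mem with e | ⟨_, _, _, _, e, _⟩ | ⟨_, _, _, _, _, _, _,
          ⟨_, _, _, _, _, _, e⟩ | ⟨_, _, _, _, _, _, _, _, _, _, e⟩⟩
        · exact hab e
        · exact pQ_ne_pP e.symm
        · exact pQ_ne_pP e.symm
        · exact pR_ne_pP e.symm

theorem exists_good (hv : NormalSet X v) (hτ₁ : GenTop X (rv v) τ₁) {x U H : M}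
    (hx : E x U) (hU : E U τ₁) (hH : Adm X τ₁ x H) : ∃ n, E n (om M) ∧ good v U H n := by
  have hUo := (hτ₁ U).1 hU
  have hxX := hUo.1 x hx
  obtain ⟨l, hl, hl'⟩ := hUo.2 x hx
  have hsl := sc_mem hl
  obtain ⟨G, hG, hxG, hG'⟩ := hv.qbase.exists_open hτ₁ hxX (sc_mem hsl)
  obtain ⟨m, hm, hm'⟩ := hH.2.2 G hG hxG
  obtain ⟨n, hn, hn1, hn2⟩ := exists_max (sc_mem hsl) hm
  refine ⟨n, hn, ?_⟩
  intro u z w h1 h2 h3
  have e1 := hv.anti n hn _ hn1 _ _ h1
  have e2 := hv.anti n hn _ (nle_trans hn (nle_sc _) hn1) _ _ h2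
  have e3 := hG' u (hm' u (hH.2.1 n m u hm hn2 h3))
  have e4 := hv.comp (sc l) x u z hsl e3 e1
  have e5 := hv.comp l x z w hl e4 e2
  exact hl' w (hv.sub _ _ _ e5).2.2 e5

theorem VY_gentop (hv : NormalSet X v) (hτ₁ : GenTop X (rv v) τ₁)
    (hτ₂ : GenTop X (fun k x y => rv v k y x) τ₂) :
    GenTop (YY X τ₁) (VY v X) (sig X τ₁ τ₂) := by
  intro S
  rw [mem_sig]
  constructor
  · rintro ⟨hS, h1, h2⟩
    refine ⟨hS, fun a ha => ?_⟩
    rcases mem_YY.1 (hS a ha) with rfl | ⟨z, m, hz, hm, rfl⟩ | ⟨u, w, m, hu, hw, hm, huw, rfl⟩ |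
      ⟨x, U, H, hx, hU, hH, rfl⟩
    · refine ⟨emp M, zero_mem, fun b hb hV => ?_⟩
      rcases hV with e | ⟨_, _, _, _, e, _⟩ | ⟨_, _, _, _, e, _⟩
      · rw [← e]; exact ha
      · exact (pS_ne_pQ e).elim
      · exact (pS_ne_pP e).elim
    · obtain ⟨O, G, hO, hG, hzO, hzG, hOG⟩ := h1 z m ha
      obtain ⟨k1, hk1, e1⟩ := ((hτ₂ O).1 hO).2 z hzO
      obtain ⟨k2, hk2, e2⟩ := ((hτ₁ G).1 hG).2 z hzG
      obtain ⟨k, hk, hkk1, hkk2⟩ := exists_max hk1 hk2
      refine ⟨k, hk, fun b hb hV => ?_⟩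
      rcases hV with e | ⟨z', m', u, w, e, rfl, huw, f1, _, f2, _⟩ | ⟨_, _, _, _, e, _⟩
      · rw [← e]; exact ha
      · obtain ⟨rfl, rfl⟩ := pQ_inj e
        exact hOG u w (e1 u (hv.sub _ _ _ f1).2.1 (hv.anti k hk k1 hkk1 _ _ f1))
          (e2 w (hv.sub _ _ _ f2).2.2 (hv.anti k hk k2 hkk2 _ _ f2)) huw
      · exact (pQ_ne_pP e).elim
    · refine ⟨emp M, zero_mem, fun b hb hV => ?_⟩
      rcases hV with e | ⟨_, _, _, _, e, _⟩ | ⟨_, _, _, _, e, _⟩
      · rw [← e]; exact ha
      · exact (pQ_ne_pR e.symm).elim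
      · exact (pR_ne_pP e).elim
    · obtain ⟨n, hn, f1, f2⟩ := h2 x U H ha
      refine ⟨n, hn, fun b hb hV => ?_⟩
      rcases hV with e | ⟨_, _, _, _, e, _⟩ | ⟨x', U', H', n', e, _, _,
          ⟨z, m, hz, hm, hle, _, rfl⟩ | ⟨u, w, m, hu, hw, huw, hm, hle, _, hHU, rfl⟩⟩
      · rw [← e]; exact ha
      · exact (pQ_ne_pP e.symm).elim
      · exact f1 m z hle hm hz
      · obtain ⟨rfl, rfl, rfl⟩ := pP_inj e
        exact f2 m u w hle hm hu hw huw hHU
  · rintro ⟨hS, h⟩
    refine ⟨hS, ?_, ?_⟩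
    · intro z m ha
      obtain ⟨k, hk, hk'⟩ := h _ ha
      have hzm : E z X ∧ E m (om M) := by
        rcases mem_YY.1 (hS _ ha) with e | ⟨z', m', hz', hm', e⟩ | ⟨_, _, _, _, _, _, _, e⟩ |
          ⟨_, _, _, _, _, _, e⟩
        · exact (pS_ne_pQ e.symm).elim
        · obtain ⟨rfl, rfl⟩ := pQ_inj e
          exact ⟨hz', hm'⟩
        · exact (pQ_ne_pR e).elim
        · exact (pQ_ne_pP e).elim
      obtain ⟨hz, hm⟩ := hzm
      obtain ⟨K, hK, hkK, hmK⟩ := exists_max hk hm
      obtain ⟨O, hO, hzO, hO'⟩ := hv.qbase_conj.exists_open hτ₂ hz hK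
      obtain ⟨G, hG, hzG, hG'⟩ := hv.qbase.exists_open hτ₁ hz hK
      refine ⟨O, G, hO, hG, hzO, hzG, fun u w hu hw huw => ?_⟩
      have f1 := hO' u hu
      have f2 := hG' w hw
      exact hk' _ (pR_mem (hv.sub _ _ _ f1).2.1 (hv.sub _ _ _ f2).2.2 hm huw)
        (Or.inr (Or.inl ⟨z, m, u, w, rfl, rfl, huw, hv.anti K hK k hkK _ _ f1,
          hv.anti K hK m hmK _ _ f1, hv.anti K hK k hkK _ _ f2, hv.anti K hK m hmK _ _ f2⟩))
    · intro x U H ha
      obtain ⟨k, hk, hk'⟩ := h _ ha
      have hxUH : E x U ∧ E U τ₁ ∧ Adm X τ₁ x H := by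
        rcases mem_YY.1 (hS _ ha) with e | ⟨z', m', hz', hm', e⟩ | ⟨_, _, _, _, _, _, _, e⟩ |
          ⟨x', U', H', hx', hU', hH', e⟩
        · exact (pS_ne_pP e.symm).elim
        · exact (pQ_ne_pP e.symm).elim
        · exact (pR_ne_pP e.symm).elim
        · obtain ⟨rfl, rfl, rfl⟩ := pP_inj e
          exact ⟨hx', hU', hH'⟩
      obtain ⟨hx, hU, hH⟩ := hxUH
      obtain ⟨n0, hn0, hg⟩ := exists_good hv hτ₁ hx hU hH
      obtain ⟨n, hn, hkn, hn0n⟩ := exists_max hk hn0
      refine ⟨n, hn, ?_, ?_⟩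
      · intro m z hnm hm hz
        exact hk' _ (pQ_mem hz hm) (Or.inr (Or.inr ⟨x, U, H, n0, rfl, hn0, hg,
          Or.inl ⟨z, m, hz, hm, nle_trans hm hkn hnm, nle_trans hm hn0n hnm, rfl⟩⟩))
      · intro m u w hnm hm hu hw huw hHU
        exact hk' _ (pR_mem hu hw hm huw) (Or.inr (Or.inr ⟨x, U, H, n0, rfl, hn0, hg,
          Or.inr ⟨u, w, m, hu, hw, huw, hm, nle_trans hm hkn hnm, nle_trans hm hn0n hnm,
            hHU, rfl⟩⟩))

theorem Y_metrizable (𝓡 : RealLine Z.E) (hv : NormalSet X v) (hτ₁ : GenTop X (rv v) τ₁)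
    (hτ₂ : GenTop X (fun k x y => rv v k y x) τ₂) :
    QuasiMetrizable 𝓡 (YY X τ₁) (sig X τ₁ τ₂) :=
  frink_top 𝓡 (dVY v X) (VY_normal hv) (VY_gentop hv hτ₁ hτ₂)

end

end Pool.Agent.ZFQ
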